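import Mathlib

/-!
# Smooth projective rational surfaces, the sheaf of an irreducible curve, and its cohomology

Everything is over `ℂ` and in terms of Mathlib's schemes. A variety is a scheme `X` with a
structure morphism `s : X ⟶ Spec ℂ`. An irreducible curve `D` on a surface `X` is given by its
generic point `η`, a point of `X` of codimension one; `D` is the closure of `η`.
-/

open AlgebraicGeometry CategoryTheory TopologicalSpace Opposite

namespace Pool.Agent.Lib.MP_d885f5.Sch

noncomputable section

/-! ### Cohomology of sheaves of `ℂ`-vector spaces -/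

section Cohomology

variable (T : Type) [TopologicalSpace T]

/-- The category of sheaves of `ℂ`-vector spaces on the space `T`. -/
abbrev ShC : Type 1 := Sheaf (Opens.grothendieckTopology T) (ModuleCat.{0} ℂ)

instance hasSheafify_ShC : HasSheafify (Opens.grothendieckTopology T) (ModuleCat.{0} ℂ) :=
  inferInstance

instance hasExt_ShC : HasExt.{0} (ShC T) := inferInstance

/-- The constant sheaf `ℂ` on `T`. -/
def constC : ShC T :=
  (constantSheaf (Opens.grothendieckTopology T) (ModuleCat.{0} ℂ)).obj (ModuleCat.of ℂ ℂ)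

variable {T}

/-- The dimension of the `n`-th cohomology of the sheaf `F` of `ℂ`-vector spaces on `T`, that is,
of `Ext^n(ℂ_T, F)` (the `n`-th derived functor of global sections). -/
def rkCoh (F : ShC T) (n : ℕ) : Cardinal.{0} := Module.rank ℂ (Abelian.Ext (constC T) F n)

end Cohomology

/-! ### Sheaves of vector spaces given by their stalks -/

section Sheaf

variable {T : Type} [TopologicalSpace T] {K : Type} [AddCommGroup K] [Module ℂ K]

/-- `S` assigns to every point of the space `T` a subspace of the `ℂ`-vector space `K`. The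
sections over `U` are the elements of `K` that lie in `S x` for every `x ∈ U` (as constant
functions on `U`, so that there is only the zero section over the empty set). -/
def IsSec (S : T → Submodule ℂ K) (U : Opens T) (f : U → K) : Prop :=
  (∀ x y, f x = f y) ∧ ∀ x, f x ∈ S x.1

/-- The vector space of sections over `U`. -/
def sec (S : T → Submodule ℂ K) (U : Opens T) : Submodule ℂ (U → K) where
  carrier := {f | IsSec S U f}
  zero_mem' := ⟨fun _ _ => rfl, fun _ => zero_mem _⟩
  add_mem' := fun {f g} hf hg => ⟨fun x y => by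
    rw [Pi.add_apply, Pi.add_apply, hf.1 x y, hg.1 x y], fun x => add_mem (hf.2 x) (hg.2 x)⟩
  smul_mem' := fun c f hf => ⟨fun x y => by
    rw [Pi.smul_apply, Pi.smul_apply, hf.1 x y], fun x => Submodule.smul_mem _ _ (hf.2 x)⟩

/-- The vector space of sections over `U`, as a type. -/
def Sec (S : T → Submodule ℂ K) (U : Opens T) : Type := sec S U

instance (S : T → Submodule ℂ K) (U : Opens T) : AddCommGroup (Sec S U) := (sec S U).addCommGroup

instance (S : T → Submodule ℂ K) (U : Opens T) : Module ℂ (Sec S U) := (sec S U).module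

/-- Restriction of sections. -/
def resFun (S : T → Submodule ℂ K) {U V : Opens T} (h : U ≤ V) (f : Sec S V) : Sec S U :=
  ⟨fun x => f.1 ⟨x.1, h x.2⟩, fun _ _ => f.2.1 _ _, fun x => f.2.2 ⟨x.1, h x.2⟩⟩

/-- Restriction of sections as a linear map. -/
def res (S : T → Submodule ℂ K) {U V : Opens T} (h : U ≤ V) : Sec S V →ₗ[ℂ] Sec S U where
  toFun := resFun S h
  map_add' _ _ := rfl
  map_smul' _ _ := rfl

/-- The presheaf of these sections. -/
def secPresheaf (S : T → Submodule ℂ K) : (Opens T)ᵒᵖ ⥤ ModuleCat.{0} ℂ where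
  obj U := ModuleCat.of ℂ (Sec S U.unop)
  map i := ModuleCat.ofHom (res S i.unop.le)
  map_id _ := rfl
  map_comp _ _ := rfl

lemma secPresheaf_isSheaf [PreirreducibleSpace T] (S : T → Submodule ℂ K) :
    Presheaf.IsSheaf (Opens.grothendieckTopology T) (secPresheaf S) := by
  change TopCat.Presheaf.IsSheaf (X := TopCat.of T) (secPresheaf S)
  rw [TopCat.Presheaf.isSheaf_iff_isSheafUniqueGluing]
  intro ι U sf hsf
  have hcov : ∀ x : (iSup U : Opens T), ∃ i, x.1 ∈ U i := fun x => Opens.mem_iSup.1 x.2
  choose c hc using hcov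
  have key : ∀ (i j : ι) (x : T) (hi : x ∈ U i) (hj : x ∈ U j),
      (sf i).1 ⟨x, hi⟩ = (sf j).1 ⟨x, hj⟩ := by
    intro i j x hi hj
    have h1 := congrArg (fun z => z.1 ⟨x, ⟨hi, hj⟩⟩) (hsf i j)
    exact h1
  have key2 : ∀ (i j : ι) (x y : T) (hi : x ∈ U i) (hj : y ∈ U j),
      (sf i).1 ⟨x, hi⟩ = (sf j).1 ⟨y, hj⟩ := by
    intro i j x y hi hj
    obtain ⟨z, hz⟩ := nonempty_preirreducible_inter (X := T) (U i).2 (U j).2 ⟨x, hi⟩ ⟨y, hj⟩
    exact ((sf i).2.1 _ ⟨z, hz.1⟩).trans ((key i j z hz.1 hz.2).trans ((sf j).2.1 _ _))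
  refine ⟨⟨fun x => (sf (c x)).1 ⟨x.1, hc x⟩, fun x y => key2 _ _ _ _ _ _,
    fun x => (sf (c x)).2.2 ⟨x.1, hc x⟩⟩, ?_, ?_⟩
  · intro i
    apply Subtype.ext
    funext x
    exact key2 _ _ _ _ _ _
  · intro g hg
    apply Subtype.ext
    funext x
    have h1 := congrArg (fun z => z.1 ⟨x.1, hc x⟩) (hg (c x))
    exact h1

/-- The sheaf of these sections (`T` irreducible). -/
def secSheaf [PreirreducibleSpace T] (S : T → Submodule ℂ K) : ShC T :=
  ⟨secPresheaf S, secPresheaf_isSheaf S⟩

end Sheaf

/-! ### Smooth projective rational surfaces -/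

section

attribute [local instance] MvPolynomial.gradedAlgebra

/-- The base scheme `Spec ℂ`. -/
abbrev SpecC : Scheme.{0} := Spec (CommRingCat.of ℂ)

/-- Projective space `ℙⁿ = Proj ℂ[x₀, …, xₙ]`. -/
abbrev PSpace (n : ℕ) : Scheme.{0} := Proj (MvPolynomial.homogeneousSubmodule (Fin (n + 1)) ℂ)

/-- The structure morphism `ℙⁿ ⟶ Spec ℂ`. -/
def PSpace.toSpecC (n : ℕ) : PSpace n ⟶ SpecC :=
  Proj.toSpecZero _ ≫ Spec.map (CommRingCat.ofHom
    (algebraMap ℂ (MvPolynomial.homogeneousSubmodule (Fin (n + 1)) ℂ 0)))

/-- `X` is a smooth projective rational surface over `ℂ`: it is integral, smooth over `ℂ`, a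
closed subscheme of some `ℙⁿ` (over `ℂ`), and birational over `ℂ` to the affine plane (hence
also to `ℙ²`; in particular it has dimension two). -/
structure IsSmoothProjectiveRationalSurface {X : Scheme.{0}} (s : X ⟶ SpecC) : Prop where
  isIntegral : IsIntegral X
  smooth : Smooth s
  projective : ∃ (n : ℕ) (i : X ⟶ PSpace n), IsClosedImmersion i ∧ i ≫ PSpace.toSpecC n = s
  rational : Scheme.BirationalOver s (𝔸(Fin 2; SpecC) ↘ SpecC)

end

/-! ### The sheaf `O_X(D)` -/

section Scheme

variable {X : Scheme.{0}} (s : X ⟶ SpecC)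

/-- The constants `ℂ → Γ(X, ⊤)`. -/
def cstTop : CommRingCat.of ℂ ⟶ Γ(X, ⊤) := (Scheme.ΓSpecIso (CommRingCat.of ℂ)).inv ≫ s.appTop

/-- The constants `ℂ → O_{X,x}`. -/
def cstStalk (x : X) : ℂ →+* X.presheaf.stalk x := (cstTop s ≫ X.presheaf.germ ⊤ x trivial).hom

variable [IsIntegral X]

/-- The function field of `X` (the stalk at the generic point). -/
def FunField (_s : X ⟶ SpecC) : Type := X.functionField

instance : CommRing (FunField s) := CommRingCat.commRing X.functionField

/-- The function field is an algebra over `ℂ`. -/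
instance : Algebra ℂ (FunField s) := (cstStalk s (genericPoint X)).toAlgebra

/-- The local ring of `X` at `x` maps to the function field. -/
def toK (x : X) : X.presheaf.stalk x →+* FunField s :=
  (X.presheaf.stalkSpecializes (genericPoint_specializes x)).hom

/-- The ideal of the curve `D = closure {η}` at `x`: the germs `t` of regular functions at `x` that
vanish on `D`, that is, if `x` lies on `D`, the image of `t` in the local ring of `X` at `η` is in
the maximal ideal; if `x` is not on `D` these are all germs. -/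
def vanishingGerms (η x : X) : Set (X.presheaf.stalk x) :=
  {t | ∀ h : η ⤳ x, (X.presheaf.stalkSpecializes h).hom t ∈
    IsLocalRing.maximalIdeal (X.presheaf.stalk η)}

lemma toK_cst (x : X) (c : ℂ) : toK s x (cstStalk s x c) = algebraMap ℂ (FunField s) c := by
  have := X.presheaf.germ_stalkSpecializes (U := ⊤) (y := x) trivial (genericPoint_specializes x)
  exact congrArg (fun z => (cstTop s ≫ z).hom c) this

/-- The rational function `f` is in the stalk of `O_X(D)` at `x`, `D` the closure of `η`:
`f t ∈ O_{X,x}` for every germ `t` at `x` vanishing on `D`. -/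
def MemOD (η x : X) (f : FunField s) : Prop :=
  ∀ t ∈ vanishingGerms η x, ∃ u, f * toK s x t = toK s x u

/-- The stalk at `x` of `O_X(D)`, `D` the closure of `η`, inside the function field. -/
def stalkOD (η x : X) : Submodule ℂ (FunField s) where
  carrier := {f | MemOD s η x f}
  zero_mem' := fun t _ => ⟨0, by rw [zero_mul, map_zero]⟩
  add_mem' := by
    intro f g hf hg t ht
    obtain ⟨u, hu⟩ := hf t ht
    obtain ⟨v, hv⟩ := hg t ht
    exact ⟨u + v, by rw [add_mul, hu, hv, map_add]⟩
  smul_mem' := by
    intro c f hf t ht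
    obtain ⟨u, hu⟩ := hf t ht
    refine ⟨cstStalk s x c * u, ?_⟩
    rw [Algebra.smul_def, mul_assoc, hu, map_mul, toK_cst]

/-- The sheaf `O_X(D)`, `D` the closure of `η`: its sections over `U` are the rational functions
that lie in the stalk of `O_X(D)` at every point of `U`. -/
def sheafOD (η : X) : ShC X := secSheaf (stalkOD s η)

/-- `h^n(D)`, the dimension of `H^n(X, O_X(D))`, where `D` is the closure of `η`. -/
def h (n : ℕ) (η : X) : Cardinal.{0} := rkCoh (sheafOD s η) n

end Scheme

end

end Pool.Agent.Lib.MP_d885f5.Sch
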