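import Mathlib
import Pool.Agent.Lib.MP_d885f5.Sch.Defs

open AlgebraicGeometry CategoryTheory TopologicalSpace Opposite HomogeneousLocalization

namespace Pool.Agent.Lib.MP_d885f5.Sch

noncomputable section

set_option backward.isDefEq.respectTransparency.types false
set_option linter.unusedSectionVars false

/-- the sections of `O_X(D)` -/
abbrev sectionsOD {X : Scheme.{0}} [IsIntegral X] (s : X ⟶ SpecC) (η : X) (U : Opens X) :
    Submodule ℂ (U → FunField s) := sec (stalkOD s η) U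

/-- the cohomology of a sheaf of vector spaces -/
abbrev Coh {T : Type} [TopologicalSpace T] (F : ShC T) (n : ℕ) : Type :=
  Abelian.Ext (constC T) F n

section ProjDomain

variable {R : Type} [CommRing R] [IsDomain R] [Algebra ℂ R] {𝒜 : ℕ → Submodule ℂ R}
  [GradedAlgebra 𝒜] (Q : Type) [Field Q] [Algebra R Q] [FaithfulSMul R Q]

lemma den_unit (P : Ideal R) [P.IsPrime] (d : P.primeCompl) : IsUnit (algebraMap R Q d) := by
  rw [isUnit_iff_ne_zero]
  intro h
  apply d.2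
  rw [(map_eq_zero_iff _ (FaithfulSMul.algebraMap_injective R Q)).1 h]
  exact zero_mem _

/-- degree zero fractions as elements of `Q` -/
def lam (P : Ideal R) [P.IsPrime] : AtPrime 𝒜 P →+* Q :=
  (IsLocalization.lift (M := P.primeCompl) (S := Localization.AtPrime P) (g := algebraMap R Q)
      (den_unit Q P)).comp
    (algebraMap (AtPrime 𝒜 P) (Localization.AtPrime P))

lemma lam_mk (P : Ideal R) [P.IsPrime] (f : NumDenSameDeg 𝒜 P.primeCompl) :
    lam Q P (HomogeneousLocalization.mk f) = algebraMap R Q f.num / algebraMap R Q f.den := by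
  rw [lam, RingHom.comp_apply, HomogeneousLocalization.algebraMap_apply,
    HomogeneousLocalization.val_mk, Localization.mk_eq_mk', IsLocalization.lift_mk'_spec,
    mul_div_cancel₀]
  exact (den_unit Q P ⟨f.den, f.den_mem⟩).ne_zero

lemma lam_injective (P : Ideal R) [P.IsPrime] : Function.Injective (lam (𝒜 := 𝒜) Q P) := by
  rw [lam, RingHom.coe_comp]
  refine Function.Injective.comp ?_ (HomogeneousLocalization.val_injective _)
  rw [IsLocalization.lift_injective_iff]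
  intro a b
  rw [(FaithfulSMul.algebraMap_injective R Q).eq_iff,
    (IsLocalization.injective (Localization.AtPrime P) P.primeCompl_le_nonZeroDivisors).eq_iff]

/-- the local ring at `x` inside `Q` -/
def theta (x : Proj 𝒜) : (Proj 𝒜).presheaf.stalk x →+* Q :=
  (lam Q x.asHomogeneousIdeal.toIdeal).comp (Proj.stalkIso 𝒜 x).hom.hom

lemma theta_injective (x : Proj 𝒜) : Function.Injective (theta (𝒜 := 𝒜) Q x) := by
  refine (lam_injective Q _).comp ?_
  exact (ConcreteCategory.bijective_of_isIso (Proj.stalkIso 𝒜 x).hom).1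

lemma theta_germ (x : Proj 𝒜) (U : (Proj 𝒜).Opens) (hx : x ∈ U) (t : Γ(Proj 𝒜, U))
    (f : NumDenSameDeg 𝒜 x.asHomogeneousIdeal.toIdeal.primeCompl)
    (hf : t.1 ⟨x, hx⟩ = HomogeneousLocalization.mk f) :
    theta Q x ((Proj 𝒜).presheaf.germ U x hx t) =
      algebraMap R Q f.num / algebraMap R Q f.den := by
  rw [← lam_mk Q, theta, RingHom.comp_apply]
  congr 1
  rw [← hf]
  exact Proj.stalkIso'_germ 𝒜 U x hx t

/-- Every germ at `x` comes from a section over a neighbourhood given by one fraction. -/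
lemma exists_frac_nhds (x : Proj 𝒜) (t : (Proj 𝒜).presheaf.stalk x) :
    ∃ (U : (Proj 𝒜).Opens) (hx : x ∈ U) (s : Γ(Proj 𝒜, U)) (n : ℕ) (num den : R),
      num ∈ 𝒜 n ∧ den ∈ 𝒜 n ∧ (∀ y ∈ U, den ∉ y.asHomogeneousIdeal) ∧
      t = (Proj 𝒜).presheaf.germ U x hx s ∧
      ∀ (y : Proj 𝒜) (hy : y ∈ U), theta Q y ((Proj 𝒜).presheaf.germ U y hy s) =
        algebraMap R Q num / algebraMap R Q den := by
  obtain ⟨f, hf⟩ := HomogeneousLocalization.mk_surjective ((Proj.stalkIso' 𝒜 x) t)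
  refine ⟨ProjectiveSpectrum.basicOpen 𝒜 f.den, mem_basicOpen_den _ x f,
    sectionInBasicOpen _ x f, f.deg, f.num, f.den, f.num.2, f.den.2, fun y hy => hy, ?_, ?_⟩
  · apply (Proj.stalkIso' 𝒜 x).injective
    rw [← hf]
    exact (Proj.stalkIso'_germ 𝒜 (ProjectiveSpectrum.basicOpen 𝒜 f.den) x
      (mem_basicOpen_den _ x f) (sectionInBasicOpen _ x f)).symm
  · intro y hy
    exact theta_germ Q y _ hy _ ⟨f.deg, f.num, f.den, hy⟩ rfl

lemma theta_specializes {y x : Proj 𝒜} (h : y ⤳ x) (t : (Proj 𝒜).presheaf.stalk x) :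
    theta Q y (((Proj 𝒜).presheaf.stalkSpecializes h).hom t) = theta Q x t := by
  obtain ⟨U, hx, s, n, num, den, h1, h2, h3, rfl, h4⟩ := exists_frac_nhds Q x t
  rw [h4 x hx]
  have hy : y ∈ U := h.mem_open U.2 hx
  rw [← h4 y hy]
  congr 1
  exact TopCat.Presheaf.germ_stalkSpecializes_apply _ _ _ _

lemma exists_frac (x : Proj 𝒜) (t : (Proj 𝒜).presheaf.stalk x) :
    ∃ (n : ℕ) (num den : R), num ∈ 𝒜 n ∧ den ∈ 𝒜 n ∧ den ∉ x.asHomogeneousIdeal ∧
      theta Q x t = algebraMap R Q num / algebraMap R Q den := by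
  obtain ⟨U, hx, s, n, num, den, h1, h2, h3, rfl, h4⟩ := exists_frac_nhds Q x t
  exact ⟨n, num, den, h1, h2, h3 x hx, h4 x hx⟩

lemma exists_of_frac (x : Proj 𝒜) {n : ℕ} {num den : R} (h1 : num ∈ 𝒜 n) (h2 : den ∈ 𝒜 n)
    (h3 : den ∉ x.asHomogeneousIdeal) :
    ∃ t : (Proj 𝒜).presheaf.stalk x, theta Q x t = algebraMap R Q num / algebraMap R Q den := by
  let f : NumDenSameDeg 𝒜 x.asHomogeneousIdeal.toIdeal.primeCompl := ⟨n, ⟨num, h1⟩, ⟨den, h2⟩, h3⟩
  exact ⟨(Proj 𝒜).presheaf.germ (ProjectiveSpectrum.basicOpen 𝒜 den) x h3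
    (sectionInBasicOpen _ x f), theta_germ Q x _ h3 _ f rfl⟩

lemma mem_maximalIdeal_iff (x : Proj 𝒜) (t : (Proj 𝒜).presheaf.stalk x) {n : ℕ} {num den : R}
    (h1 : num ∈ 𝒜 n) (h2 : den ∈ 𝒜 n) (h3 : den ∉ x.asHomogeneousIdeal)
    (ht : theta Q x t = algebraMap R Q num / algebraMap R Q den) :
    t ∈ IsLocalRing.maximalIdeal ((Proj 𝒜).presheaf.stalk x) ↔ num ∈ x.asHomogeneousIdeal := by
  have hden : den ≠ 0 := fun h => h3 (h ▸ zero_mem _)
  have hQ := FaithfulSMul.algebraMap_injective R Q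
  have hd0 : algebraMap R Q den ≠ 0 := fun h => hden ((map_eq_zero_iff _ hQ).1 h)
  rw [IsLocalRing.mem_maximalIdeal, mem_nonunits_iff, ← not_iff_comm, isUnit_iff_exists_inv]
  constructor
  · intro hnum
    obtain ⟨u, hu⟩ := exists_of_frac Q x h2 h1 hnum
    refine ⟨u, theta_injective Q x ?_⟩
    have hn0 : algebraMap R Q num ≠ 0 := fun h => hnum (((map_eq_zero_iff _ hQ).1 h) ▸ zero_mem _)
    rw [map_mul, ht, hu, map_one]
    field_simp
  · rintro ⟨u, hu⟩ hnum
    obtain ⟨m, a, b, ha, hb, hb', e⟩ := exists_frac Q x u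
    have hb0 : algebraMap R Q b ≠ 0 := fun h => hb' (((map_eq_zero_iff _ hQ).1 h) ▸ zero_mem _)
    have := congrArg (theta Q x) hu
    rw [map_mul, ht, e, map_one] at this
    field_simp at this
    rw [← map_mul, ← map_mul] at this
    have h5 := hQ this
    have h6 : den * b ∈ x.asHomogeneousIdeal := by
      rw [← h5]
      exact Ideal.mul_mem_right _ _ hnum
    rcases x.isPrime.mem_or_mem h6 with h | h
    · exact h3 h
    · exact hb' h

lemma specializes_iff (y x : Proj 𝒜) : y ⤳ x ↔ y.asHomogeneousIdeal ≤ x.asHomogeneousIdeal := by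
  rw [specializes_iff_mem_closure]
  exact (ProjectiveSpectrum.le_iff_mem_closure 𝒜 y x).symm

/-- the generic point -/
def botPt {n : ℕ} (hn : 0 < n) {r : R} (hr : r ∈ 𝒜 n) (hr0 : r ≠ 0) : Proj 𝒜 :=
  (⟨⊥, by
    change (⊥ : Ideal R).IsPrime
    exact Ideal.isPrime_bot, fun h => hr0 (by
      have h1 : r ∈ HomogeneousIdeal.irrelevant 𝒜 := by
        rw [HomogeneousIdeal.mem_irrelevant_iff, GradedRing.proj_apply,
          DirectSum.decompose_of_mem_ne 𝒜 hr hn.ne']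
      exact h h1)⟩ : ProjectiveSpectrum 𝒜)

lemma botPt_specializes {n : ℕ} (hn : 0 < n) {r : R} (hr : r ∈ 𝒜 n) (hr0 : r ≠ 0) (x : Proj 𝒜) :
    botPt hn hr hr0 ⤳ x := by
  rw [specializes_iff]
  exact bot_le

lemma isDomain_stalk (x : Proj 𝒜) : IsDomain ((Proj 𝒜).presheaf.stalk x) :=
  (theta_injective (FractionRing R) x).isDomain _

lemma irreducible_proj {n : ℕ} (hn : 0 < n) {r : R} (hr : r ∈ 𝒜 n) (hr0 : r ≠ 0) :
    IrreducibleSpace (Proj 𝒜) := by
  have h : closure {botPt hn hr hr0} = Set.univ := by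
    rw [Set.eq_univ_iff_forall]
    exact fun x => (botPt_specializes hn hr hr0 x).mem_closure
  have h1 : IsIrreducible (Set.univ : Set (Proj 𝒜)) := by
    rw [← h]
    exact isIrreducible_singleton.closure
  exact (irreducibleSpace_def _).2 h1

lemma isIntegral_proj {n : ℕ} (hn : 0 < n) {r : R} (hr : r ∈ 𝒜 n) (hr0 : r ≠ 0) :
    IsIntegral (Proj 𝒜) := by
  have := irreducible_proj hn hr hr0
  have : ∀ x : Proj 𝒜, _root_.IsReduced ((Proj 𝒜).presheaf.stalk x) := fun x => by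
    have := isDomain_stalk (𝒜 := 𝒜) x
    infer_instance
  have := isReduced_of_isReduced_stalk (Proj 𝒜)
  exact isIntegral_of_irreducibleSpace_of_isReduced _

lemma genericPoint_proj [IrreducibleSpace (Proj 𝒜)] {n : ℕ} (hn : 0 < n) {r : R} (hr : r ∈ 𝒜 n)
    (hr0 : r ≠ 0) : genericPoint (Proj 𝒜) = botPt hn hr hr0 := by
  apply (genericPoint_spec (Proj 𝒜)).eq
  rw [isGenericPoint_def, Set.eq_univ_iff_forall]
  exact fun x => (botPt_specializes hn hr hr0 x).mem_closure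

set_option backward.isDefEq.respectTransparency.types true in
lemma toSpecZero_appTop {n : ℕ} (hn : 0 < n) {f : R} (hf : f ∈ 𝒜 n) : (Proj.toSpecZero 𝒜).appTop ≫
    (Proj 𝒜).presheaf.map (homOfLE le_top : Proj.basicOpen 𝒜 f ⟶ ⊤).op =
    (Scheme.ΓSpecIso _).hom ≫ CommRingCat.ofHom (fromZeroRingHom 𝒜 (.powers f)) ≫
      Proj.awayToSection 𝒜 f := by
  have h : (Proj.basicOpen 𝒜 f).ι ≫ Proj.toSpecZero 𝒜 = Proj.basicOpenToSpec 𝒜 f ≫
      Spec.map (CommRingCat.ofHom (fromZeroRingHom 𝒜 (.powers f))) := by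
    rw [← Proj.awayι_toSpecZero 𝒜 f hf hn, Proj.awayι, ← Proj.basicOpenIsoSpec_hom 𝒜 f hf hn]
    simp
  have h2 := congrArg (fun z => Scheme.Hom.appTop z ≫ (Proj.basicOpen 𝒜 f).topIso.hom) h
  simp only [Scheme.Hom.comp_appTop, Category.assoc] at h2
  have h3 : (Proj.basicOpen 𝒜 f).ι.appTop ≫ (Proj.basicOpen 𝒜 f).topIso.hom =
      (Proj 𝒜).presheaf.map (homOfLE le_top : Proj.basicOpen 𝒜 f ⟶ ⊤).op := by
    rw [Scheme.Opens.ι_appTop, Scheme.Opens.topIso_hom]
    exact ((Proj 𝒜).presheaf.map_comp _ _).symm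
  have h4 : (Proj.basicOpenToSpec 𝒜 f).appTop ≫ (Proj.basicOpen 𝒜 f).topIso.hom =
      (Scheme.ΓSpecIso _).hom ≫ Proj.awayToSection 𝒜 f := by
    rw [Scheme.Hom.appTop, Proj.basicOpenToSpec_app_top]
    simp only [Category.assoc, Iso.inv_hom_id, Category.comp_id]
  rw [h3, h4] at h2
  rw [h2, Scheme.ΓSpecIso_naturality_assoc]

variable (𝒜) in
/-- the structure morphism of `Proj` over `ℂ` -/
def toC : Proj 𝒜 ⟶ SpecC :=
  Proj.toSpecZero 𝒜 ≫ Spec.map (CommRingCat.ofHom (algebraMap ℂ (𝒜 0)))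

lemma exists_homog_not_mem (x : Proj 𝒜) : ∃ n, 0 < n ∧ ∃ f ∈ 𝒜 n, f ∉ x.asHomogeneousIdeal := by
  by_contra! H
  apply x.not_irrelevant_le
  intro z hz
  rw [HomogeneousIdeal.mem_irrelevant_iff] at hz
  classical
  rw [← DirectSum.sum_support_decompose 𝒜 z]
  refine Ideal.sum_mem _ fun c hc => ?_
  by_cases hc0 : c = 0
  · subst hc0
    rw [← GradedRing.proj_apply, hz]
    exact zero_mem _
  · exact H c (Nat.pos_of_ne_zero hc0) _ (DirectSum.decompose 𝒜 z c).2

lemma theta_cst [Algebra ℂ Q] [IsScalarTower ℂ R Q] (x : Proj 𝒜) (c : ℂ) :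
    theta Q x (cstStalk (toC 𝒜) x c) = algebraMap ℂ Q c := by
  obtain ⟨n, hn, f, hf, hx⟩ := exists_homog_not_mem x
  have h1 : (toC 𝒜).appTop.hom ((Scheme.ΓSpecIso (CommRingCat.of ℂ)).inv.hom c) =
      (Proj.toSpecZero 𝒜).appTop.hom ((Scheme.ΓSpecIso (CommRingCat.of (𝒜 0))).inv.hom
        (algebraMap ℂ (𝒜 0) c)) := by
    rw [toC, Scheme.Hom.comp_appTop]
    have := congrArg (fun z => (Proj.toSpecZero 𝒜).appTop.hom (z.hom c))
      (Scheme.ΓSpecIso_inv_naturality (CommRingCat.ofHom (algebraMap ℂ (𝒜 0))))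
    exact this.symm
  have h2 := congrArg (fun z => z.hom ((Scheme.ΓSpecIso (CommRingCat.of (𝒜 0))).inv.hom
        (algebraMap ℂ (𝒜 0) c))) (toSpecZero_appTop hn hf)
  have h3 : cstStalk (toC 𝒜) x c = (Proj 𝒜).presheaf.germ (Proj.basicOpen 𝒜 f) x hx
      (Proj.awayToSection 𝒜 f (fromZeroRingHom 𝒜 (.powers f) (algebraMap ℂ (𝒜 0) c))) := by
    have h4 : ((Proj 𝒜).presheaf.map (homOfLE le_top : Proj.basicOpen 𝒜 f ⟶ ⊤).op).hom
        ((Proj.toSpecZero 𝒜).appTop.hom ((Scheme.ΓSpecIso (CommRingCat.of (𝒜 0))).inv.hom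
        (algebraMap ℂ (𝒜 0) c))) =
        Proj.awayToSection 𝒜 f (fromZeroRingHom 𝒜 (.powers f) (algebraMap ℂ (𝒜 0) c)) := by
      refine h2.trans ?_
      have h5 : (Scheme.ΓSpecIso (CommRingCat.of (𝒜 0))).hom.hom
          ((Scheme.ΓSpecIso (CommRingCat.of (𝒜 0))).inv.hom (algebraMap ℂ (𝒜 0) c)) =
            algebraMap ℂ (𝒜 0) c :=
        congrArg (fun z => z.hom (algebraMap ℂ (𝒜 0) c)) (Scheme.ΓSpecIso (CommRingCat.of (𝒜 0))).inv_hom_id
      exact congrArg (fun z => Proj.awayToSection 𝒜 f (fromZeroRingHom 𝒜 (.powers f) z)) h5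
    change ((Proj 𝒜).presheaf.germ ⊤ x trivial).hom ((toC 𝒜).appTop.hom
      ((Scheme.ΓSpecIso (CommRingCat.of ℂ)).inv.hom c)) = _
    rw [h1, ← h4]
    exact (TopCat.Presheaf.germ_res_apply (Proj 𝒜).presheaf (homOfLE le_top) x hx _).symm
  rw [h3, theta_germ Q x _ hx _ ⟨0, algebraMap ℂ (𝒜 0) c, 1,
    fun h => x.isPrime.ne_top ((Ideal.eq_top_iff_one _).2 h)⟩ rfl]
  change algebraMap R Q (algebraMap ℂ R c) / algebraMap R Q 1 = _
  rw [map_one, div_one, ← IsScalarTower.algebraMap_apply]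

/-- the local ring of `x` inside `Q`, as a set of fractions -/
def frac (x : Proj 𝒜) : Set Q :=
  {q | ∃ n, ∃ num ∈ 𝒜 n, ∃ den ∈ 𝒜 n, den ∉ x.asHomogeneousIdeal ∧
    q = algebraMap R Q num / algebraMap R Q den}

lemma mem_frac_iff (x : Proj 𝒜) (q : Q) : q ∈ frac Q x ↔ ∃ t, theta Q x t = q := by
  constructor
  · rintro ⟨n, num, h1, den, h2, h3, rfl⟩
    exact exists_of_frac Q x h1 h2 h3
  · rintro ⟨t, rfl⟩
    obtain ⟨n, num, den, h1, h2, h3, h4⟩ := exists_frac Q x t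
    exact ⟨n, num, h1, den, h2, h3, h4⟩

section Fun

variable [IsIntegral (Proj 𝒜)] (s : Proj 𝒜 ⟶ SpecC)

/-- the function field inside `Q` -/
def thetaK : FunField s →+* Q := theta Q (genericPoint (Proj 𝒜))

lemma thetaK_injective : Function.Injective (thetaK Q s) := theta_injective Q _

lemma thetaK_algebraMap (x : Proj 𝒜) (t : (Proj 𝒜).presheaf.stalk x) :
    thetaK Q s (toK s x t) = theta Q x t :=
  theta_specializes Q ((genericPoint_spec (Proj 𝒜)).specializes trivial) t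

lemma thetaK_cst [Algebra ℂ Q] [IsScalarTower ℂ R Q] (c : ℂ) :
    thetaK Q (toC 𝒜) (algebraMap ℂ (FunField (toC 𝒜)) c) = algebraMap ℂ Q c := by
  rw [← toK_cst (toC 𝒜) (genericPoint (Proj 𝒜)) c, thetaK_algebraMap, theta_cst]

lemma mem_stalkOD_iff (η x : Proj 𝒜) (f : FunField s) :
    f ∈ stalkOD s η x ↔ ∀ n, ∀ t ∈ 𝒜 n, t ∈ η.asHomogeneousIdeal → ∀ u ∈ 𝒜 n,
      u ∉ x.asHomogeneousIdeal →
        thetaK Q s f * (algebraMap R Q t / algebraMap R Q u) ∈ frac Q x := by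
  constructor
  · intro hf n t ht htη u hu hux
    obtain ⟨g, hg⟩ := exists_of_frac Q x ht hu hux
    have hv : g ∈ vanishingGerms η x := by
      intro h
      have huη : u ∉ η.asHomogeneousIdeal := fun h' => hux ((specializes_iff η x).1 h h')
      rw [mem_maximalIdeal_iff Q η _ ht hu huη (by rw [theta_specializes, hg])]
      exact htη
    obtain ⟨v, hv'⟩ := hf g hv
    rw [mem_frac_iff]
    refine ⟨v, ?_⟩
    rw [← hg, ← thetaK_algebraMap Q s, ← thetaK_algebraMap Q s, ← map_mul, hv']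
  · intro H t ht
    by_cases h : η ⤳ x
    · have h1 := ht h
      obtain ⟨n, num, den, h2, h3, h4, h5⟩ := exists_frac Q x t
      have huη : den ∉ η.asHomogeneousIdeal := fun h' => h4 ((specializes_iff η x).1 h h')
      rw [mem_maximalIdeal_iff Q η _ h2 h3 huη (by rw [theta_specializes, h5])] at h1
      have h6 := H n num h2 h1 den h3 h4
      rw [mem_frac_iff] at h6
      obtain ⟨u, hu⟩ := h6
      refine ⟨u, thetaK_injective Q s ?_⟩
      rw [map_mul, thetaK_algebraMap, thetaK_algebraMap, hu, h5]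
    · rw [specializes_iff] at h
      obtain ⟨n, t0, ht0, h1, h2⟩ : ∃ n, ∃ t0 ∈ 𝒜 n, t0 ∈ η.asHomogeneousIdeal ∧
          t0 ∉ x.asHomogeneousIdeal := by
        by_contra! H2
        apply h
        intro z hz
        classical
        rw [← DirectSum.sum_support_decompose 𝒜 z]
        exact Ideal.sum_mem _ fun c hc => H2 c _ (DirectSum.decompose 𝒜 z c).2
          (η.asHomogeneousIdeal.isHomogeneous c hz)
      have h3 := H n t0 ht0 h1 t0 ht0 h2
      have h4 : algebraMap R Q t0 ≠ 0 := fun h => h2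
        (((map_eq_zero_iff _ (FaithfulSMul.algebraMap_injective R Q)).1 h) ▸ zero_mem _)
      rw [div_self h4, mul_one, mem_frac_iff] at h3
      obtain ⟨u, hu⟩ := h3
      refine ⟨u * t, thetaK_injective Q s ?_⟩
      rw [map_mul, thetaK_algebraMap, thetaK_algebraMap, map_mul, hu]

end Fun

end ProjDomain

end

end Pool.Agent.Lib.MP_d885f5.Sch
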