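import Mathlib
import Pool.Agent.Lib.MP_d885f5.Core

/-!
The graded ring `R = ⨁ Rₙ`, `Rₙ = Jⁿ ∩ S_{7n}`, `J = (x⁶ - z⁶, y⁶ - z⁶)`, realised inside
`S = ℂ[x, y, z]`.
-/

open MvPolynomial DirectSum

namespace Pool.Agent.Lib.MP_d885f5.Sch

noncomputable section

attribute [local instance] MvPolynomial.gradedAlgebra

/-- first equation of the 36 points -/
def aa : S3 := X 0 ^ 6 - X 2 ^ 6
/-- second equation of the 36 points -/
def bb : S3 := X 1 ^ 6 - X 2 ^ 6

lemma aa_hom : aa.IsHomogeneous 6 :=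
  ((isHomogeneous_X ℂ (0 : Fin 3)).pow 6).sub ((isHomogeneous_X ℂ (2 : Fin 3)).pow 6)

lemma bb_hom : bb.IsHomogeneous 6 :=
  ((isHomogeneous_X ℂ (1 : Fin 3)).pow 6).sub ((isHomogeneous_X ℂ (2 : Fin 3)).pow 6)

/-- the span of the two equations -/
def LL : Submodule ℂ S3 := Submodule.span ℂ {aa, bb}

lemma aa_mem : aa ∈ LL := Submodule.subset_span (by simp)
lemma bb_mem : bb ∈ LL := Submodule.subset_span (by simp)

/-- degree one part -/
def M1 : Submodule ℂ S3 := homogeneousSubmodule (Fin 3) ℂ 1 * LL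

lemma M1_pow (n : ℕ) : M1 ^ n = homogeneousSubmodule (Fin 3) ℂ n * LL ^ n := by
  rw [M1, mul_pow, homogeneousSubmodule_one_pow]

lemma LL_hom : LL ≤ homogeneousSubmodule (Fin 3) ℂ 6 := by
  rw [LL, Submodule.span_le]
  rintro _ (rfl | rfl)
  · exact aa_hom
  · exact bb_hom

lemma LL_pow_hom (n : ℕ) : LL ^ n ≤ homogeneousSubmodule (Fin 3) ℂ (6 * n) := by
  induction n with
  | zero =>
    rw [pow_zero, mul_zero]
    exact Submodule.one_le.2 (isHomogeneous_one _ _)
  | succ n ih =>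
    rw [pow_succ, mul_add, mul_one]
    exact (mul_le_mul' ih LL_hom).trans (homogeneousSubmodule_mul _ _)

lemma M1_pow_hom (n : ℕ) : M1 ^ n ≤ homogeneousSubmodule (Fin 3) ℂ (7 * n) := by
  rw [M1_pow]
  refine (mul_le_mul' le_rfl (LL_pow_hom n)).trans ((homogeneousSubmodule_mul _ _).trans ?_)
  rw [show n + 6 * n = 7 * n by ring]

/-- basic membership criterion -/
lemma mem_M1_pow {n : ℕ} {s c : S3} (hs : s.IsHomogeneous n) (hc : c ∈ LL ^ n) :
    s * c ∈ M1 ^ n := by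
  rw [M1_pow]
  exact Submodule.mul_mem_mul hs hc

lemma ab_mem (i j : ℕ) : aa ^ i * bb ^ j ∈ LL ^ (i + j) := by
  rw [pow_add]
  exact Submodule.mul_mem_mul (Submodule.pow_mem_pow _ aa_mem i) (Submodule.pow_mem_pow _ bb_mem j)

/-- the ring -/
def Rx : Subalgebra ℂ S3 := Algebra.adjoin ℂ (M1 : Set S3)

lemma M1_pow_le (n : ℕ) : M1 ^ n ≤ Subalgebra.toSubmodule Rx := by
  induction n with
  | zero =>
    rw [pow_zero]
    exact Submodule.one_le.2 (one_mem Rx)
  | succ n ih =>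
    rw [pow_succ]
    refine Submodule.mul_le.2 fun x hx y hy => ?_
    exact Rx.mul_mem (ih hx) (Algebra.subset_adjoin hy)

/-- the grading -/
def gr (n : ℕ) : Submodule ℂ Rx := (M1 ^ n).comap Rx.val.toLinearMap

lemma mem_gr {n : ℕ} {r : Rx} : r ∈ gr n ↔ (r : S3) ∈ M1 ^ n := Iff.rfl

lemma map_gr (n : ℕ) : (gr n).map Rx.val.toLinearMap = M1 ^ n := by
  rw [gr, Submodule.map_comap_eq_self]
  intro x hx
  exact ⟨⟨x, M1_pow_le n hx⟩, rfl⟩

instance : SetLike.GradedMonoid gr where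
  one_mem := by
    rw [mem_gr, pow_zero]
    exact Submodule.one_le.1 le_rfl
  mul_mem i j r s hr hs := by
    rw [mem_gr, pow_add]
    exact Submodule.mul_mem_mul hr hs

lemma gr_indep : iSupIndep gr := by
  have h1 : iSupIndep (homogeneousSubmodule (Fin 3) ℂ) :=
    (Decomposition.isInternal (homogeneousSubmodule (Fin 3) ℂ)).submodule_iSupIndep
  have h2 : iSupIndep (fun n => homogeneousSubmodule (Fin 3) ℂ (7 * n)) :=
    h1.comp (fun a b h => by simpa using h)
  have h3 : iSupIndep (fun n => M1 ^ n) := h2.mono M1_pow_hom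
  rw [iSupIndep_def] at h3 ⊢
  intro i
  have h4 := h3 i
  rw [Submodule.disjoint_def] at h4 ⊢
  intro x hx hx'
  have h5 : (⨆ j, ⨆ (_ : j ≠ i), gr j) ≤ (⨆ j, ⨆ (_ : j ≠ i), M1 ^ j).comap Rx.val.toLinearMap := by
    refine iSup_le fun j => iSup_le fun hj => ?_
    exact Submodule.comap_mono (le_iSup_of_le j (le_iSup_of_le hj le_rfl))
  exact Subtype.ext (h4 _ hx (h5 hx'))

lemma gr_top : iSup gr = ⊤ := by
  rw [eq_top_iff]
  rintro x -
  have h1 : ∀ y ∈ Rx, y ∈ ⨆ n, M1 ^ n := by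
    intro y hy
    rw [Rx, ← Subalgebra.mem_toSubmodule, Algebra.adjoin_eq_span] at hy
    refine Submodule.span_le.2 ?_ hy
    intro z hz
    obtain ⟨n, hn⟩ : ∃ n, z ∈ M1 ^ n := by
      induction hz using Submonoid.closure_induction with
      | mem x hx => exact ⟨1, by rwa [pow_one]⟩
      | one => exact ⟨0, by rw [pow_zero]; exact Submodule.one_le.1 le_rfl⟩
      | mul x y _ _ hx hy =>
        obtain ⟨n, hn⟩ := hx
        obtain ⟨m, hm⟩ := hy
        exact ⟨n + m, by rw [pow_add]; exact Submodule.mul_mem_mul hn hm⟩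
    exact Submodule.mem_iSup_of_mem n hn
  have h2 := h1 x x.2
  rw [← iSup_congr map_gr, ← Submodule.map_iSup] at h2
  obtain ⟨y, hy, hyx⟩ := h2
  have : y = x := Subtype.ext hyx
  rwa [← this]

instance : Decomposition gr :=
  (isInternal_submodule_of_iSupIndep_of_iSup_eq_top gr_indep gr_top).chooseDecomposition

instance : GradedAlgebra gr where

end

end Pool.Agent.Lib.MP_d885f5.Sch
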