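import Mathlib
import Pool.Agent.Lib.MP_d885f5.Sch.Rees
import Pool.Agent.Lib.MP_d885f5.Sch.ProjDom

/-!
Points of `X = Proj R`.
-/

open MvPolynomial DirectSum AlgebraicGeometry TopologicalSpace CategoryTheory Opposite

namespace Pool.Agent.Lib.MP_d885f5.Sch

noncomputable section

attribute [local instance] MvPolynomial.gradedAlgebra

/-- the surface -/
abbrev XX : Scheme.{0} := Proj gr

/-- the field containing everything -/
abbrev QQ : Type := FractionRing S3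

instance : FaithfulSMul Rx QQ := by
  rw [faithfulSMul_iff_algebraMap_injective]
  exact (IsFractionRing.injective S3 QQ).comp Subtype.val_injective

instance : IsScalarTower ℂ Rx QQ := IsScalarTower.of_algebraMap_eq' rfl

/-- the ideal of a point -/
def xI (x : XX) : Ideal Rx := x.asHomogeneousIdeal.toIdeal

lemma xI_prime (x : XX) : (xI x).IsPrime := x.isPrime

/-- the elements of the ideal of a point as polynomials -/
def PX (x : XX) : Set S3 := {r | ∃ h : r ∈ Rx, (⟨r, h⟩ : Rx) ∈ xI x}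

lemma mem_PX' {x : XX} {r : Rx} : (r : S3) ∈ PX x ↔ r ∈ xI x :=
  ⟨fun ⟨_, h⟩ => h, fun h => ⟨r.2, h⟩⟩

lemma mem_PX {x : XX} {r : Rx} : (r : S3) ∈ PX x ↔ r ∈ x.asHomogeneousIdeal :=
  mem_PX'

lemma PX_mem_Rx {x : XX} {r : S3} (h : r ∈ PX x) : r ∈ Rx := h.1

lemma PX_mul {x : XX} {r s : S3} (hr : r ∈ PX x) (hs : s ∈ Rx) : r * s ∈ PX x := by
  obtain ⟨h1, h2⟩ := hr
  have h3 := mem_PX'.2 (Ideal.mul_mem_right ⟨s, hs⟩ (xI x) h2)
  rwa [Subalgebra.coe_mul] at h3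

lemma PX_mul' {x : XX} {r s : S3} (hr : r ∈ Rx) (hs : s ∈ PX x) : r * s ∈ PX x := by
  rw [mul_comm]
  exact PX_mul hs hr

lemma PX_add {x : XX} {r s : S3} (hr : r ∈ PX x) (hs : s ∈ PX x) : r + s ∈ PX x := by
  obtain ⟨h1, h2⟩ := hr
  obtain ⟨h3, h4⟩ := hs
  have h5 := mem_PX'.2 (Ideal.add_mem (xI x) h2 h4)
  rwa [Subalgebra.coe_add] at h5

lemma PX_sub {x : XX} {r s : S3} (hr : r ∈ PX x) (hs : s ∈ PX x) : r - s ∈ PX x := by
  obtain ⟨h1, h2⟩ := hr
  obtain ⟨h3, h4⟩ := hs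
  have h5 := mem_PX'.2 (Ideal.sub_mem (xI x) h2 h4)
  rwa [Subalgebra.coe_sub] at h5

lemma PX_prime {x : XX} {r s : S3} (hr : r ∈ Rx) (hs : s ∈ Rx) (h : r * s ∈ PX x) :
    r ∈ PX x ∨ s ∈ PX x := by
  have h1 : (⟨r, hr⟩ * ⟨s, hs⟩ : Rx) ∈ xI x := by
    rw [← mem_PX', Subalgebra.coe_mul]
    exact h
  rcases (xI_prime x).mem_or_mem h1 with h2 | h2
  · exact Or.inl ⟨hr, h2⟩
  · exact Or.inr ⟨hs, h2⟩

lemma PX_pow {x : XX} {r : S3} {n : ℕ} (hr : r ∈ Rx) (h : r ^ n ∈ PX x) : r ∈ PX x := by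
  have h1 : (⟨r, hr⟩ ^ n : Rx) ∈ xI x := by
    rw [← mem_PX', Subalgebra.coe_pow]
    exact h
  exact ⟨hr, (xI_prime x).mem_of_pow_mem n h1⟩

lemma PX_pow_mem {x : XX} {r : S3} {n : ℕ} (hn : n ≠ 0) (h : r ∈ PX x) : r ^ n ∈ PX x := by
  obtain ⟨h1, h2⟩ := h
  have h5 := mem_PX'.2 (Ideal.pow_mem_of_mem (xI x) h2 n (Nat.pos_of_ne_zero hn))
  rwa [Subalgebra.coe_pow] at h5

lemma M_le_Rx {n : ℕ} {r : S3} (h : r ∈ M1 ^ n) : r ∈ Rx := M1_pow_le n h

/-- `v c`, with `v` a variable and `c` one of the two equations -/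
lemma gen_mem (v : Fin 3) {c : S3} (hc : c ∈ LL) : X v * c ∈ M1 :=
  Submodule.mul_mem_mul (isHomogeneous_X ℂ v) hc

lemma gen_Rx (v : Fin 3) {c : S3} (hc : c ∈ LL) : X v * c ∈ Rx :=
  M_le_Rx (n := 1) (by rw [pow_one]; exact gen_mem v hc)

lemma M1_eq_span : M1 = Submodule.span ℂ (Set.range fun i : Fin 3 × Bool =>
    (X i.1 : S3) * (if i.2 then aa else bb)) := by
  rw [M1, homogeneousSubmodule_one_eq_span_X, LL, Submodule.span_mul_span]
  congr 1
  ext y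
  constructor
  · rintro ⟨_, ⟨i, rfl⟩, c, hc, rfl⟩
    rcases hc with rfl | rfl
    · exact ⟨(i, true), by simp⟩
    · exact ⟨(i, false), by simp⟩
  · rintro ⟨⟨i, b⟩, rfl⟩
    refine ⟨X i, ⟨i, rfl⟩, _, ?_, rfl⟩
    cases b <;> simp

/-- one of the six generators does not vanish at `x` -/
lemma exists_gen (x : XX) : ∃ v : Fin 3, X v * aa ∉ PX x ∨ X v * bb ∉ PX x := by
  by_contra! H
  have h1 : ∀ n, ∀ r ∈ M1 ^ (n + 1), r ∈ PX x := by
    intro n
    have h0 : ∀ r ∈ M1, r ∈ PX x := by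
      intro r hr
      rw [M1_eq_span] at hr
      induction hr using Submodule.span_induction with
      | mem y hy =>
        obtain ⟨⟨i, b⟩, rfl⟩ := hy
        cases b
        · simpa using (H i).2
        · simpa using (H i).1
      | zero => exact ⟨Rx.zero_mem, zero_mem _⟩
      | add y z _ _ hy hz => exact PX_add hy hz
      | smul c y _ hy =>
        rw [smul_eq_C_mul]
        exact PX_mul' (Rx.algebraMap_mem c) hy
    intro r hr
    rw [pow_succ] at hr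
    induction hr using Submodule.mul_induction_on' with
    | mem_mul_mem a ha b hb => exact PX_mul' (M_le_Rx ha) (h0 b hb)
    | add y _ z _ hy hz => exact PX_add hy hz
  apply x.not_irrelevant_le
  intro z hz
  rw [HomogeneousIdeal.mem_irrelevant_iff] at hz
  classical
  rw [← DirectSum.sum_support_decompose gr z]
  refine Ideal.sum_mem _ fun c hc => ?_
  by_cases hc0 : c = 0
  · subst hc0
    rw [← GradedRing.proj_apply, hz]
    exact zero_mem _
  · obtain ⟨k, rfl⟩ : ∃ k, c = k + 1 := ⟨c - 1, by omega⟩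
    exact mem_PX.1 (h1 k _ (DirectSum.decompose gr z (k + 1)).2)

end

end Pool.Agent.Lib.MP_d885f5.Sch
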