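import Mathlib
import Pool.Agent.Lib.MP_d885f5.Sch.Pts

/-!
The two open sets `U` (points over the affine plane `z ≠ 0`) and `V` (complement of the exceptional
curves), and the description of the sheaf `O(D)` by fractions.
-/

open MvPolynomial DirectSum AlgebraicGeometry TopologicalSpace CategoryTheory Opposite

namespace Pool.Agent.Lib.MP_d885f5.Sch

noncomputable section

attribute [local instance] MvPolynomial.gradedAlgebra

lemma c8_mem (v : Fin 3) {c : S3} (hc : c ∈ LL) : X v * c ^ 8 ∈ M1 ^ 7 := by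
  have h : (X v * c ^ 8 : S3) = (X v * c) * c ^ 7 := by ring
  rw [h]
  refine mem_M1_pow ?_ (Submodule.pow_mem_pow _ hc 7)
  exact (isHomogeneous_X ℂ v).mul (LL_hom hc)

lemma c8_Rx (v : Fin 3) {c : S3} (hc : c ∈ LL) : X v * c ^ 8 ∈ Rx := M_le_Rx (c8_mem v hc)

lemma cover_aux {x : XX} (ha : X 2 * aa ∈ PX x) (hb : X 2 * bb ∈ PX x)
    (H : ∀ v, X v * aa ^ 8 ∈ PX x ∧ X v * bb ^ 8 ∈ PX x) : False := by
  have key : ∀ v : Fin 3, ∀ c d : S3, c ∈ LL → d ∈ LL → (X v : S3) ^ 6 - X 2 ^ 6 = c →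
      X 2 * c ∈ PX x → X v * c ^ 8 ∈ PX x → X v * c ∈ PX x := by
    intro v c d hc hd h h1 h2
    apply PX_pow (n := 7) (gen_Rx v hc)
    have e : ((X v * c) ^ 7 : S3) = X v * c ^ 8 + (X 2 * c) ^ 6 * (X v * c) := by
      rw [← h]
      ring
    rw [e]
    exact PX_add h2 (PX_mul (PX_pow_mem (by norm_num) h1) (gen_Rx v hc))
  have xa := key 0 aa bb aa_mem bb_mem rfl ha (H 0).1
  have yb := key 1 bb aa bb_mem aa_mem rfl hb (H 1).2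
  have xb : X 0 * bb ∈ PX x := by
    apply PX_pow (n := 7) (gen_Rx 0 bb_mem)
    have e : ((X 0 * bb) ^ 7 : S3) = (X 0 * aa) * (X 1 * bb) ^ 6 - (X 2 * bb) ^ 6 * (X 0 * aa) +
        (X 2 * bb) ^ 6 * (X 0 * bb) := by
      rw [show (X 0 * bb : S3) ^ 7 = X 0 * (X 0 ^ 6) * bb ^ 7 by ring,
        show (X 0 : S3) ^ 6 = aa + X 2 ^ 6 by rw [aa]; ring,
        show (X 1 * bb : S3) ^ 6 = (bb + X 2 ^ 6) * bb ^ 6 by rw [bb]; ring]
      ring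
    rw [e]
    exact PX_add (PX_sub (PX_mul xa (Rx.pow_mem (gen_Rx 1 bb_mem) 6))
      (PX_mul' (Rx.pow_mem (gen_Rx 2 bb_mem) 6) xa))
      (PX_mul (PX_pow_mem (by norm_num) hb) (gen_Rx 0 bb_mem))
  have ya : X 1 * aa ∈ PX x := by
    apply PX_pow (n := 7) (gen_Rx 1 aa_mem)
    have e : ((X 1 * aa) ^ 7 : S3) = (X 1 * bb) * (X 0 * aa) ^ 6 - (X 2 * aa) ^ 6 * (X 1 * bb) +
        (X 2 * aa) ^ 6 * (X 1 * aa) := by
      rw [show (X 1 * aa : S3) ^ 7 = X 1 * (X 1 ^ 6) * aa ^ 7 by ring,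
        show (X 1 : S3) ^ 6 = bb + X 2 ^ 6 by rw [bb]; ring,
        show (X 0 * aa : S3) ^ 6 = (aa + X 2 ^ 6) * aa ^ 6 by rw [aa]; ring]
      ring
    rw [e]
    exact PX_add (PX_sub (PX_mul yb (Rx.pow_mem (gen_Rx 0 aa_mem) 6))
      (PX_mul' (Rx.pow_mem (gen_Rx 2 aa_mem) 6) yb))
      (PX_mul (PX_pow_mem (by norm_num) ha) (gen_Rx 1 aa_mem))
  obtain ⟨v, hv⟩ := exists_gen x
  fin_cases v
  · exact hv.elim (fun h => h xa) (fun h => h xb)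
  · exact hv.elim (fun h => h ya) (fun h => h yb)
  · exact hv.elim (fun h => h ha) (fun h => h hb)

/-- points over the affine plane -/
def UU : XX.Opens := Proj.basicOpen gr ⟨X 2 * aa, gen_Rx 2 aa_mem⟩ ⊔
  Proj.basicOpen gr ⟨X 2 * bb, gen_Rx 2 bb_mem⟩

/-- complement of the exceptional curves -/
def VV : XX.Opens := ⨆ v : Fin 3, (Proj.basicOpen gr ⟨X v * aa ^ 8, c8_Rx v aa_mem⟩ ⊔
  Proj.basicOpen gr ⟨X v * bb ^ 8, c8_Rx v bb_mem⟩)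

lemma mem_bo {r : S3} (hr : r ∈ Rx) (x : XX) :
    x ∈ Proj.basicOpen gr ⟨r, hr⟩ ↔ r ∉ PX x := by
  rw [Proj.mem_basicOpen, ← mem_PX]

lemma mem_UU (x : XX) : x ∈ UU ↔ (X 2 * aa ∉ PX x ∨ X 2 * bb ∉ PX x) := by
  rw [← mem_bo (gen_Rx 2 aa_mem), ← mem_bo (gen_Rx 2 bb_mem)]
  rfl

lemma mem_VV (x : XX) : x ∈ VV ↔ ∃ v : Fin 3, (X v * aa ^ 8 ∉ PX x ∨ X v * bb ^ 8 ∉ PX x) := by
  rw [VV, Opens.mem_iSup]
  refine exists_congr fun v => ?_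
  rw [← mem_bo (c8_Rx v aa_mem), ← mem_bo (c8_Rx v bb_mem)]
  rfl

lemma UU_sup_VV : UU ⊔ VV = ⊤ := by
  rw [eq_top_iff]
  rintro x -
  by_contra h
  have h1 : x ∉ UU := fun h' => h (Or.inl h')
  have h2 : x ∉ VV := fun h' => h (Or.inr h')
  rw [mem_UU] at h1
  rw [mem_VV] at h2
  push Not at h1 h2
  exact cover_aux h1.1 h1.2 h2

lemma inter_UV {x : XX} (hU : x ∈ UU) (hV : x ∈ VV) :
    X 2 * aa ^ 8 ∉ PX x ∨ X 2 * bb ^ 8 ∉ PX x := by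
  rw [mem_UU] at hU
  rw [mem_VV] at hV
  obtain ⟨v, hV⟩ := hV
  have key : ∀ c d : S3, c ∈ LL → d ∈ LL → X 2 * c ∉ PX x → X v * d ^ 8 ∉ PX x →
      X 2 * d ^ 8 ∉ PX x := by
    intro c d hc hd h1 h2 h3
    have e : (X v * d ^ 8) * (X 2 * c) = (X 2 * d ^ 8) * (X v * c) := by ring
    rcases PX_prime (c8_Rx v hd) (gen_Rx 2 hc) (e ▸ PX_mul h3 (gen_Rx v hc)) with h | h
    · exact h2 h
    · exact h1 h
  rcases hU with hU | hU <;> rcases hV with hV | hV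
  · exact Or.inl (key _ _ aa_mem aa_mem hU hV)
  · exact Or.inr (key _ _ aa_mem bb_mem hU hV)
  · exact Or.inl (key _ _ bb_mem aa_mem hU hV)
  · exact Or.inr (key _ _ bb_mem bb_mem hU hV)

/-- the inclusion of `S` in its field of fractions -/
abbrev ι : S3 → QQ := algebraMap S3 QQ

lemma mem_frac {x : XX} {q : QQ} : q ∈ frac QQ x ↔
    ∃ n, ∃ num ∈ M1 ^ n, ∃ den ∈ M1 ^ n, den ∉ PX x ∧ q = ι num / ι den := by
  constructor
  · rintro ⟨n, num, h1, den, h2, h3, rfl⟩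
    exact ⟨n, num, h1, den, h2, fun h => h3 (mem_PX.1 h), rfl⟩
  · rintro ⟨n, num, h1, den, h2, h3, rfl⟩
    exact ⟨n, ⟨num, M_le_Rx h1⟩, h1, ⟨den, M_le_Rx h2⟩, h2,
      fun h => h3 ((mem_PX (r := ⟨den, M_le_Rx h2⟩)).2 h), rfl⟩

lemma mem_stalkOD [IsIntegral XX] (s : XX ⟶ SpecC) {η x : XX} {f : FunField s} :
    f ∈ stalkOD s η x ↔ ∀ n, ∀ t ∈ M1 ^ n, t ∈ PX η → ∀ u ∈ M1 ^ n, u ∉ PX x →
      thetaK QQ s f * (ι t / ι u) ∈ frac QQ x := by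
  rw [mem_stalkOD_iff QQ]
  constructor
  · intro H n t ht htη u hu hux
    exact H n ⟨t, M_le_Rx ht⟩ ht ((mem_PX (r := ⟨t, M_le_Rx ht⟩)).1 htη) ⟨u, M_le_Rx hu⟩ hu
      (fun h => hux ((mem_PX (r := ⟨u, M_le_Rx hu⟩)).2 h))
  · intro H n t ht htη u hu hux
    exact H n t ht (mem_PX.2 htη) u hu (fun h => hux (mem_PX.1 h))

instance : IsIntegral XX := by
  refine isIntegral_proj (n := 1) one_pos (r := ⟨X 2 * aa, gen_Rx 2 aa_mem⟩) ?_ ?_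
  · rw [mem_gr, pow_one]
    exact gen_mem 2 aa_mem
  · intro h
    have h1 : (X 2 * aa : S3) = 0 := congrArg Subtype.val h
    have h2 := congrArg (eval ![1, 0, 1/2]) h1
    simp [aa] at h2
    norm_num at h2

end

end Pool.Agent.Lib.MP_d885f5.Sch
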