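import Mathlib
import Pool.Agent.Lib.MP_d885f5.Core

/-!
The substitution `X_i ↦ T X_i`, homogeneity of divisors.
-/

open MvPolynomial

namespace Pool.Agent.Lib.MP_d885f5.Sch

noncomputable section

variable {σ : Type}

/-- `g(x) ↦ g(T x)` -/
def oo : MvPolynomial σ ℂ →ₐ[ℂ] Polynomial (MvPolynomial σ ℂ) :=
  aeval fun i => Polynomial.X * Polynomial.C (X i)

lemma oo_monomial (e : σ →₀ ℕ) (r : ℂ) :
    oo (monomial e r) = Polynomial.monomial e.degree (monomial e r) := by
  rw [oo, aeval_monomial]
  simp only [mul_pow]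
  rw [Finsupp.prod_mul, ← Polynomial.C_mul_X_pow_eq_monomial, monomial_eq (s := e) (a := r),
    map_mul, Finsupp.degree_apply, map_finsuppProd]
  simp only [map_pow]
  rw [Finsupp.prod, Finset.prod_pow_eq_pow_sum]
  have : (algebraMap ℂ (Polynomial (MvPolynomial σ ℂ))) r = Polynomial.C (C r) := rfl
  rw [this]
  ring

lemma coeff_oo (g : MvPolynomial σ ℂ) (n : ℕ) : (oo g).coeff n = homogeneousComponent n g := by
  classical
  induction g using MvPolynomial.induction_on' with
  | monomial e r =>
    rw [oo_monomial, Polynomial.coeff_monomial,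
      homogeneousComponent_of_mem (isHomogeneous_monomial r rfl)]
    simp only [eq_comm]
  | add p q hp hq => rw [map_add, Polynomial.coeff_add, hp, hq, map_add]

lemma oo_eval_one (g : MvPolynomial σ ℂ) : (oo g).eval 1 = g := by
  have : (Polynomial.evalRingHom (1 : MvPolynomial σ ℂ)).comp
      (oo (σ := σ)).toRingHom =
      RingHom.id (MvPolynomial σ ℂ) := by
    apply MvPolynomial.ringHom_ext
    · intro r
      have h1 : oo (C r : MvPolynomial σ ℂ) = Polynomial.C (C r) := by
        rw [oo, algHom_C]
        rfl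
      change (Polynomial.evalRingHom (1 : MvPolynomial σ ℂ)) (oo (C r)) = _
      rw [h1]
      simp
    · intro i
      change (Polynomial.evalRingHom (1 : MvPolynomial σ ℂ)) (oo (X i)) = _
      rw [oo, aeval_X]
      simp
  exact DFunLike.congr_fun this g

lemma oo_ne_zero {g : MvPolynomial σ ℂ} (h : g ≠ 0) : oo g ≠ 0 := by
  intro h0
  apply h
  rw [← oo_eval_one g, h0, Polynomial.eval_zero]

lemma oo_homog {g : MvPolynomial σ ℂ} {d : ℕ} (h : g.IsHomogeneous d) :
    oo g = Polynomial.monomial d g := by
  classical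
  ext1 n
  rw [coeff_oo, homogeneousComponent_of_mem h, Polynomial.coeff_monomial]
  simp only [eq_comm]


/-- divisors of monomials in `D[T]` -/
lemma monomial_of_mul {D : Type} [CommRing D] [IsDomain D] {P Q : Polynomial D} {d : ℕ} {c : D}
    (hc : c ≠ 0) (h : P * Q = Polynomial.monomial d c) : ∀ n, n ≠ P.natDegree → P.coeff n = 0 := by
  have h0 : P * Q ≠ 0 := by
    rw [h]
    simpa using hc
  have hP : P ≠ 0 := left_ne_zero_of_mul h0
  have hQ : Q ≠ 0 := right_ne_zero_of_mul h0
  have h2 : P.natDegree + Q.natDegree = d := by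
    rw [← Polynomial.natDegree_mul hP hQ, h, Polynomial.natDegree_monomial_eq _ hc]
  have h3 : P.natTrailingDegree + Q.natTrailingDegree = d := by
    rw [← Polynomial.natTrailingDegree_mul hP hQ, h, Polynomial.natTrailingDegree_monomial hc]
  have h4 := Polynomial.natTrailingDegree_le_natDegree P
  have h5 := Polynomial.natTrailingDegree_le_natDegree Q
  intro n hn
  rcases lt_or_gt_of_ne hn with h6 | h6
  · apply Polynomial.coeff_eq_zero_of_lt_natTrailingDegree
    omega
  · exact Polynomial.coeff_eq_zero_of_natDegree_lt h6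

/-- divisors of forms are forms -/
lemma homog_of_dvd {A F : MvPolynomial σ ℂ} {d : ℕ} (hF : F.IsHomogeneous d) (hF0 : F ≠ 0)
    (h : A ∣ F) : ∃ k, A.IsHomogeneous k := by
  obtain ⟨B, hB⟩ := h
  have h1 : oo A * oo B = Polynomial.monomial d F := by
    rw [← map_mul, ← oo_homog hF, hB]
  have h2 := monomial_of_mul hF0 h1
  refine ⟨(oo A).natDegree, ?_⟩
  have h6 : A = homogeneousComponent (oo A).natDegree A := by
    ext e
    rw [coeff_homogeneousComponent]
    split_ifs with h
    · rfl
    · have h7 := h2 _ h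
      rw [coeff_oo] at h7
      have h8 := congrArg (coeff e) h7
      rwa [coeff_homogeneousComponent, if_pos rfl, coeff_zero] at h8
  have h9 := homogeneousComponent_isHomogeneous (oo A).natDegree A
  rwa [← h6] at h9

end

end Pool.Agent.Lib.MP_d885f5.Sch
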