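import Mathlib
import Pool.Agent.Lib.MP_d885f5.Sch.Cov
import Pool.Agent.Lib.MP_d885f5.Sch.Hom

/-!
The point of `X` given by an irreducible form.
-/

open MvPolynomial DirectSum AlgebraicGeometry TopologicalSpace CategoryTheory Opposite

namespace Pool.Agent.Lib.MP_d885f5.Sch

noncomputable section

attribute [local instance] MvPolynomial.gradedAlgebra

lemma coe_decompose (r : Rx) (n : ℕ) :
    ((decompose gr r n : Rx) : S3) = homogeneousComponent (7 * n) (r : S3) := by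
  classical
  induction r using Decomposition.inductionOn gr with
  | zero => simp
  | homogeneous m =>
    rename_i i
    have h0 : ((m : Rx) : S3) ∈ homogeneousSubmodule (Fin 3) ℂ (7 * i) := M1_pow_hom i m.2
    rw [homogeneousComponent_of_mem h0]
    by_cases h : i = n
    · subst h
      rw [decompose_of_mem_same gr m.2, if_pos rfl]
    · rw [decompose_of_mem_ne gr m.2 h, if_neg (by omega)]
      rfl
  | add m m' h1 h2 =>
    rw [decompose_add, DirectSum.add_apply, Submodule.coe_add, Subalgebra.coe_add, h1, h2,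
      Subalgebra.coe_add, map_add]

/-- the point given by a prime of `S` generated by a form `p` -/
def ptP (p : S3) {k : ℕ} (hp : p.IsHomogeneous k) (hp' : Prime p) {g : S3} (hg : g ∈ M1)
    (hpg : ¬ p ∣ g) : XX :=
  (⟨⟨(Ideal.span {p}).comap Rx.val, by
      intro n r hr
      have hr' : (r : S3) ∈ Ideal.span {p} := hr
      change ((decompose gr r n : Rx) : S3) ∈ Ideal.span {p}
      rw [coe_decompose]
      refine homogeneousComponent_mem_of_mem ?_ hr' _
      apply Ideal.homogeneous_span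
      rintro _ rfl
      exact ⟨k, hp⟩⟩,
    by
      have : (Ideal.span {p}).IsPrime := (Ideal.span_singleton_prime hp'.ne_zero).2 hp'
      exact Ideal.comap_isPrime _ _,
    by
      intro h
      have h1 : (⟨g, M_le_Rx (n := 1) (by rwa [pow_one])⟩ : Rx) ∈ HomogeneousIdeal.irrelevant gr := by
        rw [HomogeneousIdeal.mem_irrelevant_iff, GradedRing.proj_apply,
          decompose_of_mem_ne gr (i := 1) (j := 0) ?_ one_ne_zero]
        change g ∈ M1 ^ 1
        rw [pow_one]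
        exact hg
      have h2 : g ∈ Ideal.span {p} := h h1
      exact hpg (Ideal.mem_span_singleton.1 h2)⟩ : ProjectiveSpectrum gr)

lemma mem_PX_ptP {p : S3} {k : ℕ} {hp : p.IsHomogeneous k} {hp' : Prime p} {g : S3} {hg : g ∈ M1}
    {hpg : ¬ p ∣ g} {r : S3} : r ∈ PX (ptP p hp hp' hg hpg) ↔ r ∈ Rx ∧ p ∣ r := by
  constructor
  · rintro ⟨h1, h2⟩
    exact ⟨h1, Ideal.mem_span_singleton.1 h2⟩
  · rintro ⟨h1, h2⟩
    exact ⟨h1, Ideal.mem_span_singleton.2 h2⟩

lemma X_prime {σ : Type} (i : σ) : Prime (X i : MvPolynomial σ ℂ) := by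
  refine ⟨X_ne_zero i, ?_, fun a b h => X_dvd_mul_iff.1 h⟩
  intro h
  have h1 := h.map (eval (0 : σ → ℂ))
  rw [eval_X] at h1
  simp at h1

lemma exists_var {p : S3} (hp : Irreducible p) : ∃ v : Fin 3, ¬ p ∣ X v := by
  by_contra! H
  have h2 := (hp.dvd_irreducible_iff_associated (X_prime (0 : Fin 3)).irreducible).1 (H 0)
  have h3 := X_dvd_X.1 (h2.symm.dvd.trans (H 1))
  simp at h3

lemma not_dvd_both {p : S3} {k : ℕ} (hk : p.IsHomogeneous k) (hp : Irreducible p) :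
    ¬ p ∣ aa ∨ ¬ p ∣ bb := by
  by_contra! H
  obtain ⟨ev0, hev⟩ : ∃ e : S3 →ₐ[ℂ] A2, e = aeval ![X 0, X 1, 0] := ⟨_, rfl⟩
  have e0 : ev0 (X 0) = X 0 := by rw [hev, aeval_X]; rfl
  have e1 : ev0 (X 1) = X 1 := by rw [hev, aeval_X]; rfl
  have e2 : ev0 (X 2) = 0 := by rw [hev, aeval_X]; rfl
  have ha : ev0 p ∣ X 0 ^ 6 := by
    have := map_dvd ev0 H.1
    rwa [aa, map_sub, map_pow, map_pow, e0, e2, zero_pow (by norm_num), sub_zero] at this
  have hb : ev0 p ∣ X 1 ^ 6 := by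
    have := map_dvd ev0 H.2
    rwa [bb, map_sub, map_pow, map_pow, e1, e2, zero_pow (by norm_num), sub_zero] at this
  have hu : IsUnit (ev0 p) := by
    obtain ⟨i, hi, h1⟩ := (dvd_prime_pow (X_prime (0 : Fin 2)) 6).1 ha
    rcases Nat.eq_zero_or_pos i with rfl | hi0
    · rw [pow_zero] at h1
      exact h1.symm.isUnit isUnit_one
    · exfalso
      have h2 : (X 0 : A2) ∣ X 1 ^ 6 :=
        ((dvd_pow_self (X 0) hi0.ne').trans h1.symm.dvd).trans hb
      have h3 := X_dvd_X.1 ((X_prime (0 : Fin 2)).dvd_of_dvd_pow h2)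
      simp at h3
  have hk0 : k ≠ 0 := by
    rintro rfl
    apply hp.not_isUnit
    have h1 : p.totalDegree = 0 := (totalDegree_zero_iff_isHomogeneous _).2 hk
    rw [isUnit_iff_totalDegree_of_isReduced]
    refine ⟨?_, h1⟩
    rw [isUnit_iff_ne_zero]
    intro h2
    apply hp.ne_zero
    rw [totalDegree_eq_zero_iff_eq_C.1 h1, h2, C_0]
  have hh : (ev0 p).IsHomogeneous (1 * k) := by
    rw [hev]
    refine hk.aeval _ ?_
    intro i
    fin_cases i
    · exact isHomogeneous_X _ _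
    · exact isHomogeneous_X _ _
    · exact isHomogeneous_zero _ _ _
  rw [isUnit_iff_totalDegree_of_isReduced, hh.coeff_eq_zero] at hu
  · simp at hu
  · rw [map_zero]
    omega

lemma exists_vc {p : S3} {k : ℕ} (hk : p.IsHomogeneous k) (hp : Irreducible p) :
    ∃ (v : Fin 3) (c : S3), c ∈ LL ∧ (c = aa ∨ c = bb) ∧ ¬ p ∣ X v ∧ ¬ p ∣ c := by
  obtain ⟨v, hv⟩ := exists_var hp
  rcases not_dvd_both hk hp with h | h
  · exact ⟨v, aa, aa_mem, Or.inl rfl, hv, h⟩
  · exact ⟨v, bb, bb_mem, Or.inr rfl, hv, h⟩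

lemma exists_g {p : S3} {k : ℕ} (hk : p.IsHomogeneous k) (hp : Irreducible p) :
    ∃ g ∈ M1, ¬ p ∣ g := by
  obtain ⟨v, c, h1, -, h3, h4⟩ := exists_vc hk hp
  refine ⟨X v * c, gen_mem v h1, fun h => ?_⟩
  rcases hp.prime.dvd_or_dvd h with h | h
  · exact h3 h
  · exact h4 h

/-- the point given by an irreducible form -/
def PP (p : S3) {k : ℕ} (hk : p.IsHomogeneous k) (hp : Irreducible p) : XX :=
  ptP p hk hp.prime (exists_g hk hp).choose_spec.1 (exists_g hk hp).choose_spec.2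

lemma mem_PP {p : S3} {k : ℕ} {hk : p.IsHomogeneous k} {hp : Irreducible p} {r : S3} :
    r ∈ PX (PP p hk hp) ↔ r ∈ Rx ∧ p ∣ r := mem_PX_ptP

lemma PP_mem_VV {p : S3} {k : ℕ} (hk : p.IsHomogeneous k) (hp : Irreducible p) :
    PP p hk hp ∈ VV := by
  rw [mem_VV]
  obtain ⟨v, c, h1, h2, h3, h4⟩ := exists_vc hk hp
  refine ⟨v, ?_⟩
  have h5 : X v * c ^ 8 ∉ PX (PP p hk hp) := by
    rw [mem_PP]
    rintro ⟨-, h⟩
    rcases hp.prime.dvd_or_dvd h with h | h
    · exact h3 h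
    · exact h4 (hp.prime.dvd_of_dvd_pow h)
  rcases h2 with rfl | rfl
  · exact Or.inl h5
  · exact Or.inr h5

lemma PP_mem_UU {p : S3} {k : ℕ} (hk : p.IsHomogeneous k) (hp : Irreducible p)
    (hz : ¬ p ∣ X 2) : PP p hk hp ∈ UU := by
  rw [mem_UU]
  obtain ⟨v, c, h1, h2, h3, h4⟩ := exists_vc hk hp
  have h5 : X 2 * c ∉ PX (PP p hk hp) := by
    rw [mem_PP]
    rintro ⟨-, h⟩
    rcases hp.prime.dvd_or_dvd h with h | h
    · exact hz h
    · exact h4 h
  rcases h2 with rfl | rfl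
  · exact Or.inl h5
  · exact Or.inr h5

lemma ι_inj {a b : S3} : ι a = ι b ↔ a = b := (IsFractionRing.injective S3 QQ).eq_iff

lemma ι_ne {a : S3} (h : a ≠ 0) : ι a ≠ 0 := by
  rw [← map_zero (algebraMap S3 QQ)]
  exact fun h' => h (ι_inj.1 h')

lemma no_pole {s : XX ⟶ SpecC} {F : S3} {e : ℕ} (hF : F.IsHomogeneous e) (hFi : Irreducible F)
    {p : S3} {k : ℕ} (hk : p.IsHomogeneous k) (hp : Irreducible p) {f : FunField s}
    (hf : f ∈ stalkOD s (PP F hF hFi) (PP p hk hp)) {g h : S3} (hh : h ≠ 0)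
    (hgh : IsRelPrime g h) (hW : thetaK QQ s f * ι F = ι g / ι h) : ¬ p ∣ h := by
  intro hph
  obtain ⟨v, c, h1, h2, h3, h4⟩ := exists_vc hk hp
  have hc0 : c ≠ 0 := by
    rintro rfl
    exact h4 (dvd_zero _)
  have hv0 : (X v : S3) ≠ 0 := X_ne_zero v
  rw [mem_stalkOD] at hf
  have ht : F * c ^ e ∈ M1 ^ e := mem_M1_pow hF (Submodule.pow_mem_pow _ h1 e)
  have ht' : F * c ^ e ∈ PX (PP F hF hFi) := mem_PP.2 ⟨M_le_Rx ht, dvd_mul_right _ _⟩
  have hu : X v ^ e * c ^ e ∈ M1 ^ e := by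
    rw [← mul_pow]
    exact Submodule.pow_mem_pow _ (gen_mem v h1) e
  have hu' : X v ^ e * c ^ e ∉ PX (PP p hk hp) := by
    rw [mem_PP]
    rintro ⟨-, h⟩
    rcases hp.prime.dvd_or_dvd h with h | h
    · exact h3 (hp.prime.dvd_of_dvd_pow h)
    · exact h4 (hp.prime.dvd_of_dvd_pow h)
  have h5 := hf e _ ht ht' _ hu hu'
  rw [mem_frac] at h5
  obtain ⟨n, num, hnum, den, hden, hd, h6⟩ := h5
  have hd0 : den ≠ 0 := by
    rintro rfl
    exact hd (mem_PP.2 ⟨Rx.zero_mem, dvd_zero _⟩)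
  have e1 : ι g * ι den = ι num * (ι h * ι (X v) ^ e) := by
    have hh' := ι_ne hh
    have hd' := ι_ne hd0
    have hv' := ι_ne hv0
    have hc' := ι_ne hc0
    have e2 : ι (F * c ^ e) = ι F * ι c ^ e := by rw [ι, map_mul, map_pow]
    have e3 : ι (X v ^ e * c ^ e) = ι (X v) ^ e * ι c ^ e := by rw [ι, map_mul, map_pow, map_pow]
    rw [e2, e3] at h6
    have e4 : thetaK QQ s f * (ι F * ι c ^ e / (ι (X v) ^ e * ι c ^ e)) =
        ι g / ι h / ι (X v) ^ e := by
      rw [← hW]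
      field_simp
    rw [e4] at h6
    field_simp at h6
    linear_combination h6
  have e2 : g * den = num * (h * X v ^ e) := by
    apply ι_inj.1
    rw [ι, map_mul, map_mul, map_mul, map_pow]
    exact e1
  have h7 : p ∣ g * den := by
    rw [e2]
    exact (hph.mul_right _).mul_left _
  rcases hp.prime.dvd_or_dvd h7 with h8 | h8
  · exact hp.not_isUnit (hgh h8 hph)
  · exact hd (mem_PP.2 ⟨M_le_Rx hden, h8⟩)

end

end Pool.Agent.Lib.MP_d885f5.Sch
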