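import Mathlib
import Pool.Agent.Lib.MP_d885f5.Sch.Div

/-!
Sections of `O(D)` over `U` and `V`.
-/

open MvPolynomial DirectSum AlgebraicGeometry TopologicalSpace CategoryTheory Opposite

namespace Pool.Agent.Lib.MP_d885f5.Sch

noncomputable section

attribute [local instance] MvPolynomial.gradedAlgebra

lemma exists_rep (s : XX ⟶ SpecC) (F : S3) (f : FunField s) :
    ∃ (g h n1 n2 : S3) (k : ℕ), h ≠ 0 ∧ IsRelPrime g h ∧ thetaK QQ s f * ι F = ι g / ι h ∧
      n1.IsHomogeneous k ∧ n2.IsHomogeneous k ∧ n2 ≠ 0 ∧ n1 * F * h = g * n2 := by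
  obtain ⟨k, num, den, h1, h2, h3, h4⟩ := exists_frac QQ (genericPoint XX) f
  obtain ⟨g, h, hgh, e⟩ := IsFractionRing.exists_reduced_fraction (A := S3) (K := QQ)
    (thetaK QQ s f * ι F)
  have hh0 : (h : S3) ≠ 0 := nonZeroDivisors.coe_ne_zero h
  have hd0 : (den : S3) ≠ 0 := by
    intro h0
    apply h3
    rw [show den = 0 from Subtype.ext h0]
    exact zero_mem _
  rw [IsFractionRing.mk'_eq_div] at e
  refine ⟨g, h, num, den, 7 * k, hh0, hgh, e.symm, M1_pow_hom k h1, M1_pow_hom k h2, hd0, ?_⟩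
  have h5 : thetaK QQ s f = ι num / ι den := h4
  rw [h5] at e
  have hh' := ι_ne hh0
  have hd' := ι_ne hd0
  apply ι_inj.1
  rw [ι, map_mul, map_mul, map_mul]
  change ι g / ι h = ι num / ι den * ι F at e
  field_simp at e
  linear_combination -e

lemma dvd_n2 {g h n1 n2 F : S3} (hgh : IsRelPrime g h) (e : n1 * F * h = g * n2) : h ∣ n2 :=
  hgh.symm.dvd_of_dvd_mul_left ⟨n1 * F, by rw [← e]; ring⟩

lemma homog_of_mul {G n2 A : S3} {e k : ℕ} (hA : A.IsHomogeneous (k + e)) (hn : n2.IsHomogeneous k)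
    (hn0 : n2 ≠ 0) (h : G * n2 = A) : G.IsHomogeneous e := by
  by_cases hG : G = 0
  · rw [hG]
    exact isHomogeneous_zero _ _ _
  have hA0 : A ≠ 0 := by
    rw [← h]
    exact mul_ne_zero hG hn0
  obtain ⟨j, hj⟩ := homog_of_dvd hA hA0 ⟨n2, h.symm⟩
  have h1 : A.IsHomogeneous (j + k) := by
    rw [← h]
    exact hj.mul hn
  have h2 := h1.inj_right hA hA0
  have h3 : j = e := by omega
  rwa [← h3]

lemma sec_V {s : XX ⟶ SpecC} {F : S3} {e : ℕ} (hF : F.IsHomogeneous e) (hFi : Irreducible F)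
    {f : FunField s} (hf : ∀ x ∈ VV, f ∈ stalkOD s (PP F hF hFi) x) :
    ∃ G : S3, G.IsHomogeneous e ∧ thetaK QQ s f * ι F = ι G := by
  obtain ⟨g, h, n1, n2, k, hh, hgh, hW, h1, h2, h3, h4⟩ := exists_rep s F f
  have hu : IsUnit h := by
    by_contra hu
    obtain ⟨p, hp, hph⟩ := WfDvdMonoid.exists_irreducible_factor hu hh
    obtain ⟨j, hj⟩ := homog_of_dvd h2 h3 (hph.trans (dvd_n2 hgh h4))
    exact no_pole hF hFi hj hp (hf _ (PP_mem_VV hj hp)) hh hgh hW hph
  obtain ⟨h', hh'⟩ := hu.exists_right_inv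
  refine ⟨g * h', ?_, ?_⟩
  · refine homog_of_mul (n2 := n2) (A := n1 * F) (k := k) (h1.mul hF) h2 h3 ?_
    linear_combination n1 * F * hh' - h' * h4
  · have := ι_ne hh
    have e1 : ι h * ι h' = 1 := by
      rw [ι, ← map_mul, hh', map_one]
    rw [hW, ι, map_mul, div_eq_iff this]
    linear_combination -(ι g) * e1

lemma sec_U {s : XX ⟶ SpecC} {F : S3} {e : ℕ} (hF : F.IsHomogeneous e) (hFi : Irreducible F)
    {f : FunField s} (hf : ∀ x ∈ UU, f ∈ stalkOD s (PP F hF hFi) x) :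
    ∃ (m : ℕ) (G : S3), G.IsHomogeneous (e + m) ∧
      thetaK QQ s f * ι F * ι (X 2) ^ m = ι G := by
  obtain ⟨g, h, n1, n2, k, hh, hgh, hW, h1, h2, h3, h4⟩ := exists_rep s F f
  have hfin : FiniteMultiplicity (X 2 : S3) h :=
    FiniteMultiplicity.of_prime_left (X_prime (2 : Fin 3)) hh
  obtain ⟨c, hc, hc'⟩ := hfin.exists_eq_pow_mul_and_not_dvd
  obtain ⟨m, hm⟩ : ∃ m, m = multiplicity (X 2 : S3) h := ⟨_, rfl⟩
  rw [← hm] at hc
  have hc0 : c ≠ 0 := by
    rintro rfl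
    exact hc' (dvd_zero _)
  have hch : c ∣ h := by
    rw [hc]
    exact dvd_mul_left _ _
  have hu : IsUnit c := by
    by_contra hu
    obtain ⟨p, hp, hph⟩ := WfDvdMonoid.exists_irreducible_factor hu hc0
    obtain ⟨j, hj⟩ := homog_of_dvd h2 h3 ((hph.trans hch).trans (dvd_n2 hgh h4))
    have hpz : ¬ p ∣ X 2 := by
      intro hpz
      exact hc' (((hp.dvd_irreducible_iff_associated (X_prime (2 : Fin 3)).irreducible).1
        hpz).symm.dvd.trans hph)
    exact no_pole hF hFi hj hp (hf _ (PP_mem_UU hj hp hpz)) hh hgh hW (hph.trans hch)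
  obtain ⟨h', hh'⟩ := hu.exists_right_inv
  refine ⟨m, g * h', ?_, ?_⟩
  · refine homog_of_mul (n2 := n2) (A := n1 * F * X 2 ^ m) (k := k) ?_ h2 h3 ?_
    · rw [← add_assoc]
      exact (h1.mul hF).mul (isHomogeneous_X_pow _ _)
    · rw [hc] at h4
      linear_combination n1 * F * X 2 ^ m * hh' - h' * h4
  · have := ι_ne hh
    have e1 : ι c * ι h' = 1 := by
      rw [ι, ← map_mul, hh', map_one]
    have e2 : ι h = ι (X 2) ^ m * ι c := by
      rw [hc, ι, map_mul, map_pow]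
    rw [hW, ι, map_mul]
    rw [div_mul_eq_mul_div, div_eq_iff this]
    change _ = ι g * ι h' * ι h
    rw [e2]
    linear_combination -(ι g) * (ι (X 2)) ^ m * e1

end

end Pool.Agent.Lib.MP_d885f5.Sch
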