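import Mathlib
import Pool.Agent.Lib.MP_d885f5.Sch.Sec

/-!
The generic point of the exceptional curve over `q`.
-/

open MvPolynomial DirectSum AlgebraicGeometry TopologicalSpace CategoryTheory Opposite

namespace Pool.Agent.Lib.MP_d885f5.Sch

noncomputable section

attribute [local instance] MvPolynomial.gradedAlgebra

/-- `G ↦ G(q + T (u, v), 1)` -/
def Phi (q : Fin 2 → ℂ) : S3 →ₐ[ℂ] Polynomial A2 := ((oo (σ := Fin 2)).comp (tr q)).comp dh

lemma Phi_apply (q : Fin 2 → ℂ) (G : S3) : Phi q G = oo (tr q (dh G)) := rfl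

lemma phi_dvd_iff (q : Fin 2 → ℂ) (G : S3) (m : ℕ) :
    Polynomial.X ^ m ∣ Phi q G ↔ dh G ∈ ptIdeal q ^ m := by
  rw [tr_mem, ptIdeal_zero, mem_pow_idealOfVars_iff', Polynomial.X_pow_dvd_iff]
  simp only [Phi_apply, coeff_oo]
  constructor
  · intro h e he
    have h1 := congrArg (coeff e) (h _ he)
    rwa [coeff_homogeneousComponent, if_pos rfl, coeff_zero] at h1
  · intro h d hd
    ext e
    rw [coeff_homogeneousComponent, coeff_zero]
    split_ifs with h1
    · exact h e (h1 ▸ hd)
    · rfl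

/-- `q` is one of the 36 points -/
def Is36 (q : Fin 2 → ℂ) : Prop := q 0 ^ 6 = 1 ∧ q 1 ^ 6 = 1

lemma dvd_aa {q : Fin 2 → ℂ} (hq : Is36 q) : Polynomial.X ∣ Phi q aa := by
  rw [← pow_one Polynomial.X, phi_dvd_iff, pow_one, mem_ptIdeal, dh, aa]
  simp [hq.1]

lemma dvd_bb {q : Fin 2 → ℂ} (hq : Is36 q) : Polynomial.X ∣ Phi q bb := by
  rw [← pow_one Polynomial.X, phi_dvd_iff, pow_one, mem_ptIdeal, dh, bb]
  simp [hq.2]

lemma dvd_LL {q : Fin 2 → ℂ} (hq : Is36 q) {c : S3} (hc : c ∈ LL) : Polynomial.X ∣ Phi q c := by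
  rw [LL] at hc
  induction hc using Submodule.span_induction with
  | mem y hy =>
    rcases hy with rfl | rfl
    · exact dvd_aa hq
    · exact dvd_bb hq
  | zero => rw [map_zero]; exact dvd_zero _
  | add y z _ _ hy hz => rw [map_add]; exact dvd_add hy hz
  | smul a y _ hy =>
    rw [smul_eq_C_mul, map_mul]
    exact dvd_mul_of_dvd_right hy _

lemma dvd_LL_pow {q : Fin 2 → ℂ} (hq : Is36 q) {n : ℕ} {c : S3} (hc : c ∈ LL ^ n) :
    Polynomial.X ^ n ∣ Phi q c := by
  induction n generalizing c with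
  | zero => rw [pow_zero]; exact one_dvd _
  | succ n ih =>
    rw [pow_succ] at hc
    induction hc using Submodule.mul_induction_on' with
    | mem_mul_mem a ha b hb =>
      rw [map_mul, pow_succ]
      exact mul_dvd_mul (ih ha) (dvd_LL hq hb)
    | add y _ z _ hy hz => rw [map_add]; exact dvd_add hy hz

lemma dvd_M {q : Fin 2 → ℂ} (hq : Is36 q) {n : ℕ} {c : S3} (hc : c ∈ M1 ^ n) :
    Polynomial.X ^ n ∣ Phi q c := by
  rw [M1_pow] at hc
  induction hc using Submodule.mul_induction_on' with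
  | mem_mul_mem a ha b hb =>
    rw [map_mul]
    exact dvd_mul_of_dvd_right (dvd_LL_pow hq hb) _
  | add y _ z _ hy hz => rw [map_add]; exact dvd_add hy hz

/-- leading term at `q` -/
def lead (q : Fin 2 → ℂ) (n : ℕ) : gr n →ₗ[ℂ] Polynomial A2 where
  toFun r := Polynomial.monomial n ((Phi q ((r : Rx) : S3)).coeff n)
  map_add' r s := by
    simp only [Submodule.coe_add, Subalgebra.coe_add, map_add, Polynomial.coeff_add]
  map_smul' c r := by
    simp only [Submodule.coe_smul, Subalgebra.coe_smul, map_smul, RingHom.id_apply]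
    rw [Polynomial.coeff_smul, Polynomial.smul_monomial]

lemma lead_mul {q : Fin 2 → ℂ} (hq : Is36 q) {i j : ℕ} (a : gr i) (b : gr j) :
    lead q (i + j) (GradedMonoid.GMul.mul (A := fun n => gr n) a b) =
      lead q i a * lead q j b := by
  change Polynomial.monomial (i + j) ((Phi q (((a : Rx) : S3) * ((b : Rx) : S3))).coeff (i + j)) =
    Polynomial.monomial i ((Phi q ((a : Rx) : S3)).coeff i) *
      Polynomial.monomial j ((Phi q ((b : Rx) : S3)).coeff j)
  obtain ⟨A, hA⟩ := dvd_M hq a.2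
  obtain ⟨B, hB⟩ := dvd_M hq b.2
  have hA' : Phi q ((a : Rx) : S3) = Polynomial.X ^ i * A := hA
  have hB' : Phi q ((b : Rx) : S3) = Polynomial.X ^ j * B := hB
  rw [map_mul, hA', hB', Polynomial.monomial_mul_monomial]
  congr 1
  have e1 : (Polynomial.X ^ i * A * (Polynomial.X ^ j * B)) = Polynomial.X ^ (i + j) * (A * B) := by
    rw [pow_add]; ring
  rw [e1, Polynomial.coeff_X_pow_mul', Polynomial.coeff_X_pow_mul', Polynomial.coeff_X_pow_mul',
    if_pos le_rfl, if_pos le_rfl, if_pos le_rfl, Nat.sub_self, Nat.sub_self, Nat.sub_self,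
    Polynomial.mul_coeff_zero]

lemma lead_one (q : Fin 2 → ℂ) :
    lead q 0 (GradedMonoid.GOne.one (A := fun n => gr n)) = 1 := by
  change Polynomial.monomial 0 ((Phi q 1).coeff 0) = 1
  rw [map_one]
  simp

/-- leading term at `q` as a ring homomorphism -/
def kap {q : Fin 2 → ℂ} (hq : Is36 q) : Rx →ₐ[ℂ] Polynomial A2 :=
  (DirectSum.toAlgebra ℂ (fun n => gr n) (lead q) (lead_one q) (lead_mul hq)).comp
    (decomposeAlgEquiv gr).toAlgHom

lemma kap_of_mem {q : Fin 2 → ℂ} (hq : Is36 q) {n : ℕ} {r : Rx} (hr : r ∈ gr n) :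
    kap hq r = Polynomial.monomial n ((Phi q (r : S3)).coeff n) := by
  change DirectSum.toAlgebra ℂ (fun n => gr n) (lead q) (lead_one q) (lead_mul hq)
    (decompose gr r) = _
  rw [decompose_of_mem gr hr]
  exact DirectSum.toSemiring_of (A := fun n => gr n) (fun i => (lead q i).toAddMonoidHom)
    (lead_one q) (lead_mul hq) n ⟨r, hr⟩

lemma coeff_kap {q : Fin 2 → ℂ} (hq : Is36 q) (r : Rx) (n : ℕ) :
    (kap hq r).coeff n = (Phi q ((decompose gr r n : Rx) : S3)).coeff n := by
  classical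
  induction r using Decomposition.inductionOn gr with
  | zero => simp
  | homogeneous m =>
    rename_i i
    rw [kap_of_mem hq m.2, Polynomial.coeff_monomial]
    by_cases h : i = n
    · subst h
      rw [decompose_of_mem_same gr m.2, if_pos rfl]
    · rw [decompose_of_mem_ne gr m.2 h, if_neg h]
      simp
  | add m m' h1 h2 =>
    rw [map_add, Polynomial.coeff_add, h1, h2, decompose_add, DirectSum.add_apply,
      Submodule.coe_add, Subalgebra.coe_add, map_add, Polynomial.coeff_add]

lemma coeff_one_aa {q : Fin 2 → ℂ} (hq : Is36 q) :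
    (Phi q aa).coeff 1 ≠ 0 := by
  have hq0 : q 0 ≠ 0 := by
    intro h
    have := hq.1
    rw [h] at this
    norm_num at this
  have e : Phi q aa = (Polynomial.X * Polynomial.C (X 0) + Polynomial.C (C (q 0))) ^ 6 - 1 := by
    rw [Phi_apply, dh, aa]
    simp only [map_sub, map_pow, aeval_X, Matrix.cons_val_zero, Matrix.cons_val, map_one, one_pow]
    rw [tr, aeval_X, map_add, oo, aeval_X, algHom_C]
    rfl
  have h1 : (Phi q aa).coeff 1 = (Polynomial.derivative (Phi q aa)).coeff 0 := by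
    rw [Polynomial.coeff_derivative]
    simp
  rw [h1, e, Polynomial.coeff_zero_eq_eval_zero]
  simp only [Polynomial.derivative_sub, Polynomial.derivative_pow, Polynomial.derivative_add,
    Polynomial.derivative_mul, Polynomial.derivative_X, Polynomial.derivative_C,
    Polynomial.derivative_one]
  simp [hq0]

end

end Pool.Agent.Lib.MP_d885f5.Sch
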