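import Mathlib
import Pool.Agent.Lib.MP_d885f5.Sch.Exc

/-!
Multiplicities of sections at the 36 points.
-/

open MvPolynomial DirectSum AlgebraicGeometry TopologicalSpace CategoryTheory Opposite

namespace Pool.Agent.Lib.MP_d885f5.Sch

noncomputable section

attribute [local instance] MvPolynomial.gradedAlgebra

lemma Phi_X2 (q : Fin 2 → ℂ) : Phi q (X 2) = 1 := by
  rw [Phi_apply, dh, aeval_X]
  simp

lemma ndvd_aa {q : Fin 2 → ℂ} (hq : Is36 q) : ¬ Polynomial.X ^ 2 ∣ Phi q aa := by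
  intro h
  exact coeff_one_aa hq (Polynomial.X_pow_dvd_iff.1 h 1 (by norm_num))

/-- the generic point of the exceptional curve over `q` -/
def ptE {q : Fin 2 → ℂ} (hq : Is36 q) : XX :=
  (⟨⟨RingHom.ker (kap hq), by
      intro n r hr
      have hr' : kap hq r = 0 := hr
      change kap hq ((decompose gr r n : Rx)) = 0
      rw [kap_of_mem hq (decompose gr r n).2, ← coeff_kap hq r n, hr']
      simp⟩,
    RingHom.ker_isPrime _,
    by
      intro h
      have h0 : (⟨X 2 * aa, gen_Rx 2 aa_mem⟩ : Rx) ∈ gr 1 := by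
        change X 2 * aa ∈ M1 ^ 1
        rw [pow_one]
        exact gen_mem 2 aa_mem
      have h1 : (⟨X 2 * aa, gen_Rx 2 aa_mem⟩ : Rx) ∈ HomogeneousIdeal.irrelevant gr := by
        rw [HomogeneousIdeal.mem_irrelevant_iff, GradedRing.proj_apply,
          decompose_of_mem_ne gr (i := 1) (j := 0) h0 one_ne_zero]
      have h2 : kap hq (⟨X 2 * aa, gen_Rx 2 aa_mem⟩ : Rx) = 0 := h h1
      rw [kap_of_mem hq h0] at h2
      have h3 := (Polynomial.monomial_eq_zero_iff _ _).1 h2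
      rw [map_mul, Phi_X2, one_mul] at h3
      exact coeff_one_aa hq h3⟩ : ProjectiveSpectrum gr)

lemma mem_ptE {q : Fin 2 → ℂ} {hq : Is36 q} {n : ℕ} {r : S3} (hr : r ∈ M1 ^ n) :
    r ∈ PX (ptE hq) ↔ Polynomial.X ^ (n + 1) ∣ Phi q r := by
  have h0 : r ∈ PX (ptE hq) ↔ kap hq (⟨r, M_le_Rx hr⟩ : Rx) = 0 := by
    constructor
    · rintro ⟨h1, h2⟩
      exact h2
    · intro h
      exact ⟨M_le_Rx hr, h⟩
  have h1 : (⟨r, M_le_Rx hr⟩ : Rx) ∈ gr n := hr
  rw [h0, kap_of_mem hq h1, Polynomial.monomial_eq_zero_iff, Polynomial.X_pow_dvd_iff]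
  have h2 := Polynomial.X_pow_dvd_iff.1 (dvd_M hq hr)
  constructor
  · intro h d hd
    rcases Nat.lt_succ_iff_lt_or_eq.1 hd with h3 | rfl
    · exact h2 d h3
    · exact h
  · intro h
    exact h n (Nat.lt_succ_self n)

lemma ptE_mem_UU {q : Fin 2 → ℂ} (hq : Is36 q) : ptE hq ∈ UU := by
  rw [mem_UU]
  left
  rw [mem_ptE (n := 1) (by rw [pow_one]; exact gen_mem 2 aa_mem), map_mul, Phi_X2, one_mul]
  exact ndvd_aa hq

lemma hc_mul {s c : S3} {k m : ℕ} (hc : c.IsHomogeneous m) :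
    homogeneousComponent (k + m) (s * c) = homogeneousComponent k s * c := by
  rw [← coeff_oo, map_mul, oo_homog hc, Polynomial.coeff_mul_monomial, coeff_oo]

lemma mem_of_J {n : ℕ} {r : S3} (hr : r ∈ (Ideal.span {aa, bb}) ^ n)
    (hh : r.IsHomogeneous (7 * n)) : r ∈ M1 ^ n := by
  have h0 : ({aa, bb} : Set S3) = Set.range ![aa, bb] := by
    simp [Matrix.range_cons, Set.pair_comm]
  rw [h0, Ideal.mem_span_pow_iff_exists_isHomogeneous] at hr
  obtain ⟨P, hP, rfl⟩ := hr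
  have h1 := homogeneousComponent_of_mem (m := 7 * n) (n := 7 * n) hh
  rw [if_pos rfl] at h1
  rw [← h1, eval_eq', map_sum]
  refine Submodule.sum_mem _ fun e he => ?_
  have he' : e 0 + e 1 = n := by
    have h3 : e.degree = n := by
      rw [Finsupp.degree_apply]
      exact (hP.degree_eq_sum_deg_support he).symm
    rwa [deg2] at h3
  rw [Fin.prod_univ_two]
  simp only [Matrix.cons_val_zero, Matrix.cons_val_one]
  have h2 : (aa ^ e 0 * bb ^ e 1) ∈ LL ^ n := he' ▸ ab_mem (e 0) (e 1)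
  rw [show 7 * n = n + 6 * n by ring, hc_mul (LL_pow_hom n h2)]
  exact mem_M1_pow (homogeneousComponent_isHomogeneous _ _) h2

/-- cofactor `(x⁶ - z⁶)/(x - αz)` -/
def cof6 (v : Fin 3) (α : ℂ) : S3 := ∑ i ∈ Finset.range 6, X v ^ i * (C α * X 2) ^ (5 - i)

lemma cof6_mul (v : Fin 3) {α : ℂ} (hα : α ^ 6 = 1) :
    cof6 v α * (X v - C α * X 2) = X v ^ 6 - X 2 ^ 6 := by
  have h := geom_sum₂_mul (X v : S3) (C α * X 2) 6
  rw [mul_pow (C α : S3), ← C_pow, hα, C_1, one_mul] at h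
  exact h

lemma cof6_hom (v : Fin 3) (α : ℂ) : (cof6 v α).IsHomogeneous 5 := by
  refine IsHomogeneous.sum _ _ _ fun i hi => ?_
  have h1 : ((X v : S3) ^ i).IsHomogeneous i := isHomogeneous_X_pow _ _
  have h2 : ((C α * X 2 : S3) ^ (5 - i)).IsHomogeneous (1 * (5 - i)) :=
    (isHomogeneous_C_mul_X α 2).pow _
  have h3 := h1.mul h2
  rw [Finset.mem_range] at hi
  rwa [show i + 1 * (5 - i) = 5 by omega] at h3

/-- the ideal of the point `q` of the projective plane -/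
def Iq (q : Fin 2 → ℂ) : Ideal S3 := Ideal.span {X 0 - C (q 0) * X 2, X 1 - C (q 1) * X 2}

lemma cof_mul_Iq {q : Fin 2 → ℂ} (hq : Is36 q) :
    Ideal.span {cof6 0 (q 0) * cof6 1 (q 1)} * Iq q ≤ Ideal.span {aa, bb} := by
  rw [Iq, Ideal.span_mul_span', Ideal.span_le]
  rintro _ ⟨_, rfl, y, hy, rfl⟩
  rcases hy with rfl | rfl
  · have e : cof6 0 (q 0) * cof6 1 (q 1) * (X 0 - C (q 0) * X 2) = cof6 1 (q 1) * aa := by
      rw [aa, ← cof6_mul 0 hq.1]
      ring
    change cof6 0 (q 0) * cof6 1 (q 1) * (X 0 - C (q 0) * X 2) ∈ Ideal.span {aa, bb}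
    rw [e]
    exact Ideal.mul_mem_left _ _ (Ideal.subset_span (by simp))
  · have e : cof6 0 (q 0) * cof6 1 (q 1) * (X 1 - C (q 1) * X 2) = cof6 0 (q 0) * bb := by
      rw [bb, ← cof6_mul 1 hq.2]
      ring
    change cof6 0 (q 0) * cof6 1 (q 1) * (X 1 - C (q 1) * X 2) ∈ Ideal.span {aa, bb}
    rw [e]
    exact Ideal.mul_mem_left _ _ (Ideal.subset_span (by simp))

lemma mem_Iq_pow {q : Fin 2 → ℂ} {F : S3} {e m : ℕ} (hF : F.IsHomogeneous e)
    (h : dh F ∈ ptIdeal q ^ m) : ∃ N, X 2 ^ N * F ∈ Iq q ^ m := by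
  obtain ⟨f, hf⟩ : ∃ f, f = tr q (dh F) := ⟨_, rfl⟩
  refine ⟨f.totalDegree, ?_⟩
  have h1 : X 2 ^ f.totalDegree * F = ∑ x ∈ f.support, C (coeff x f) *
      ((X 0 - C (q 0) * X 2) ^ x 0 * (X 1 - C (q 1) * X 2) ^ x 1 *
        X 2 ^ (e + f.totalDegree - x 0 - x 1)) := by
    refine dh_inj (n := f.totalDegree + e) ?_ ?_ ?_
    · exact (isHomogeneous_X_pow _ _).mul hF
    · refine IsHomogeneous.sum _ _ _ fun x hx => IsHomogeneous.C_mul ?_ _
      have hl : ∀ v : Fin 3, ∀ α : ℂ, (X v - C α * X 2 : S3).IsHomogeneous 1 := fun v α =>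
        (isHomogeneous_X _ v).sub (isHomogeneous_C_mul_X α 2)
      have h2 := (((hl 0 (q 0)).pow (x 0)).mul ((hl 1 (q 1)).pow (x 1))).mul
        (isHomogeneous_X_pow (R := ℂ) (2 : Fin 3) (e + f.totalDegree - x 0 - x 1))
      have h3 := le_deg2 hx
      rwa [show 1 * x 0 + 1 * x 1 + (e + f.totalDegree - x 0 - x 1) = f.totalDegree + e by
        omega] at h2
    · have e0 : dh (X 0) = X 0 := by rw [dh, aeval_X]; rfl
      have e1 : dh (X 1) = X 1 := by rw [dh, aeval_X]; rfl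
      have e2 : dh (X 2) = 1 := by rw [dh, aeval_X]; rfl
      have eC : ∀ c : ℂ, dh (C c) = C c := fun c => by rw [algHom_C]; rfl
      rw [map_mul, map_pow, e2, one_pow, one_mul, map_sum]
      simp only [map_mul, map_pow, map_sub, e0, e1, e2, eC, mul_one, one_pow]
      conv_lhs => rw [← tr_tr q (dh F), ← hf, f.as_sum]
      rw [map_sum]
      refine Finset.sum_congr rfl fun x _ => ?_
      rw [mono2]
      have t0 : tr (-q) (X 0) = X 0 - C (q 0) := by
        rw [tr, aeval_X]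
        simp [sub_eq_add_neg]
      have t1 : tr (-q) (X 1) = X 1 - C (q 1) := by
        rw [tr, aeval_X]
        simp [sub_eq_add_neg]
      rw [map_mul, map_mul, map_pow, map_pow, t0, t1, algHom_C]
      rfl
  rw [h1]
  refine Ideal.sum_mem _ fun x hx => Ideal.mul_mem_left _ _ (Ideal.mul_mem_right _ _ ?_)
  rw [tr_mem, ptIdeal_zero, mem_pow_idealOfVars_iff', ← hf] at h
  have h2 : m ≤ x 0 + x 1 := by
    by_contra hc
    push Not at hc
    rw [mem_support_iff] at hx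
    exact hx (h x (by rw [deg2]; exact hc))
  have h3 : (X 0 - C (q 0) * X 2 : S3) ∈ Iq q := Ideal.subset_span (by simp)
  have h4 : (X 1 - C (q 1) * X 2 : S3) ∈ Iq q := Ideal.subset_span (by simp)
  refine Ideal.pow_le_pow_right h2 ?_
  rw [pow_add]
  exact Ideal.mul_mem_mul (Ideal.pow_mem_pow h3 _) (Ideal.pow_mem_pow h4 _)

lemma cof6_ndvd {q : Fin 2 → ℂ} (hq : Is36 q) :
    ¬ Polynomial.X ∣ Phi q (cof6 0 (q 0) * cof6 1 (q 1)) := by
  have hq0 : q 0 ≠ 0 := by
    intro h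
    have := hq.1
    rw [h] at this
    norm_num at this
  have hq1 : q 1 ≠ 0 := by
    intro h
    have := hq.2
    rw [h] at this
    norm_num at this
  rw [← pow_one Polynomial.X, phi_dvd_iff, pow_one, mem_ptIdeal, map_mul, map_mul]
  have e0 : dh (X 0) = X 0 := by rw [dh, aeval_X]; rfl
  have e1 : dh (X 1) = X 1 := by rw [dh, aeval_X]; rfl
  have e2 : dh (X 2) = 1 := by rw [dh, aeval_X]; rfl
  have eC : ∀ c : ℂ, dh (C c) = C c := fun c => by rw [algHom_C]; rfl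
  have h0 : eval q (dh (cof6 0 (q 0))) = 6 * q 0 ^ 5 := by
    rw [cof6, map_sum, map_sum]
    simp only [map_mul, map_pow, e0, e2, eC, eval_X, eval_C, mul_one, Finset.sum_range_succ,
      Finset.sum_range_zero]
    ring
  have h1 : eval q (dh (cof6 1 (q 1))) = 6 * q 1 ^ 5 := by
    rw [cof6, map_sum, map_sum]
    simp only [map_mul, map_pow, e1, e2, eC, eval_X, eval_C, mul_one, Finset.sum_range_succ,
      Finset.sum_range_zero]
    ring
  rw [h0, h1]
  exact mul_ne_zero (mul_ne_zero (by norm_num) (pow_ne_zero _ hq0))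
    (mul_ne_zero (by norm_num) (pow_ne_zero _ hq1))

lemma mult_U {s : XX ⟶ SpecC} {F : S3} {e : ℕ} (hF : F.IsHomogeneous e) (hFi : Irreducible F)
    {q : Fin 2 → ℂ} (hq : Is36 q) {m : ℕ} (hm : dh F ∈ ptIdeal q ^ m) {f : FunField s}
    (hf : f ∈ stalkOD s (PP F hF hFi) (ptE hq)) {m' : ℕ} {G : S3}
    (hG : thetaK QQ s f * ι F * ι (X 2) ^ m' = ι G) : dh G ∈ ptIdeal q ^ m := by
  obtain ⟨N, hN⟩ := mem_Iq_pow hF hm
  obtain ⟨cc, hcc⟩ : ∃ cc, cc = cof6 0 (q 0) * cof6 1 (q 1) := ⟨_, rfl⟩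
  have hcc1 : cc.IsHomogeneous 10 := by
    rw [hcc]
    exact (cof6_hom 0 (q 0)).mul (cof6_hom 1 (q 1))
  -- the element of `R` vanishing on `D` with smallest possible order at `q`
  have h1 : cc ^ m * (X 2 ^ N * F) ∈ Ideal.span {aa, bb} ^ m := by
    have h2 := Ideal.mul_mem_mul (Ideal.pow_mem_pow
      (Ideal.subset_span (Set.mem_singleton (cof6 0 (q 0) * cof6 1 (q 1)))) m) hN
    rw [← mul_pow] at h2
    rw [hcc]
    exact Ideal.pow_right_mono (cof_mul_Iq hq) m h2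
  obtain ⟨n, hn⟩ : ∃ n, n = e + 4 * m + N := ⟨_, rfl⟩
  obtain ⟨w, hw⟩ : ∃ w, w = cc ^ m * X 2 ^ N * aa ^ (n - m) := ⟨_, rfl⟩
  have ht : F * w ∈ M1 ^ n := by
    apply mem_of_J
    · have h3 : F * w = (cc ^ m * (X 2 ^ N * F)) * aa ^ (n - m) := by
        rw [hw]
        ring
      have h4 : (Ideal.span {aa, bb} : Ideal S3) ^ n =
          Ideal.span {aa, bb} ^ m * Ideal.span {aa, bb} ^ (n - m) := by
        rw [← pow_add]
        congr 1
        omega
      rw [h3, h4]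
      exact Ideal.mul_mem_mul h1 (Ideal.pow_mem_pow (Ideal.subset_span (by simp)) _)
    · have h5 := hF.mul (((hcc1.pow m).mul (isHomogeneous_X_pow (R := ℂ) (2 : Fin 3) N)).mul
        (aa_hom.pow (n - m)))
      rw [← hw] at h5
      rwa [show e + (10 * m + N + 6 * (n - m)) = 7 * n by omega] at h5
  have ht' : F * w ∈ PX (PP F hF hFi) := mem_PP.2 ⟨M_le_Rx ht, dvd_mul_right _ _⟩
  have hu : (X 2 * aa) ^ n ∈ M1 ^ n := Submodule.pow_mem_pow _ (gen_mem 2 aa_mem) n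
  obtain ⟨A, hA⟩ := dvd_aa hq
  have hA' : ¬ Polynomial.X ∣ A := by
    rintro ⟨B, hB⟩
    apply ndvd_aa hq
    rw [hA, hB]
    exact ⟨B, by ring⟩
  have hXp : Prime (Polynomial.X : Polynomial A2) := Polynomial.prime_X
  have hu' : (X 2 * aa) ^ n ∉ PX (ptE hq) := by
    rw [mem_ptE hu, map_pow, map_mul, Phi_X2, one_mul, hA, mul_pow, pow_succ]
    intro h
    have h2 := (mul_dvd_mul_iff_left (pow_ne_zero n hXp.ne_zero)).1 h
    exact hA' (hXp.dvd_of_dvd_pow h2)
  rw [mem_stalkOD] at hf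
  have h2 := hf n _ ht ht' _ hu hu'
  rw [mem_frac] at h2
  obtain ⟨k, num, hnum, den, hden, hd, h3⟩ := h2
  have hd0 : den ≠ 0 := by
    rintro rfl
    apply hd
    rw [mem_ptE hden, map_zero]
    exact dvd_zero _
  have haa0 : aa ≠ 0 := by
    intro h
    apply ndvd_aa hq
    rw [h, map_zero]
    exact dvd_zero _
  have key : G * w * den = num * (X 2 * aa) ^ n * X 2 ^ m' := by
    apply ι_inj.1
    have hd' := ι_ne hd0
    have hu0 : ι ((X 2 * aa) ^ n) ≠ 0 := ι_ne (pow_ne_zero _ (mul_ne_zero (X_ne_zero _) haa0))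
    have hz0 : ι (X 2) ≠ 0 := ι_ne (X_ne_zero _)
    have e1 : ι (F * w) = ι F * ι w := by rw [ι, map_mul]
    rw [e1] at h3
    field_simp at h3
    have e2 : ι (G * w * den) = ι G * ι w * ι den := by rw [ι, map_mul, map_mul]
    have e3 : ι (num * (X 2 * aa) ^ n * X 2 ^ m') = ι num * ι ((X 2 * aa) ^ n) * ι (X 2) ^ m' := by
      rw [ι, map_mul, map_mul, map_pow _ (X 2) m']
    rw [e2, e3, ← hG]
    linear_combination (ι (X 2)) ^ m' * h3
  have key2 := congrArg (Phi q) key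
  rw [map_mul, map_mul, map_mul, map_mul, map_pow, map_pow _ (X 2) m', map_mul, Phi_X2, one_mul,
    one_pow, mul_one, hw, map_mul, map_mul, map_pow, map_pow _ (X 2) N, Phi_X2, one_pow, mul_one,
    map_pow, hA] at key2
  obtain ⟨D, hD⟩ := dvd_M hq hden
  have hD' : ¬ Polynomial.X ∣ D := by
    rintro ⟨B, hB⟩
    apply hd
    rw [mem_ptE hden, hD, hB, pow_succ]
    exact ⟨B, by ring⟩
  obtain ⟨E, hE⟩ := dvd_M hq hnum
  rw [hD, hE] at key2
  have hnm : n = n - m + m := by omega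
  have key3 : Phi q G * (Phi q cc ^ m * A ^ (n - m) * D) = Polynomial.X ^ m * (E * A ^ n) := by
    apply mul_left_cancel₀ (pow_ne_zero (n - m + k) hXp.ne_zero)
    have e1 : (Polynomial.X ^ (n - m + k) * (Polynomial.X ^ m * (E * A ^ n)) : Polynomial A2) =
        Polynomial.X ^ k * E * (Polynomial.X * A) ^ n := by
      rw [mul_pow (Polynomial.X) A n]
      have : (Polynomial.X ^ n : Polynomial A2) = Polynomial.X ^ (n - m) * Polynomial.X ^ m := by
        rw [← pow_add, ← hnm]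
      rw [this, pow_add]
      ring
    rw [e1, ← key2, pow_add, mul_pow]
    ring
  have hnd : ¬ Polynomial.X ∣ (Phi q cc ^ m * A ^ (n - m) * D) := by
    intro h
    rcases hXp.dvd_or_dvd h with h | h
    · rcases hXp.dvd_or_dvd h with h | h
      · rw [hcc] at h
        exact cof6_ndvd hq (hXp.dvd_of_dvd_pow h)
      · exact hA' (hXp.dvd_of_dvd_pow h)
    · exact hD' h
  rw [← phi_dvd_iff]
  exact hXp.pow_dvd_of_dvd_mul_right m hnd ⟨E * A ^ n, key3⟩

end

end Pool.Agent.Lib.MP_d885f5.Sch
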