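import Mathlib
import Pool.Agent.Lib.MP_d885f5.Sch.Mult

/-!
Sections over `U ∩ V`; the codimension of the point of an irreducible form.
-/

open MvPolynomial DirectSum AlgebraicGeometry TopologicalSpace CategoryTheory Opposite

namespace Pool.Agent.Lib.MP_d885f5.Sch

noncomputable section

attribute [local instance] MvPolynomial.gradedAlgebra

lemma ι_map_mul (a b : S3) : ι (a * b) = ι a * ι b := map_mul _ _ _
lemma ι_map_pow (a : S3) (n : ℕ) : ι (a ^ n) = ι a ^ n := map_pow _ _ _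

/-- a multiple of a form by a form, with degree bookkeeping -/
lemma exists_cofactor {F t : S3} {e n : ℕ} (hF : F.IsHomogeneous e)
    (ht : t.IsHomogeneous n) (ht0 : t ≠ 0) (h : F ∣ t) :
    ∃ (t' : S3) (j : ℕ), t = F * t' ∧ t'.IsHomogeneous j ∧ e + j = n := by
  obtain ⟨t', rfl⟩ := h
  obtain ⟨j, hj⟩ := homog_of_dvd ht ht0 (dvd_mul_left t' F)
  exact ⟨t', j, rfl, hj, (hF.mul hj).inj_right ht ht0⟩

lemma mem_inter {s : XX ⟶ SpecC} {F : S3} {e : ℕ} (hF : F.IsHomogeneous e) (hFi : Irreducible F)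
    {x : XX} {c : S3} (hc : c ∈ LL) (hx : X 2 * c ^ 8 ∉ PX x) {f : FunField s} {G : S3} {n : ℕ}
    (hG : G.IsHomogeneous n) (hf : thetaK QQ s f * (ι F * ι (X 2) ^ n) = ι G * ι (X 2) ^ e) :
    f ∈ stalkOD s (PP F hF hFi) x := by
  rw [mem_stalkOD]
  intro k t ht htη u hu hux
  rw [mem_frac]
  by_cases ht0 : t = 0
  · refine ⟨k, 0, zero_mem _, u, hu, hux, ?_⟩
    rw [ht0, ι, map_zero]
    simp
  obtain ⟨t', j, rfl, hj, hjk⟩ := exists_cofactor hF (M1_pow_hom k ht) ht0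
    (mem_PP.1 htη).2
  have hc0 : c ≠ 0 := by
    rintro rfl
    apply hx
    rw [zero_pow (by norm_num), mul_zero]
    exact ⟨Rx.zero_mem, zero_mem _⟩
  have hu0 : u ≠ 0 := by
    rintro rfl
    exact hux ⟨Rx.zero_mem, zero_mem _⟩
  have hc6 := LL_hom hc
  obtain ⟨N, hN⟩ : ∃ N, N = n + k := ⟨_, rfl⟩
  refine ⟨k + 7 * N, (G * X 2 ^ e * t' * X 2 ^ (N - n) * c ^ (N - k)) * c ^ (k + 7 * N), ?_,
    u * (X 2 * c ^ 8) ^ N, ?_, ?_, ?_⟩
  · refine mem_M1_pow ?_ (Submodule.pow_mem_pow _ hc _)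
    have h1 := ((((hG.mul (isHomogeneous_X_pow (R := ℂ) (2 : Fin 3) e)).mul hj).mul
      (isHomogeneous_X_pow (R := ℂ) (2 : Fin 3) (N - n)))).mul (IsHomogeneous.pow hc6 (N - k))
    rwa [show n + e + j + (N - n) + 6 * (N - k) = k + 7 * N by omega] at h1
  · rw [pow_add]
    refine Submodule.mul_mem_mul hu ?_
    rw [pow_mul]
    exact Submodule.pow_mem_pow _ (c8_mem 2 hc) N
  · intro h
    rcases PX_prime (M_le_Rx hu) (Rx.pow_mem (c8_Rx 2 hc) N) h with h1 | h1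
    · exact hux h1
    · exact hx (PX_pow (c8_Rx 2 hc) h1)
  · have e1 : (G * X 2 ^ e * t' * X 2 ^ (N - n) * c ^ (N - k)) * c ^ (k + 7 * N) =
        G * X 2 ^ e * t' * X 2 ^ (N - n) * c ^ (8 * N) := by
      rw [mul_assoc _ (c ^ (N - k)), ← pow_add]
      congr 2
      omega
    rw [e1, mul_pow (X 2 : S3) (c ^ 8) N, ← pow_mul]
    simp only [ι_map_mul, ι_map_pow]
    have hc' := ι_ne hc0
    have hu' := ι_ne hu0
    have hz' : ι (X 2) ≠ 0 := ι_ne (X_ne_zero _)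
    have hF' := ι_ne hFi.ne_zero
    have e2 : ι (X 2) ^ N = ι (X 2) ^ (N - n) * ι (X 2) ^ n := by
      rw [← pow_add]
      congr 1
      omega
    rw [e2]
    have e3 : thetaK QQ s f = ι G * ι (X 2) ^ e / (ι F * ι (X 2) ^ n) := by
      rw [eq_div_iff (mul_ne_zero hF' (pow_ne_zero _ hz')), hf]
    rw [e3]
    field_simp

lemma exists_K {s : XX ⟶ SpecC} {F : S3} {e : ℕ} (hF : F.IsHomogeneous e) (hF0 : F ≠ 0)
    {G : S3} {n : ℕ} (hG : G.IsHomogeneous n) :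
    ∃ f : FunField s, thetaK QQ s f * (ι F * ι (X 2) ^ n) = ι G * ι (X 2) ^ e := by
  have haa0 : aa ≠ 0 := by
    intro h
    have hq : Is36 1 := ⟨by simp, by simp⟩
    apply ndvd_aa hq
    rw [h, map_zero]
    exact dvd_zero _
  have h1 : G * X 2 ^ e * aa ^ (n + e) ∈ M1 ^ (n + e) :=
    mem_M1_pow (hG.mul (isHomogeneous_X_pow _ _)) (Submodule.pow_mem_pow _ aa_mem _)
  have h2 : F * X 2 ^ n * aa ^ (n + e) ∈ M1 ^ (n + e) := by
    refine mem_M1_pow ?_ (Submodule.pow_mem_pow _ aa_mem _)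
    rw [add_comm n e]
    exact hF.mul (isHomogeneous_X_pow _ _)
  have hne : F * X 2 ^ n * aa ^ (n + e) ≠ 0 :=
    mul_ne_zero (mul_ne_zero hF0 (pow_ne_zero _ (X_ne_zero _))) (pow_ne_zero _ haa0)
  have h3 : (⟨_, M_le_Rx h2⟩ : Rx) ∉ (genericPoint XX).asHomogeneousIdeal := by
    have h4 : (⟨X 2 * aa, gen_Rx 2 aa_mem⟩ : Rx) ∈ gr 1 := by
      change X 2 * aa ∈ M1 ^ 1
      rw [pow_one]
      exact gen_mem 2 aa_mem
    rw [genericPoint_proj one_pos h4 (fun h => mul_ne_zero (X_ne_zero 2) haa0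
      (congrArg Subtype.val h))]
    intro h5
    exact hne (congrArg Subtype.val ((Submodule.mem_bot _).1 h5))
  obtain ⟨f, hf⟩ := exists_of_frac QQ (genericPoint XX) (n := n + e) (num := ⟨_, M_le_Rx h1⟩)
    (den := ⟨_, M_le_Rx h2⟩) h1 h2 h3
  refine ⟨f, ?_⟩
  have hf' : thetaK QQ s f = ι (G * X 2 ^ e * aa ^ (n + e)) / ι (F * X 2 ^ n * aa ^ (n + e)) := hf
  have hz' : ι (X 2) ≠ 0 := ι_ne (X_ne_zero _)
  have hF' := ι_ne hF0
  have ha' := ι_ne haa0
  rw [hf']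
  simp only [ι_map_mul, ι_map_pow]
  field_simp

lemma PX_le_iff {x y : XX} : x.asHomogeneousIdeal ≤ y.asHomogeneousIdeal ↔ PX x ⊆ PX y := by
  constructor
  · rintro h r ⟨h1, h2⟩
    exact ⟨h1, h h2⟩
  · intro h r hr
    exact mem_PX.1 (h (mem_PX.2 hr))

/-- the ideal of a point is determined by its homogeneous elements -/
lemma PX_le_of_homog {x y : XX} (H : ∀ n, ∀ r ∈ M1 ^ n, r ∈ PX x → r ∈ PX y) : PX x ⊆ PX y := by
  rw [← PX_le_iff]
  intro z hz
  classical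
  rw [← DirectSum.sum_support_decompose gr z]
  refine Ideal.sum_mem _ fun c hc => ?_
  exact mem_PX.1 (H c _ (DirectSum.decompose gr z c).2
    (mem_PX.2 (x.asHomogeneousIdeal.isHomogeneous c hz)))

lemma adj_mem (v : Fin 3) {c : S3} (hc : c ∈ LL) (n : ℕ) :
    X v ^ (7 * n) * c ^ (14 * n) ∈ M1 ^ (13 * n) := by
  have e : (X v ^ (7 * n) * c ^ (14 * n) : S3) = (X v ^ (7 * n) * c ^ n) * c ^ (13 * n) := by
    rw [mul_assoc, ← pow_add]
    congr 2
    omega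
  rw [e]
  refine mem_M1_pow ?_ (Submodule.pow_mem_pow _ hc _)
  have h1 := (isHomogeneous_X_pow (R := ℂ) v (7 * n)).mul (IsHomogeneous.pow (LL_hom hc) n)
  rwa [show 7 * n + 6 * n = 13 * n by omega] at h1

lemma below_PP {F : S3} {e : ℕ} (hF : F.IsHomogeneous e) (hFi : Irreducible F) {x : XX}
    (hx : PX x ⊆ PX (PP F hF hFi)) {n : ℕ} {r : S3} (hr : r ∈ M1 ^ n) (hrx : r ∈ PX x)
    (hr0 : r ≠ 0) : PX (PP F hF hFi) ⊆ PX x := by
  obtain ⟨v, c, hc, -, hv, hFc⟩ := exists_vc hF hFi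
  have hp := hFi.prime
  have hnot : ∀ a b : ℕ, ¬ F ∣ X v ^ a * c ^ b := by
    intro a b h
    rcases hp.dvd_or_dvd h with h | h
    · exact hv (hp.dvd_of_dvd_pow h)
    · exact hFc (hp.dvd_of_dvd_pow h)
  -- `F c^e` is in `x`
  have hFh : F * c ^ e ∈ M1 ^ e := mem_M1_pow hF (Submodule.pow_mem_pow _ hc e)
  have key : F * c ^ e ∈ PX x := by
    obtain ⟨r', hr', hr''⟩ := (FiniteMultiplicity.of_prime_left hp hr0).exists_eq_pow_mul_and_not_dvd
    obtain ⟨k, hk⟩ : ∃ k, k = multiplicity F r := ⟨_, rfl⟩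
    rw [← hk] at hr'
    obtain ⟨r2, j, h1, h2, h3⟩ := exists_cofactor (hF.pow k) (M1_pow_hom n hr) hr0
      ⟨r', hr'⟩
    have h4 : r2 = r' := mul_left_cancel₀ (pow_ne_zero k hFi.ne_zero) (h1.symm.trans hr')
    rw [h4] at h1 h2
    have hr1 : r' * c ^ j ∈ M1 ^ j := mem_M1_pow h2 (Submodule.pow_mem_pow _ hc j)
    have h5 : (F * c ^ e) ^ k * (r' * c ^ j) * (X v * c) ^ (7 * n) =
        r * (X v ^ (7 * n) * c ^ (14 * n)) := by
      have e1 : c ^ (14 * n) = (c ^ e) ^ k * c ^ j * c ^ (7 * n) := by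
        rw [← pow_mul, ← pow_add, ← pow_add]
        congr 1
        omega
      rw [e1, hr', mul_pow, mul_pow]
      ring
    have h6 : (F * c ^ e) ^ k * (r' * c ^ j) * (X v * c) ^ (7 * n) ∈ PX x := by
      rw [h5]
      exact PX_mul hrx (M_le_Rx (adj_mem v hc n))
    rcases PX_prime (Rx.mul_mem (Rx.pow_mem (M_le_Rx hFh) _) (M_le_Rx hr1))
      (Rx.pow_mem (gen_Rx v hc) _) h6 with h7 | h7
    · rcases PX_prime (Rx.pow_mem (M_le_Rx hFh) _) (M_le_Rx hr1) h7 with h8 | h8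
      · exact PX_pow (M_le_Rx hFh) h8
      · exfalso
        have h9 := (mem_PP.1 (hx h8)).2
        rcases hp.dvd_or_dvd h9 with h | h
        · exact hr'' h
        · exact hFc (hp.dvd_of_dvd_pow h)
    · exfalso
      have h9 := (mem_PP.1 (hx (PX_pow (gen_Rx v hc) h7))).2
      rw [← pow_one (X v), ← pow_one c] at h9
      exact hnot 1 1 h9
  refine PX_le_of_homog fun m s hs hsη => ?_
  by_cases hs0 : s = 0
  · rw [hs0]
    exact ⟨Rx.zero_mem, zero_mem _⟩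
  obtain ⟨s', j, rfl, h2, h3⟩ := exists_cofactor hF (M1_pow_hom m hs) hs0 (mem_PP.1 hsη).2
  have hs1 : s' * c ^ j ∈ M1 ^ j := mem_M1_pow h2 (Submodule.pow_mem_pow _ hc j)
  have h5 : (F * s') * (X v ^ (7 * m) * c ^ (14 * m)) =
      (F * c ^ e) * ((s' * c ^ j) * (X v * c) ^ (7 * m)) := by
    have e1 : c ^ (14 * m) = c ^ e * c ^ j * c ^ (7 * m) := by
      rw [← pow_add, ← pow_add]
      congr 1
      omega
    rw [e1, mul_pow]
    ring
  have h6 : (F * s') * (X v ^ (7 * m) * c ^ (14 * m)) ∈ PX x := by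
    rw [h5]
    exact PX_mul key (Rx.mul_mem (M_le_Rx hs1) (Rx.pow_mem (gen_Rx v hc) _))
  rcases PX_prime (M_le_Rx hs) (M_le_Rx (adj_mem v hc m)) h6 with h7 | h7
  · exact h7
  · exfalso
    exact hnot _ _ (mem_PP.1 (hx h7)).2

lemma le_iff_PX {x y : XX} : y ≤ x ↔ PX x ⊆ PX y := by
  rw [← PX_le_iff, ← specializes_iff]
  rfl

lemma coheight_PP {F : S3} {e : ℕ} (hF : F.IsHomogeneous e) (hFi : Irreducible F) :
    Order.coheight (PP F hF hFi) = 1 := by
  obtain ⟨v, c, hc, -, hv, hFc⟩ := exists_vc hF hFi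
  have hc0 : c ≠ 0 := by
    rintro rfl
    exact hFc (dvd_zero _)
  apply le_antisymm
  · have h1 : ((1 : ℕ) : ℕ∞) = 1 := rfl
    rw [← h1, Order.coheight_le_coe_iff]
    intro y hy
    have h2 : Order.coheight y = 0 := by
      rw [Order.coheight_eq_zero]
      intro b hb
      rw [le_iff_PX] at hb ⊢
      have h3 := le_iff_PX.1 hy.le
      have h4 : ¬ PX (PP F hF hFi) ⊆ PX y := fun h => hy.not_ge (le_iff_PX.2 h)
      refine PX_le_of_homog fun n r hr hry => ?_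
      by_cases hr0 : r = 0
      · rw [hr0]
        exact ⟨Rx.zero_mem, zero_mem _⟩
      · exact absurd (below_PP hF hFi h3 hr hry hr0) h4
    rw [h2]
    exact_mod_cast one_pos
  · rw [Order.one_le_iff_pos, Order.coheight_pos]
    intro hmax
    have h1 : PP F hF hFi ≤ genericPoint XX := (genericPoint_spec XX).specializes trivial
    have h2 := hmax h1
    rw [le_iff_PX] at h2
    have hFh : F * c ^ e ∈ M1 ^ e := mem_M1_pow hF (Submodule.pow_mem_pow _ hc e)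
    have h3 : F * c ^ e ∈ PX (genericPoint XX) :=
      h2 (mem_PP.2 ⟨M_le_Rx hFh, dvd_mul_right _ _⟩)
    obtain ⟨h4, h5⟩ := h3
    have h6 : (⟨X v * c, gen_Rx v hc⟩ : Rx) ∈ gr 1 := by
      change X v * c ∈ M1 ^ 1
      rw [pow_one]
      exact gen_mem v hc
    have h7 : xI (genericPoint XX) = ⊥ := by
      rw [genericPoint_proj one_pos h6 (fun h => mul_ne_zero (X_ne_zero v) hc0
        (congrArg Subtype.val h))]
      rfl
    rw [h7] at h5
    exact mul_ne_zero hFi.ne_zero (pow_ne_zero e hc0)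
      (congrArg Subtype.val ((Submodule.mem_bot _).1 h5))

end

end Pool.Agent.Lib.MP_d885f5.Sch
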