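import Mathlib
import Pool.Agent.Lib.MP_d885f5.Sch.Inter

/-!
Auxiliary algebra: homogenization of irreducible polynomials, the field `ℂ(x/z, y/z)`,
surjectivity onto fat points.
-/

open MvPolynomial DirectSum AlgebraicGeometry TopologicalSpace CategoryTheory Opposite

namespace Pool.Agent.Lib.MP_d885f5.Sch

noncomputable section

attribute [local instance] MvPolynomial.gradedAlgebra

lemma irreducible_hm {f : A2} (hf : Irreducible f) : Irreducible (hm f.totalDegree f) := by
  have hh := hm_homog (le_refl f.totalDegree)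
  have hd := dh_hm f.totalDegree f
  have h0 : hm f.totalDegree f ≠ 0 := by
    intro h
    rw [h, map_zero] at hd
    exact hf.ne_zero hd.symm
  have key : ∀ {A B : S3}, hm f.totalDegree f = A * B → IsUnit (dh A) → IsUnit A := by
    intro A B hAB hu
    have hA0 : A ≠ 0 := by
      rintro rfl
      rw [zero_mul] at hAB
      exact h0 hAB
    obtain ⟨k, hk⟩ := homog_of_dvd hh h0 ⟨B, hAB⟩
    obtain ⟨l, hl⟩ := homog_of_dvd hh h0 ⟨A, by rw [hAB, mul_comm]⟩
    have hkl : k + l = f.totalDegree := by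
      have h1 := hk.mul hl
      rw [← hAB] at h1
      exact h1.inj_right hh h0
    have hA1 := dh_deg_le hk
    have hB1 := dh_deg_le hl
    have hprod : dh A * dh B = f := by
      rw [← map_mul, ← hAB, hd]
    have hAne : dh A ≠ 0 := by
      intro h
      rw [h, zero_mul] at hprod
      exact hf.ne_zero hprod.symm
    have hBne : dh B ≠ 0 := by
      intro h
      rw [h, mul_zero] at hprod
      exact hf.ne_zero hprod.symm
    have hdeg := totalDegree_mul_of_isDomain hAne hBne
    rw [hprod] at hdeg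
    have hu2 := (isUnit_iff_totalDegree_of_isReduced.1 hu).2
    have hk0 : k = 0 := by omega
    subst hk0
    have h1 : A.totalDegree = 0 := (totalDegree_zero_iff_isHomogeneous _).2 hk
    rw [isUnit_iff_totalDegree_of_isReduced]
    refine ⟨?_, h1⟩
    rw [isUnit_iff_ne_zero]
    intro h2
    apply hA0
    rw [totalDegree_eq_zero_iff_eq_C.1 h1, h2, C_0]
  constructor
  · intro hu
    have := hu.map dh
    rw [hd] at this
    exact hf.not_isUnit this
  · intro A B hAB
    have hprod : f = dh A * dh B := by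
      rw [← map_mul, ← hAB, hd]
    rcases hf.isUnit_or_isUnit hprod with h | h
    · exact Or.inl (key hAB h)
    · exact Or.inr (key (A := B) (B := A) (by rw [hAB, mul_comm]) h)

/-- polynomials in `x/z, y/z` -/
def jj : A2 →ₐ[ℂ] QQ := aeval ![ι (X 0) / ι (X 2), ι (X 1) / ι (X 2)]

lemma ι_homog {G : S3} {n : ℕ} (hG : G.IsHomogeneous n) : ι G = ι (X 2) ^ n * jj (dh G) := by
  have hz : ι (X 2) ≠ 0 := ι_ne (X_ne_zero _)
  have h1 : ∀ x ∈ G.support, x 0 + x 1 + x 2 = n := fun x hx => by
    have := hG.degree_eq_sum_deg_support hx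
    have h3 : x.degree = n := by
      rw [Finsupp.degree_apply]
      exact this.symm
    rwa [deg3] at h3
  have hC : ∀ c : ℂ, ι (C c) = algebraMap ℂ QQ c := fun c => rfl
  conv_lhs => rw [G.as_sum]
  conv_rhs => rw [G.as_sum]
  rw [ι, map_sum, map_sum, map_sum, Finset.mul_sum]
  refine Finset.sum_congr rfl fun x hx => ?_
  rw [dh_monomial, mono3, mono2, map_mul, map_mul, map_mul, map_mul, map_pow, map_pow, map_pow,
    map_mul, map_pow, map_pow, jj, aeval_X, aeval_X, algHom_C, f2_zero, f2_one]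
  simp only [Matrix.cons_val_zero, Matrix.cons_val_one]
  have e1 : (algebraMap S3 QQ) (C (coeff x G)) = algebraMap ℂ QQ (coeff x G) := hC _
  rw [e1]
  change _ * (ι (X 0) ^ x 0 * ι (X 1) ^ x 1 * ι (X 2) ^ x 2) = _
  rw [← h1 x hx, pow_add, pow_add, div_pow, div_pow]
  field_simp

lemma jj_inj : Function.Injective jj := by
  rw [injective_iff_map_eq_zero]
  intro g hg
  have h1 := ι_homog (hm_homog (le_refl g.totalDegree))
  rw [dh_hm, hg, mul_zero] at h1
  have h2 : hm g.totalDegree g = 0 := by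
    apply ι_inj.1
    rw [h1, ι, map_zero]
  rw [← dh_hm g.totalDegree g, h2, map_zero]

lemma ptIdeal_coprime {q q' : Fin 2 → ℂ} (h : q ≠ q') (a b : ℕ) :
    IsCoprime (ptIdeal q ^ a) (ptIdeal q' ^ b) := by
  apply IsCoprime.pow
  obtain ⟨i, hi⟩ : ∃ i, q i ≠ q' i := by
    by_contra! H
    exact h (funext H)
  rw [Ideal.isCoprime_iff_exists]
  refine ⟨C (q' i - q i)⁻¹ * (X i - C (q i)), ?_, C (q i - q' i)⁻¹ * (X i - C (q' i)), ?_, ?_⟩
  · rw [mem_ptIdeal]
    simp
  · rw [mem_ptIdeal]
    simp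
  · have h1 : q i - q' i ≠ 0 := sub_ne_zero.2 hi
    have h2 : (q' i - q i)⁻¹ = -(q i - q' i)⁻¹ := by
      rw [← neg_sub (q i) (q' i), inv_neg]
    rw [h2, C_neg]
    have h3 : (C (q i - q' i)⁻¹ * (C (q i) - C (q' i)) : A2) = 1 := by
      rw [← C_sub, ← C_mul, inv_mul_cancel₀ h1, C_1]
    linear_combination h3

lemma is36_q36 (i : (Fin 3 × Fin 3) × Bool × Bool) : Is36 (q36 i) := by
  have hom : om ^ 3 = 1 := w_cube om_eq
  have hsg : ∀ b : Bool, sgn b ^ 6 = 1 := fun b => by
    rw [show (6 : ℕ) = 2 * 3 from rfl, pow_mul, sgn_sq, one_pow]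
  have h6 : ∀ n : ℕ, (om ^ n) ^ 6 = 1 := fun n => by
    rw [← pow_mul, mul_comm, show 6 * n = 3 * (2 * n) by ring, pow_mul, hom, one_pow]
  constructor
  · simp only [q36, pre, r9, Matrix.cons_val_zero]
    rw [mul_pow, hsg, h6, one_mul]
  · simp only [q36, pre, r9, Matrix.cons_val_one, Matrix.cons_val_zero]
    rw [mul_pow, hsg, h6, one_mul]

end

end Pool.Agent.Lib.MP_d885f5.Sch
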