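import Mathlib
import Pool.Agent.Lib.MP_d885f5.Sch.ProjDom

/-!
The chart rings of `Proj` inside a field.
-/

open AlgebraicGeometry CategoryTheory TopologicalSpace Opposite HomogeneousLocalization

namespace Pool.Agent.Lib.MP_d885f5.Sch

noncomputable section

set_option linter.unusedSectionVars false

section

variable {R : Type} [CommRing R] [IsDomain R] [Algebra ℂ R] {𝒜 : ℕ → Submodule ℂ R}
  [GradedAlgebra 𝒜] (Q : Type) [Field Q] [Algebra R Q] [FaithfulSMul R Q]

lemma pow_unit {g : R} (hg : g ≠ 0) (d : Submonoid.powers g) : IsUnit (algebraMap R Q d) := by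
  rw [isUnit_iff_ne_zero]
  intro h
  obtain ⟨n, hn⟩ := d.2
  have hn' : g ^ n = (d : R) := hn
  have h2 := (map_eq_zero_iff _ (FaithfulSMul.algebraMap_injective R Q)).1 h
  rw [← hn'] at h2
  exact pow_ne_zero n hg h2

/-- degree zero fractions with denominator a power of `g`, as elements of `Q` -/
def muA {g : R} (hg : g ≠ 0) : Away 𝒜 g →+* Q :=
  (IsLocalization.lift (M := Submonoid.powers g) (S := Localization (Submonoid.powers g))
      (g := algebraMap R Q) (pow_unit Q hg)).comp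
    (algebraMap (Away 𝒜 g) (Localization (Submonoid.powers g)))

lemma muA_mk' {g : R} (hg : g ≠ 0) (f : NumDenSameDeg 𝒜 (Submonoid.powers g)) :
    muA Q hg (HomogeneousLocalization.mk f) = algebraMap R Q f.num / algebraMap R Q f.den := by
  rw [muA, RingHom.comp_apply, HomogeneousLocalization.algebraMap_apply,
    HomogeneousLocalization.val_mk, Localization.mk_eq_mk', IsLocalization.lift_mk'_spec,
    mul_div_cancel₀]
  exact (pow_unit Q hg ⟨f.den, f.den_mem⟩).ne_zero

lemma muA_mk {g : R} (hg : g ≠ 0) {d : ℕ} (hf : g ∈ 𝒜 d) (n : ℕ) (x : R) (hx : x ∈ 𝒜 (n • d)) :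
    muA Q hg (Away.mk 𝒜 hf n x hx) = algebraMap R Q x / algebraMap R Q g ^ n := by
  rw [← map_pow]
  exact muA_mk' Q hg _

lemma muA_zero {g : R} (hg : g ≠ 0) (c : 𝒜 0) :
    muA Q hg (fromZeroRingHom 𝒜 (Submonoid.powers g) c) = algebraMap R Q c := by
  have h := muA_mk' (𝒜 := 𝒜) Q hg ⟨0, c, 1, one_mem _⟩
  rw [show ((1 : 𝒜 0) : R) = 1 from rfl, map_one, div_one] at h
  exact h

lemma muA_injective {g : R} (hg : g ≠ 0) : Function.Injective (muA (𝒜 := 𝒜) Q hg) := by
  rw [muA, RingHom.coe_comp]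
  refine Function.Injective.comp ?_ (HomogeneousLocalization.val_injective _)
  rw [IsLocalization.lift_injective_iff]
  intro a b
  rw [(FaithfulSMul.algebraMap_injective R Q).eq_iff,
    (IsLocalization.injective (Localization (Submonoid.powers g))
      (powers_le_nonZeroDivisors_of_noZeroDivisors hg)).eq_iff]

variable (𝒜) in
/-- the chart ring as a subring of `Q` -/
def rngA {g : R} (hg : g ≠ 0) : Subring Q := (muA (𝒜 := 𝒜) Q hg).range

lemma mem_range_muA {g : R} (hg : g ≠ 0) {d : ℕ} (hf : g ∈ 𝒜 d) {q : Q} :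
    q ∈ rngA 𝒜 Q hg ↔ ∃ n, ∃ x ∈ 𝒜 (n * d),
      q = algebraMap R Q x / algebraMap R Q g ^ n := by
  constructor
  · rintro ⟨y, rfl⟩
    obtain ⟨n, a, ha, rfl⟩ := Away.mk_surjective 𝒜 hf y
    exact ⟨n, a, ha, muA_mk Q hg hf n a ha⟩
  · rintro ⟨n, a, ha, rfl⟩
    exact ⟨Away.mk 𝒜 hf n a ha, muA_mk Q hg hf n a ha⟩

/-- two injective ring homomorphisms to a field with the same range -/
lemma exists_equiv {E A K : Type} [CommRing E] [CommRing A] [Field K] (f : E →+* K) (g : A →+* K)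
    (hf : Function.Injective f) (hg : Function.Injective g) (h : f.range = g.range) :
    ∃ e : E ≃+* A, ∀ x, g (e x) = f x := by
  have h1 : ∀ x : E, ∃ a : A, g a = f x := fun x => by
    have : f x ∈ g.range := by
      rw [← h]
      exact ⟨x, rfl⟩
    exact this
  have h2 : ∀ a : A, ∃ x : E, f x = g a := fun x => by
    have : g x ∈ f.range := by
      rw [h]
      exact ⟨x, rfl⟩
    exact this
  choose φ hφ using h1
  choose ψ hψ using h2
  refine ⟨{ toFun := φ, invFun := ψ, left_inv := fun x => ?_, right_inv := fun a => ?_,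
            map_mul' := fun x y => ?_, map_add' := fun x y => ?_ }, hφ⟩
  · apply hf
    rw [hψ, hφ]
  · apply hg
    rw [hφ, hψ]
  · apply hg
    rw [map_mul, hφ, hφ, hφ, map_mul]
  · apply hg
    rw [map_add, hφ, hφ, hφ, map_add]

variable (𝒜) in
/-- the constants in a chart ring -/
def cstAway (g : R) : ℂ →+* Away 𝒜 g :=
  (fromZeroRingHom 𝒜 (Submonoid.powers g)).comp (algebraMap ℂ (𝒜 0))

lemma muA_cst [Algebra ℂ Q] [IsScalarTower ℂ R Q] {g : R} (hg : g ≠ 0) (c : ℂ) :
    muA Q hg (cstAway 𝒜 g c) = algebraMap ℂ Q c := by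
  rw [cstAway, RingHom.comp_apply, muA_zero]
  change algebraMap R Q (algebraMap ℂ R c) = _
  rw [← IsScalarTower.algebraMap_apply]

lemma awayι_toC {g : R} {d : ℕ} (hf : g ∈ 𝒜 d) (hd : 0 < d) :
    Proj.awayι 𝒜 g hf hd ≫ toC 𝒜 = Spec.map (CommRingCat.ofHom (cstAway 𝒜 g)) := by
  rw [toC, Proj.awayι_toSpecZero_assoc, ← Spec.map_comp]
  rfl

lemma cst_mem_rngA [Algebra ℂ Q] [IsScalarTower ℂ R Q] {g : R} (hg : g ≠ 0) (c : ℂ) :
    algebraMap ℂ Q c ∈ rngA 𝒜 Q hg := ⟨cstAway 𝒜 g c, muA_cst Q hg c⟩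

/-- the range of a homomorphism to a field, as a subring -/
def rngB {E K : Type} [CommRing E] [Field K] [Algebra ℂ E] [Algebra ℂ K] (β : E →ₐ[ℂ] K) :
    Subring K := β.toRingHom.range

lemma mem_rngB {E K : Type} [CommRing E] [Field K] [Algebra ℂ E] [Algebra ℂ K] {β : E →ₐ[ℂ] K}
    {q : K} : q ∈ rngB β ↔ ∃ x, β x = q := Iff.rfl

lemma smooth_chart [Algebra ℂ Q] [IsScalarTower ℂ R Q] {g : R} (hg : g ≠ 0)
    {E : Type} [CommRing E] [Algebra ℂ E] [hE : Algebra.Smooth ℂ E] (β : E →ₐ[ℂ] Q)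
    (hβ : Function.Injective β) (hr : rngB β = rngA 𝒜 Q hg) :
    (cstAway 𝒜 g).Smooth := by
  obtain ⟨e, he⟩ := exists_equiv β.toRingHom (muA (𝒜 := 𝒜) Q hg) hβ (muA_injective Q hg) hr
  have h1 : cstAway 𝒜 g = e.toRingHom.comp (algebraMap ℂ E) := by
    refine RingHom.ext fun c => ?_
    apply muA_injective Q hg
    rw [muA_cst]
    exact ((he (algebraMap ℂ E c)).trans (β.commutes c)).symm
  rw [h1]
  exact (RingHom.smooth_algebraMap.2 hE).comp (RingHom.Smooth.of_bijective e.bijective)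

end

end

end Pool.Agent.Lib.MP_d885f5.Sch
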