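import Mathlib
import Pool.Agent.Lib.MP_d885f5.Core

/-!
Smoothness of the rings `ℂ[P, Q, T] / (γ T - γ')`.
-/

open MvPolynomial

namespace Pool.Agent.Lib.MP_d885f5.Sch

noncomputable section

/-- the equation `γ T - γ'` -/
def eqn (γ γ' : A2) : Polynomial A2 := Polynomial.C γ * Polynomial.X - Polynomial.C γ'

/-- the chart ring -/
abbrev ChR (γ γ' : A2) : Type := Polynomial A2 ⧸ Ideal.span {eqn γ γ'}

/-- the homomorphism given by three elements -/
def evB {B : Type} [CommRing B] [Algebra ℂ B] (b : Fin 2 → B) (t : B) : Polynomial A2 →ₐ[ℂ] B :=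
  { Polynomial.eval₂RingHom (aeval b : A2 →ₐ[ℂ] B).toRingHom t with
    commutes' := fun r => by
      change Polynomial.eval₂ (aeval b : A2 →ₐ[ℂ] B).toRingHom t
        (Polynomial.C (algebraMap ℂ A2 r)) = _
      rw [Polynomial.eval₂_C]
      exact (aeval b : A2 →ₐ[ℂ] B).commutes r }

lemma evB_C {B : Type} [CommRing B] [Algebra ℂ B] (b : Fin 2 → B) (t : B) (a : A2) :
    evB b t (Polynomial.C a) = aeval b a :=
  Polynomial.eval₂_C (aeval b : A2 →ₐ[ℂ] B).toRingHom t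

lemma evB_X {B : Type} [CommRing B] [Algebra ℂ B] (b : Fin 2 → B) (t : B) :
    evB b t Polynomial.X = t :=
  Polynomial.eval₂_X (aeval b : A2 →ₐ[ℂ] B).toRingHom t

lemma hom_ext_pol {B : Type} [CommRing B] [Algebra ℂ B] {f g : Polynomial A2 →ₐ[ℂ] B}
    (h : ∀ i, f (Polynomial.C (X i)) = g (Polynomial.C (X i)))
    (hX : f Polynomial.X = g Polynomial.X) : f = g := by
  apply Polynomial.algHom_ext' _ hX
  apply MvPolynomial.algHom_ext
  exact h

/-- infinitesimal lifting for `γ T = γ'` -/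
def Lifts (γ γ' : A2) : Prop :=
  ∀ (B : Type) [CommRing B] [Algebra ℂ B] (b : Fin 2 → B) (t e : B),
    e = aeval b γ * t - aeval b γ' → e * e = 0 →
      ∃ (b' : Fin 2 → B) (t' : B), (∀ i, ∃ r, b' i = b i + r * e) ∧ (∃ r, t' = t + r * e) ∧
        aeval b' γ * t' - aeval b' γ' = 0

lemma formallySmooth_ChR {γ γ' : A2} (H : Lifts γ γ') : Algebra.FormallySmooth ℂ (ChR γ γ') := by
  apply Algebra.FormallySmooth.of_comp_surjective
  intro B _ _ I hI f
  let q : Polynomial A2 →ₐ[ℂ] ChR γ γ' := Ideal.Quotient.mkₐ ℂ _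
  have hsurj : Function.Surjective (Ideal.Quotient.mkₐ ℂ I) := Ideal.Quotient.mkₐ_surjective ℂ I
  choose b hb using fun i : Fin 2 => hsurj (f (q (Polynomial.C (X i))))
  obtain ⟨t, ht⟩ := hsurj (f (q Polynomial.X))
  obtain ⟨e, he⟩ : ∃ e, e = aeval b γ * t - aeval b γ' := ⟨_, rfl⟩
  have h1 : (Ideal.Quotient.mkₐ ℂ I).comp (evB b t) = f.comp q := by
    apply hom_ext_pol
    · intro i
      rw [AlgHom.comp_apply, AlgHom.comp_apply, evB_C, aeval_X, hb]
    · rw [AlgHom.comp_apply, AlgHom.comp_apply, evB_X, ht]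
  have he2 : evB b t (eqn γ γ') = e := by
    rw [eqn, map_sub, map_mul, evB_C, evB_C, evB_X, he]
  have heI : e ∈ I := by
    have h2 : f (q (eqn γ γ')) = 0 := by
      have : q (eqn γ γ') = 0 :=
        Ideal.Quotient.eq_zero_iff_mem.2 (Ideal.subset_span (Set.mem_singleton _))
      rw [this, map_zero]
    have h3 := DFunLike.congr_fun h1 (eqn γ γ')
    rw [AlgHom.comp_apply, AlgHom.comp_apply, h2, he2] at h3
    exact Ideal.Quotient.eq_zero_iff_mem.1 h3
  have hee : e * e = 0 := by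
    have h2 : e * e ∈ I ^ 2 := by
      rw [pow_two]
      exact Ideal.mul_mem_mul heI heI
    rw [hI] at h2
    exact (Submodule.mem_bot _).1 h2
  obtain ⟨b', t', hb', ⟨r, hr⟩, h0⟩ := H B b t e he hee
  have hz : ∀ a ∈ Ideal.span {eqn γ γ'}, evB b' t' a = 0 := by
    intro a ha
    obtain ⟨c, rfl⟩ := Ideal.mem_span_singleton.1 ha
    rw [map_mul, eqn, map_sub, map_mul, evB_C, evB_C, evB_X, h0, zero_mul]
  refine ⟨Ideal.Quotient.liftₐ _ (evB b' t') hz, ?_⟩
  apply Ideal.Quotient.algHom_ext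
  have key : ∀ x y : B, (∃ r, x = y + r * e) →
      Ideal.Quotient.mkₐ ℂ I x = Ideal.Quotient.mkₐ ℂ I y := by
    rintro x y ⟨r, rfl⟩
    rw [map_add, (Ideal.Quotient.eq_zero_iff_mem (I := I) (a := r * e)).2 (I.mul_mem_left _ heI) |>
      fun h => (show Ideal.Quotient.mkₐ ℂ I (r * e) = 0 from h), add_zero]
  apply hom_ext_pol
  · intro i
    change Ideal.Quotient.mkₐ ℂ I (evB b' t' (Polynomial.C (X i))) = f (q (Polynomial.C (X i)))
    rw [evB_C, aeval_X, ← hb, key _ _ (hb' i)]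
  · change Ideal.Quotient.mkₐ ℂ I (evB b' t' Polynomial.X) = f (q Polynomial.X)
    rw [evB_X, ← ht, key _ _ ⟨r, hr⟩]

lemma smooth_ChR {γ γ' : A2} (H : Lifts γ γ') : Algebra.Smooth ℂ (ChR γ γ') where
  formallySmooth := formallySmooth_ChR H
  finitePresentation := Algebra.FinitePresentation.quotient ⟨{eqn γ γ'}, by simp⟩

lemma sixth {B : Type} [CommRing B] [Algebra ℂ B] {e : B} (he : e * e = 0) :
    (1 + algebraMap ℂ B (1 / 6) * e) ^ 6 = 1 + e := by
  have h6 : (6 : B) * algebraMap ℂ B (1 / 6) = 1 := by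
    rw [← map_ofNat (algebraMap ℂ B) 6, ← map_mul]
    norm_num
  obtain ⟨s, hs⟩ : ∃ s, s = algebraMap ℂ B (1 / 6) := ⟨_, rfl⟩
  rw [← hs] at h6 ⊢
  linear_combination e * h6 + (15 * s ^ 2 + 20 * s ^ 3 * e + 15 * s ^ 4 * e ^ 2 +
    6 * s ^ 5 * e ^ 3 + s ^ 6 * e ^ 4) * he

lemma sixth' {B : Type} [CommRing B] [Algebra ℂ B] {e : B} (he : e * e = 0) :
    (1 - algebraMap ℂ B (1 / 6) * e) ^ 6 = 1 - e := by
  have h := sixth (e := -e) (by linear_combination he)
  rw [show (1 - algebraMap ℂ B (1 / 6) * e) = 1 + algebraMap ℂ B (1 / 6) * -e by ring, h]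
  ring

lemma lifts1 : Lifts (X 0 ^ 6 - 1) (X 1 ^ 6 - 1) := by
  intro B _ _ b t e he hee
  obtain ⟨s, hs⟩ : ∃ s, s = algebraMap ℂ B (1 / 6) := ⟨_, rfl⟩
  have h6 := sixth hee
  rw [← hs] at h6
  refine ⟨![b 0, b 1 * (1 + s * e)], t + t * e, ?_, ⟨t, rfl⟩, ?_⟩
  · intro i
    fin_cases i
    · exact ⟨0, by simp⟩
    · exact ⟨b 1 * s, by simp; ring⟩
  · simp only [map_sub, map_pow, aeval_X, map_one] at he ⊢
    simp only [Matrix.cons_val_zero, Matrix.cons_val_one]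
    rw [mul_pow, h6]
    linear_combination hee - (1 + e) * he

lemma lifts2 : Lifts (1 - X 1 ^ 6) (X 0 ^ 6 - X 1 ^ 6) := by
  intro B _ _ b t e he hee
  obtain ⟨s, hs⟩ : ∃ s, s = algebraMap ℂ B (1 / 6) := ⟨_, rfl⟩
  have h6 := sixth hee
  rw [← hs] at h6
  refine ⟨![b 0 * (1 + s * e), b 1], t + (t - 1) * e, ?_, ⟨t - 1, rfl⟩, ?_⟩
  · intro i
    fin_cases i
    · exact ⟨b 0 * s, by simp; ring⟩
    · exact ⟨0, by simp⟩
  · simp only [map_sub, map_pow, aeval_X, map_one] at he ⊢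
    simp only [Matrix.cons_val_zero, Matrix.cons_val_one]
    rw [mul_pow, h6]
    linear_combination hee - (1 + e) * he

lemma lifts3 : Lifts (X 0 ^ 6 - X 1 ^ 6) (1 - X 1 ^ 6) := by
  intro B _ _ b t e he hee
  obtain ⟨s, hs⟩ : ∃ s, s = algebraMap ℂ B (1 / 6) := ⟨_, rfl⟩
  have h6 := sixth' hee
  rw [← hs] at h6
  refine ⟨![b 0 * (1 - s * e), b 1 * (1 - s * e)], t, ?_, ⟨0, by simp⟩, ?_⟩
  · intro i
    fin_cases i
    · exact ⟨-(b 0 * s), by simp; ring⟩
    · exact ⟨-(b 1 * s), by simp; ring⟩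
  · simp only [map_sub, map_pow, aeval_X, map_one] at he ⊢
    simp only [Matrix.cons_val_zero, Matrix.cons_val_one]
    rw [mul_pow, mul_pow, h6]
    linear_combination -hee - (1 - e) * he

end

end Pool.Agent.Lib.MP_d885f5.Sch
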