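import Mathlib
import Pool.Agent.Lib.MP_d885f5.Sch.SmoothQ

/-!
The kernel of `ℂ[P, Q][T] → K`, `T ↦ γ'/γ`.
-/

open MvPolynomial

namespace Pool.Agent.Lib.MP_d885f5.Sch

noncomputable section

lemma ker_eqn {K : Type} [Field K] (j : A2 →+* K) (hj : Function.Injective j) {γ γ' : A2}
    (hγ : γ ≠ 0) (hrel : ∀ a n, γ ∣ a * γ' ^ n → γ ∣ a) :
    ∀ (n : ℕ) (P : Polynomial A2), P.natDegree ≤ n →
      Polynomial.eval₂ j (j γ' / j γ) P = 0 → eqn γ γ' ∣ P := by
  have hjγ : j γ ≠ 0 := by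
    rw [← map_zero j]
    exact fun h => hγ (hj h)
  have h0 : Polynomial.eval₂ j (j γ' / j γ) (eqn γ γ') = 0 := by
    rw [eqn, Polynomial.eval₂_sub, Polynomial.eval₂_mul, Polynomial.eval₂_C, Polynomial.eval₂_C,
      Polynomial.eval₂_X]
    field_simp
    ring
  intro n
  induction n with
  | zero =>
    intro P hP h
    rw [Polynomial.eq_C_of_natDegree_le_zero hP] at h ⊢
    rw [Polynomial.eval₂_C] at h
    have h1 : P.coeff 0 = 0 := hj (by rw [h, map_zero])
    rw [h1, Polynomial.C_0]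
    exact dvd_zero _
  | succ n ih =>
    intro P hP h
    have h1 := h
    rw [Polynomial.eval₂_eq_sum_range' _ (show P.natDegree < n + 1 + 1 by omega),
      Finset.sum_range_succ] at h1
    have h2 : γ ∣ P.coeff (n + 1) * γ' ^ (n + 1) := by
      refine ⟨-∑ i ∈ Finset.range (n + 1), P.coeff i * γ' ^ i * γ ^ (n - i), ?_⟩
      apply hj
      have h3 := congrArg (fun z => z * j γ ^ (n + 1)) h1
      simp only [zero_mul, add_mul, Finset.sum_mul] at h3
      rw [map_mul, map_mul, map_neg, map_sum, map_pow, mul_neg, Finset.mul_sum]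
      have h4 : j (P.coeff (n + 1)) * (j γ' / j γ) ^ (n + 1) * j γ ^ (n + 1) =
          j (P.coeff (n + 1)) * j γ' ^ (n + 1) := by
        rw [div_pow]
        field_simp
      rw [h4] at h3
      have h5 : ∀ i ∈ Finset.range (n + 1), j (P.coeff i) * (j γ' / j γ) ^ i * j γ ^ (n + 1) =
          j γ * j (P.coeff i * γ' ^ i * γ ^ (n - i)) := by
        intro i hi
        rw [Finset.mem_range] at hi
        have e : n + 1 = i + ((n - i) + 1) := by omega
        rw [e, pow_add, pow_add, map_mul, map_mul, map_pow, map_pow, div_pow, pow_one]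
        field_simp
      rw [Finset.sum_congr rfl h5] at h3
      linear_combination h3
    obtain ⟨r, hr⟩ := hrel _ _ h2
    have h3 : eqn γ γ' ∣ P - Polynomial.C r * Polynomial.X ^ n * eqn γ γ' := by
      apply ih
      · have h4 : Polynomial.C r * Polynomial.X ^ n * eqn γ γ' =
            Polynomial.monomial (n + 1) (P.coeff (n + 1)) - Polynomial.monomial n (r * γ') := by
          rw [hr, ← Polynomial.C_mul_X_pow_eq_monomial, ← Polynomial.C_mul_X_pow_eq_monomial, eqn,
            map_mul, map_mul]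
          ring
        rw [h4, Polynomial.natDegree_le_iff_coeff_eq_zero]
        intro N hN
        rw [Polynomial.coeff_sub, Polynomial.coeff_sub, Polynomial.coeff_monomial,
          Polynomial.coeff_monomial, if_neg (show n ≠ N by omega)]
        by_cases hN1 : n + 1 = N
        · rw [if_pos hN1, hN1]
          ring
        · rw [if_neg hN1, Polynomial.coeff_eq_zero_of_natDegree_lt (by omega)]
          ring
      · rw [Polynomial.eval₂_sub, Polynomial.eval₂_mul, h, h0]
        ring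
    have h4 := dvd_add h3 (dvd_mul_left (eqn γ γ') (Polynomial.C r * Polynomial.X ^ n))
    rwa [sub_add_cancel] at h4

/-- irreducible divisors of `Q⁶ - 1` -/
lemma factor_Q {p : A2} (hp : Irreducible p) (h : p ∣ X 1 ^ 6 - 1) :
    ∃ ζ : ℂ, ζ ^ 6 = 1 ∧ (X 1 - C ζ : A2) ∣ p := by
  have h1 := Polynomial.X_pow_sub_one_eq_prod (show 0 < 6 by norm_num)
    (Complex.isPrimitiveRoot_exp 6 (by norm_num))
  have h2 := congrArg (Polynomial.aeval (X 1 : A2)) h1
  rw [map_sub, map_pow, Polynomial.aeval_X, map_one, map_prod] at h2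
  rw [h2] at h
  obtain ⟨ζ, hζ, h3⟩ := hp.prime.exists_mem_finset_dvd h
  rw [map_sub, Polynomial.aeval_X, Polynomial.aeval_C] at h3
  refine ⟨ζ, (Polynomial.mem_nthRootsFinset (by norm_num) _).1 hζ, ?_⟩
  change p ∣ X 1 - C ζ at h3
  obtain ⟨q, hq⟩ := h3
  have hne : (X 1 - C ζ : A2) ≠ 0 := by
    intro h
    have h5 := congrArg (eval (fun _ => ζ + 1)) h
    rw [map_sub, eval_X, eval_C, map_zero, add_sub_cancel_left] at h5
    exact one_ne_zero h5
  have hp0 : p ≠ 0 := hp.ne_zero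
  have hq0 : q ≠ 0 := by
    rintro rfl
    rw [mul_zero] at hq
    exact hne hq
  have hdeg : p.totalDegree + q.totalDegree ≤ 1 := by
    rw [← totalDegree_mul_of_isDomain hp0 hq0, ← hq]
    refine (totalDegree_sub _ _).trans ?_
    rw [totalDegree_X, totalDegree_C]
    simp
  have hpd : p.totalDegree ≠ 0 := by
    intro h0
    apply hp.not_isUnit
    rw [isUnit_iff_totalDegree_of_isReduced]
    refine ⟨?_, h0⟩
    rw [isUnit_iff_ne_zero]
    intro h2
    apply hp.ne_zero
    rw [totalDegree_eq_zero_iff_eq_C.1 h0, h2, C_0]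
  have hqd : q.totalDegree = 0 := by omega
  have hqu : IsUnit q := by
    rw [isUnit_iff_totalDegree_of_isReduced]
    refine ⟨?_, hqd⟩
    rw [isUnit_iff_ne_zero]
    intro h2
    apply hq0
    rw [totalDegree_eq_zero_iff_eq_C.1 hqd, h2, C_0]
  rw [hq]
  exact hqu.mul_right_dvd.2 dvd_rfl

/-- `γ` and `γ'` are coprime -/
def Cop (γ γ' : A2) : Prop := ∀ a n, γ ∣ a * γ' ^ n → γ ∣ a

lemma cop_of {γ γ' : A2} (h : ∀ p, Irreducible p → p ∣ γ → ¬ p ∣ γ') (h0 : γ' ≠ 0) : Cop γ γ' := by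
  intro a n hd
  have h1 : IsRelPrime γ γ' := by
    intro d hd1 hd2
    by_contra hu
    obtain ⟨p, hp, hpd⟩ := WfDvdMonoid.exists_irreducible_factor hu (by
      rintro rfl
      exact h0 (zero_dvd_iff.1 hd2))
    exact h p hp (hpd.trans hd1) (hpd.trans hd2)
  exact (h1.pow_right (n := n)).dvd_of_dvd_mul_right hd

lemma cop1 : Cop (X 0 ^ 6 - 1) (X 1 ^ 6 - 1) := by
  apply cop_of
  · intro p hp h1 h2
    obtain ⟨ζ, hζ, h3⟩ := factor_Q hp h2
    obtain ⟨r, hr⟩ := h3.trans h1
    have h4 := congrArg (eval ![0, ζ]) hr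
    simp [hζ] at h4
  · intro h
    have := congrArg (eval 0) h
    simp at this

lemma cop2 : Cop (1 - X 1 ^ 6) (X 0 ^ 6 - X 1 ^ 6) := by
  apply cop_of
  · intro p hp h1 h2
    have h1' : p ∣ X 1 ^ 6 - 1 := by
      rw [← neg_sub]
      exact h1.neg_right
    obtain ⟨ζ, hζ, h3⟩ := factor_Q hp h1'
    obtain ⟨r, hr⟩ := h3.trans h2
    have h4 := congrArg (eval ![0, ζ]) hr
    simp [hζ] at h4
  · intro h
    have := congrArg (eval ![1, 0]) h
    simp at this

lemma cop3 : Cop (X 0 ^ 6 - X 1 ^ 6) (1 - X 1 ^ 6) := by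
  apply cop_of
  · intro p hp h1 h2
    have h1' : p ∣ X 1 ^ 6 - 1 := by
      rw [← neg_sub]
      exact h2.neg_right
    obtain ⟨ζ, hζ, h3⟩ := factor_Q hp h1'
    obtain ⟨r, hr⟩ := h3.trans h1
    have h4 := congrArg (eval ![0, ζ]) hr
    simp [hζ] at h4
  · intro h
    have := congrArg (eval 0) h
    simp at this

end

end Pool.Agent.Lib.MP_d885f5.Sch
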