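import Mathlib
import Pool.Agent.Lib.MP_d885f5.Sch.Aux1
import Pool.Agent.Lib.MP_d885f5.Sch.AwayG
import Pool.Agent.Lib.MP_d885f5.Sch.Ker

/-!
The six affine charts of `X`.
-/

open MvPolynomial DirectSum AlgebraicGeometry TopologicalSpace CategoryTheory Opposite
open HomogeneousLocalization (Away)

namespace Pool.Agent.Lib.MP_d885f5.Sch

noncomputable section

attribute [local instance] MvPolynomial.gradedAlgebra

/-- polynomials in `x_p/x_v, x_q/x_v` -/
def jv (v p q : Fin 3) : A2 →ₐ[ℂ] QQ := aeval ![ι (X p) / ι (X v), ι (X q) / ι (X v)]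

lemma jv_inj {v p q : Fin 3} (σ : Fin 3 → Fin 3) (hσ : Function.Injective σ) (h0 : σ 0 = p)
    (h1 : σ 1 = q) (h2 : σ 2 = v) : Function.Injective (jv v p q) := by
  obtain ⟨ρ, hρ⟩ : ∃ ρ : QQ →+* QQ, ∀ a : S3, ρ (ι a) = ι (rename σ a) := by
    have hinj : Function.Injective ((algebraMap S3 QQ).comp
        (rename σ : S3 →ₐ[ℂ] S3).toRingHom) :=
      (IsFractionRing.injective S3 QQ).comp (rename_injective σ hσ)
    exact ⟨IsFractionRing.lift hinj, fun a => IsFractionRing.lift_algebraMap hinj a⟩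
  have key : ∀ a, jv v p q a = ρ (jj a) := by
    intro a
    have hC : ∀ c : ℂ, algebraMap ℂ QQ c = ι (C c) := fun _ => rfl
    induction a using MvPolynomial.induction_on with
    | C c => rw [algHom_C, algHom_C, hC, hρ, rename_C]
    | add a b ha hb => rw [map_add, map_add, map_add, ha, hb]
    | mul_X a i ha =>
      rw [map_mul, map_mul, map_mul, ha]
      congr 1
      rw [jv, jj, aeval_X, aeval_X]
      fin_cases i
      · change ι (X p) / ι (X v) = ρ (ι (X 0) / ι (X 2))
        rw [map_div₀, hρ, hρ, rename_X, rename_X, h0, h2]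
      · change ι (X q) / ι (X v) = ρ (ι (X 1) / ι (X 2))
        rw [map_div₀, hρ, hρ, rename_X, rename_X, h1, h2]
  intro a b hab
  rw [key, key] at hab
  exact jj_inj (ρ.injective hab)

section

variable {v p q : Fin 3} (hv : ∀ i, i = v ∨ i = p ∨ i = q) (hinj : Function.Injective (jv v p q))
  {c c' : S3} (hc : c ∈ LL) (hc' : c' ∈ LL) (hcc : LL = Submodule.span ℂ {c, c'}) (hc0 : c ≠ 0)
  {γ γ' : A2} (e1 : ι c = ι (X v) ^ 6 * jv v p q γ) (e2 : ι c' = ι (X v) ^ 6 * jv v p q γ')
  (cop : Cop γ γ') (lif : Lifts γ γ')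

/-- the generator `x_v c` -/
abbrev gvc (v : Fin 3) {c : S3} (hc : c ∈ LL) : Rx := ⟨X v * c, gen_Rx v hc⟩

lemma gvc_mem (v : Fin 3) {c : S3} (hc : c ∈ LL) : gvc v hc ∈ gr 1 := by
  change X v * c ∈ M1 ^ 1
  rw [pow_one]
  exact gen_mem v hc

lemma gvc_ne (v : Fin 3) {c : S3} (hc : c ∈ LL) (hc0 : c ≠ 0) : gvc v hc ≠ 0 :=
  fun h => mul_ne_zero (X_ne_zero v) hc0 (congrArg Subtype.val h)

include hc0 e1 in
lemma γ_ne : γ ≠ 0 := by
  rintro rfl
  rw [map_zero, mul_zero] at e1
  exact ι_ne hc0 e1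

variable (v p q c c') in
/-- the map from the polynomial ring -/
def bet0 : Polynomial A2 →ₐ[ℂ] QQ := evB ![ι (X p) / ι (X v), ι (X q) / ι (X v)] (ι c' / ι c)

lemma bet0_C (a : A2) : bet0 v p q c c' (Polynomial.C a) = jv v p q a := evB_C _ _ _

lemma bet0_X : bet0 v p q c c' Polynomial.X = ι c' / ι c := evB_X _ _

include e1 e2 in
lemma quot_eq : jv v p q γ' / jv v p q γ = ι c' / ι c := by
  have hz : ι (X v) ≠ 0 := ι_ne (X_ne_zero _)
  rw [e1, e2, mul_div_mul_left _ _ (pow_ne_zero 6 hz)]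

include hc0 e1 e2 in
lemma bet0_eqn : bet0 v p q c c' (eqn γ γ') = 0 := by
  have h := γ_ne hc0 e1
  have hz : ι (X v) ≠ 0 := ι_ne (X_ne_zero _)
  have hc' := ι_ne hc0
  rw [eqn, map_sub, map_mul, bet0_C, bet0_C, bet0_X]
  have h3 : jv v p q γ ≠ 0 := by
    intro h4
    rw [h4, mul_zero] at e1
    exact hc' e1
  rw [← quot_eq e1 e2]
  field_simp
  ring

/-- the map from the chart ring -/
def bet : ChR γ γ' →ₐ[ℂ] QQ := Ideal.Quotient.liftₐ _ (bet0 v p q c c') (fun a ha => by
  obtain ⟨r, rfl⟩ := Ideal.mem_span_singleton.1 ha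
  rw [map_mul, bet0_eqn hc0 e1 e2, zero_mul])

include hinj cop in
lemma bet_inj : Function.Injective (bet hc0 e1 e2) := by
  rw [injective_iff_map_eq_zero]
  intro x hx
  obtain ⟨P, rfl⟩ := Ideal.Quotient.mk_surjective x
  apply Ideal.Quotient.eq_zero_iff_mem.2
  apply Ideal.mem_span_singleton.2
  refine ker_eqn (jv v p q).toRingHom hinj (γ_ne hc0 e1) cop P.natDegree P le_rfl ?_
  have h1 : bet0 v p q c c' P = 0 := hx
  have h2 : Polynomial.eval₂ (jv v p q).toRingHom (ι c' / ι c) P = 0 := h1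
  have h3 : (jv v p q).toRingHom γ' / (jv v p q).toRingHom γ = ι c' / ι c := quot_eq e1 e2
  rw [h3]
  exact h2

include hv hc hc' hcc in
lemma bet_range : rngB (E := ChR γ γ') (K := QQ) (bet hc0 e1 e2) =
    rngA gr QQ (gvc_ne v hc hc0) := by
  have hz : ι (X v) ≠ 0 := ι_ne (X_ne_zero _)
  have hcn := ι_ne hc0
  have hgen : algebraMap Rx QQ (gvc v hc) = ι (X v) * ι c := ι_map_mul _ _
  apply le_antisymm
  · rintro _ ⟨x, rfl⟩
    obtain ⟨P, rfl⟩ := Ideal.Quotient.mk_surjective x
    change bet0 v p q c c' P ∈ _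
    have hcst : ∀ a : ℂ, algebraMap ℂ QQ a ∈ rngA gr QQ (gvc_ne v hc hc0) :=
      fun a => cst_mem_rngA QQ _ a
    have hX : ∀ i, ι (X i) / ι (X v) ∈ rngA gr QQ (gvc_ne v hc hc0) := by
      intro i
      rw [mem_range_muA QQ _ (gvc_mem v hc)]
      refine ⟨1, gvc i hc, gvc_mem i hc, ?_⟩
      rw [pow_one, hgen]
      change _ = ι (X i * c) / _
      rw [ι_map_mul]
      field_simp
    have hT : ι c' / ι c ∈ rngA gr QQ (gvc_ne v hc hc0) := by
      rw [mem_range_muA QQ _ (gvc_mem v hc)]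
      refine ⟨1, gvc v hc', gvc_mem v hc', ?_⟩
      rw [pow_one, hgen]
      change _ = ι (X v * c') / _
      rw [ι_map_mul]
      field_simp
    have hjv : ∀ a, jv v p q a ∈ rngA gr QQ (gvc_ne v hc hc0) := by
      intro a
      induction a using MvPolynomial.induction_on with
      | C c => rw [algHom_C]; exact hcst c
      | add a b ha hb => rw [map_add]; exact add_mem ha hb
      | mul_X a i ha =>
        rw [map_mul]
        refine mul_mem ha ?_
        rw [jv, aeval_X]
        fin_cases i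
        · exact hX p
        · exact hX q
    induction P using Polynomial.induction_on' with
    | add P Q hP hQ => rw [map_add]; exact add_mem hP hQ
    | monomial n a =>
      rw [← Polynomial.C_mul_X_pow_eq_monomial, map_mul, map_pow, bet0_C, bet0_X]
      exact mul_mem (hjv a) (pow_mem hT n)
  · intro y hy
    rw [mem_range_muA QQ _ (gvc_mem v hc)] at hy
    obtain ⟨n, r, hr, rfl⟩ := hy
    rw [mul_one] at hr
    rw [hgen]
    have hr' : (r : S3) ∈ M1 ^ n := hr
    change ι (r : S3) / _ ∈ _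
    obtain ⟨r', hr''⟩ : ∃ r' : S3, r' = r := ⟨_, rfl⟩
    rw [← hr''] at hr' ⊢
    clear hr hr''
    have hC : ∀ a : A2, jv v p q a ∈ rngB (E := ChR γ γ') (K := QQ) (bet hc0 e1 e2) := fun a =>
      ⟨Ideal.Quotient.mk _ (Polynomial.C a), bet0_C a⟩
    have hT : ι c' / ι c ∈ rngB (E := ChR γ γ') (K := QQ) (bet hc0 e1 e2) :=
      ⟨Ideal.Quotient.mk _ Polynomial.X, bet0_X⟩
    have hX : ∀ i, ι (X i) / ι (X v) ∈ rngB (E := ChR γ γ') (K := QQ) (bet hc0 e1 e2) := by
      intro i
      rcases hv i with rfl | rfl | rfl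
      · rw [div_self hz]
        exact one_mem _
      · have := hC (X 0)
        rwa [jv, aeval_X] at this
      · have := hC (X 1)
        rwa [jv, aeval_X] at this
    have hl : ∀ l ∈ ({c, c'} : Set S3), ι l / ι c ∈ rngB (E := ChR γ γ') (K := QQ) (bet hc0 e1 e2) := by
      rintro l (rfl | rfl)
      · rw [div_self hcn]
        exact one_mem _
      · exact hT
    have h1 : ∀ r ∈ M1, ι r / (ι (X v) * ι c) ∈ rngB (E := ChR γ γ') (K := QQ) (bet hc0 e1 e2) := by
      intro r hr
      rw [M1, homogeneousSubmodule_one_eq_span_X, hcc, Submodule.span_mul_span] at hr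
      induction hr using Submodule.span_induction with
      | mem y hy =>
        obtain ⟨_, ⟨i, rfl⟩, l, hl', rfl⟩ := hy
        change ι (X i * l) / _ ∈ _
        rw [ι_map_mul, mul_div_mul_comm]
        exact mul_mem (hX i) (hl l hl')
      | zero => rw [ι, map_zero, zero_div]; exact zero_mem _
      | add y z _ _ hy hz =>
        rw [ι, map_add, add_div]
        exact add_mem hy hz
      | smul a y _ hy =>
        rw [smul_eq_C_mul, ι_map_mul, mul_div_assoc]
        refine mul_mem ?_ hy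
        have := hC (C a)
        rwa [algHom_C] at this
    induction n generalizing r' with
    | zero =>
      rw [pow_zero] at hr' ⊢
      obtain ⟨a, ha⟩ := Submodule.mem_one.1 hr'
      rw [div_one, ← ha]
      have := hC (C a)
      rwa [algHom_C] at this
    | succ n ih =>
      rw [pow_succ] at hr'
      induction hr' using Submodule.mul_induction_on' with
      | mem_mul_mem a ha b hb =>
        rw [ι_map_mul, pow_succ, mul_div_mul_comm]
        exact mul_mem (ih a ha) (h1 b hb)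
      | add y _ z _ hy hz =>
        rw [ι, map_add, add_div]
        exact add_mem hy hz

include hv hinj hc hc' hcc hc0 e1 e2 cop lif in
lemma chart_smooth : (cstAway gr (gvc v hc)).Smooth := by
  have := smooth_ChR lif
  exact smooth_chart (E := ChR γ γ') QQ (gvc_ne v hc hc0) (bet hc0 e1 e2) (bet_inj hinj hc0 e1 e2 cop)
    (bet_range hv hc hc' hcc hc0 e1 e2)

end

end

end Pool.Agent.Lib.MP_d885f5.Sch
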