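import Mathlib
import Pool.Agent.Lib.MP_d885f5.Sch.AwayG

/-!
A graded surjection gives a closed immersion of `Proj`.
-/

open AlgebraicGeometry CategoryTheory TopologicalSpace Opposite HomogeneousLocalization
open HomogeneousIdeal Graded

namespace Pool.Agent.Lib.MP_d885f5.Sch

noncomputable section

set_option linter.unusedSectionVars false

section

variable {A B : Type} [CommRing A] [CommRing B] [IsDomain A] [IsDomain B] [Algebra ℂ A] [Algebra ℂ B]
  {𝒜 : ℕ → Submodule ℂ A} {ℬ : ℕ → Submodule ℂ B} [GradedAlgebra 𝒜] [GradedAlgebra ℬ]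
  (f : 𝒜 →+*ᵍ ℬ) (hf : ℬ₊ ≤ 𝒜₊.map f) (hs : ∀ n, ∀ y ∈ ℬ n, ∃ x ∈ 𝒜 n, f x = y)

include hs in
lemma awayMap_surj {s : A} {d : ℕ} (hsd : s ∈ 𝒜 d) : Function.Surjective (Away.map f s) := by
  intro y
  obtain ⟨n, b, hb, rfl⟩ := Away.mk_surjective ℬ (map_mem f hsd) y
  obtain ⟨x, hx, rfl⟩ := hs _ b hb
  exact ⟨Away.mk 𝒜 hsd n x hx, Away.map_mk f s hsd n x hx⟩

include hs in
lemma pullback_closed {s : A} {d : ℕ} (hsd : s ∈ 𝒜 d) (hd : 0 < d) :
    IsClosedImmersion (Limits.pullback.snd (Proj.map f hf) (Proj.awayι 𝒜 s hsd hd)) := by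
  have hpb : IsPullback (Spec.map (CommRingCat.ofHom (Away.map f s)))
      (Proj.awayι ℬ (f s) (map_mem f hsd) hd) (Proj.awayι 𝒜 s hsd hd)
      (Proj.map f hf) := by
    have i1 : IsOpenImmersion (Proj.awayι 𝒜 s hsd hd) := inferInstance
    have i2 : IsOpenImmersion (Proj.awayι ℬ (f s) (map_mem f hsd) hd) := inferInstance
    apply IsOpenImmersion.isPullback
    · exact Proj.awayι_comp_map f hf hd s hsd
    · rw [Proj.opensRange_awayι, Proj.opensRange_awayι]
      rfl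
  have h1 : IsClosedImmersion (Spec.map (CommRingCat.ofHom (Away.map f s))) :=
    IsClosedImmersion.spec_of_surjective _ (awayMap_surj f hs hsd)
  have h2 : Limits.pullback.snd (Proj.map f hf) (Proj.awayι 𝒜 s hsd hd) =
      hpb.flip.isoPullback.inv ≫ Spec.map (CommRingCat.ofHom (Away.map f s)) := by
    rw [Iso.eq_inv_comp]
    exact hpb.flip.isoPullback_hom_snd
  rw [h2]
  infer_instance

include hs in
lemma restrict_closed {s : A} {d : ℕ} (hsd : s ∈ 𝒜 d) (hd : 0 < d) :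
    IsClosedImmersion (Proj.map f hf ∣_ Proj.basicOpen 𝒜 s) := by
  have i1 : IsOpenImmersion (Proj.awayι 𝒜 s hsd hd) := inferInstance
  rw [← Proj.opensRange_awayι 𝒜 s hsd hd]
  exact (MorphismProperty.arrow_mk_iso_iff @IsClosedImmersion.{0}
    (morphismRestrictOpensRange (Proj.map f hf) (Proj.awayι 𝒜 s hsd hd))).mpr
      (pullback_closed f hf hs hsd hd)

include hs in
theorem isClosedImmersion_map : IsClosedImmersion (Proj.map f hf) := by
  apply IsZariskiLocalAtTarget.of_iSup_eq_top (P := @IsClosedImmersion)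
    (fun i : (Σ i : PNat, 𝒜 i) => Proj.basicOpen 𝒜 (i.2 : A))
  · rw [_root_.eq_top_iff]
    rintro x -
    rw [Opens.mem_iSup]
    obtain ⟨n, hn, g, hg, hx⟩ := exists_homog_not_mem x
    exact ⟨⟨⟨n, hn⟩, ⟨g, hg⟩⟩, hx⟩
  · intro i
    exact restrict_closed f hf hs i.2.2 i.1.2

include hs in
lemma irr_le : ℬ₊ ≤ 𝒜₊.map f := by
  rw [← toIdeal_le_toIdeal_iff]
  refine (toIdeal_irrelevant_le _).mpr fun i hi y hy => ?_
  obtain ⟨x, hx, rfl⟩ := hs i y hy
  exact Ideal.mem_map_of_mem _ (mem_irrelevant_of_mem _ hi hx)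

variable (hC : ∀ c : ℂ, f (algebraMap ℂ A c) = algebraMap ℂ B c)

include hC in
lemma map_cst (s : A) : (Away.map f s).comp (cstAway 𝒜 s) = cstAway ℬ (f s) := by
  refine RingHom.ext fun c => ?_
  change HomogeneousLocalization.mk _ = HomogeneousLocalization.mk _
  ext
  rw [HomogeneousLocalization.val_mk, HomogeneousLocalization.val_mk]
  apply Localization.mk_eq_mk_iff.2
  rw [Localization.r_iff_exists]
  refine ⟨1, ?_⟩
  change (1 : B) * (1 * f (algebraMap ℂ A c)) = 1 * (f 1 * algebraMap ℂ B c)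
  rw [hC, map_one]

include hC in
lemma map_toC_aux {s : A} {d : ℕ} (hsd : s ∈ 𝒜 d) (hd : 0 < d) :
    Proj.awayι ℬ (f s) (map_mem f hsd) hd ≫ Proj.map f hf ≫ toC 𝒜 =
      Proj.awayι ℬ (f s) (map_mem f hsd) hd ≫ toC ℬ := by
  have e2 := Proj.awayι_comp_map_assoc f hf hd s hsd (toC 𝒜)
  rw [awayι_toC hsd hd, ← Spec.map_comp, ← CommRingCat.ofHom_comp, map_cst f hC] at e2
  exact e2.trans (awayι_toC (map_mem f hsd) hd).symm

include hC in
lemma map_toC : Proj.map f hf ≫ toC 𝒜 = toC ℬ := by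
  refine (Proj.mapAffineOpenCover f hf).openCover.hom_ext _ _ fun s => ?_
  exact map_toC_aux f hf hC s.2.2 s.1.2

end

end

end Pool.Agent.Lib.MP_d885f5.Sch
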