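import Mathlib

open CategoryTheory TopologicalSpace Opposite Limits

noncomputable section

namespace Pool.Agent.Lib.MP_d885f5.Sch

variable {C : Type} [SmallCategory C] {J : GrothendieckTopology C}
  (S : J.MayerVietorisSquare)

lemma freeLA : (ModuleCat.free.{0} ℂ).IsLeftAdjoint := (ModuleCat.adj ℂ).isLeftAdjoint

instance freePM : (ModuleCat.free.{0} ℂ).PreservesMonomorphisms where
  preserves {X Y} f hf := by
    rw [ModuleCat.mono_iff_injective]
    exact Finsupp.mapDomain_injective ((mono_iff_injective f).1 hf)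

lemma isPushoutModFreeSheaf :
    (S.map (yoneda ⋙ (Functor.whiskeringRight _ _ _).obj (ModuleCat.free ℂ) ⋙
      presheafToSheaf J _)).IsPushout :=
  have := freeLA
  (S.isPushout.map (Sheaf.composeAndSheafify J (ModuleCat.free ℂ))).of_iso
    ((Square.mapFunctor.mapIso
      (presheafToSheafCompComposeAndSheafifyIso J (ModuleCat.free ℂ))).app
        (S.map yoneda))

/-- The short complex of sheaves of modules
`ℂ[S.X₁] ⟶ ℂ[S.X₂] ⊞ ℂ[S.X₃] ⟶ ℂ[S.X₄]` -/
@[simps]
noncomputable def shortComplex :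
    ShortComplex (Sheaf J (ModuleCat.{0} ℂ)) where
  X₁ := (presheafToSheaf J _).obj (yoneda.obj S.X₁ ⋙ ModuleCat.free ℂ)
  X₂ := (presheafToSheaf J _).obj (yoneda.obj S.X₂ ⋙ ModuleCat.free ℂ) ⊞
    (presheafToSheaf J _).obj (yoneda.obj S.X₃ ⋙ ModuleCat.free ℂ)
  X₃ := (presheafToSheaf J _).obj (yoneda.obj S.X₄ ⋙ ModuleCat.free ℂ)
  f :=
    biprod.lift
      ((presheafToSheaf J _).map (Functor.whiskerRight (yoneda.map S.f₁₂) _))
      (-(presheafToSheaf J _).map (Functor.whiskerRight (yoneda.map S.f₁₃) _))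
  g :=
    biprod.desc
      ((presheafToSheaf J _).map (Functor.whiskerRight (yoneda.map S.f₂₄) _))
      ((presheafToSheaf J _).map (Functor.whiskerRight (yoneda.map S.f₃₄) _))
  zero := (S.map (yoneda ⋙ (Functor.whiskeringRight _ _ _).obj (ModuleCat.free ℂ) ⋙
      presheafToSheaf J _)).cokernelCofork.condition

set_option backward.defeqAttrib.useBackward true in
set_option backward.isDefEq.respectTransparency false in
instance : Mono (shortComplex S).f := by
  have : Mono ((shortComplex S).f ≫ biprod.snd) := by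
    dsimp
    simp only [biprod.lift_snd]
    infer_instance
  exact mono_of_mono _ biprod.snd

instance : Epi (shortComplex S).g :=
  ((shortComplex S).exact_and_epi_g_iff_g_is_cokernel.2
    ⟨(isPushoutModFreeSheaf S).isColimitCokernelCofork⟩).2

lemma shortComplex_exact : (shortComplex S).Exact :=
  ShortComplex.exact_of_g_is_cokernel _
    (isPushoutModFreeSheaf S).isColimitCokernelCofork

lemma shortComplex_shortExact : (shortComplex S).ShortExact where
  exact := shortComplex_exact S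


/-- The free sheaf of `ℂ`-modules on `U`. -/
abbrev fr (J : GrothendieckTopology C) (U : C) : Sheaf J (ModuleCat.{0} ℂ) :=
  (presheafToSheaf J _).obj (yoneda.obj U ⋙ ModuleCat.free ℂ)

/-- the universal section of the free sheaf -/
noncomputable def univSec (J : GrothendieckTopology C) (U : C) :
    ((fr J U).obj.obj (op U)) :=
  ((toSheafify J (yoneda.obj U ⋙ ModuleCat.free ℂ)).app (op U)).hom (ModuleCat.freeMk (𝟙 U))

/-- evaluation -/
noncomputable def evl (U : C) (F : Sheaf J (ModuleCat.{0} ℂ)) :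
    (fr J U ⟶ F) →ₗ[ℂ] F.obj.obj (op U) where
  toFun φ := (φ.hom.app (op U)).hom (univSec J U)
  map_add' _ _ := rfl
  map_smul' _ _ := rfl

lemma evl_bij (U : C) (F : Sheaf J (ModuleCat.{0} ℂ)) : Function.Bijective (evl U F) := by
  let e1 := (sheafificationAdjunction J (ModuleCat.{0} ℂ)).homEquiv
    (yoneda.obj U ⋙ ModuleCat.free ℂ) F
  let e2 := ((ModuleCat.adj ℂ).whiskerRight Cᵒᵖ).homEquiv (yoneda.obj U) F.obj
  let e3 : (yoneda.obj U ⟶ F.obj ⋙ forget (ModuleCat ℂ)) ≃ _ := yonedaEquiv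
  have key : ∀ φ, evl U F φ = e3 (e2 (e1 φ)) := by
    intro φ
    simp only [e1, e2, e3, yonedaEquiv_apply, Adjunction.homEquiv_unit]
    rfl
  have : (evl U F : (fr J U ⟶ F) → F.obj.obj (op U)) = fun φ => e3 (e2 (e1 φ)) := funext key
  rw [this]
  exact (e3.bijective.comp e2.bijective).comp e1.bijective


/-- evaluation as a linear equivalence -/
noncomputable def evlE (U : C) (F : Sheaf J (ModuleCat.{0} ℂ)) :
    (fr J U ⟶ F) ≃ₗ[ℂ] F.obj.obj (op U) := LinearEquiv.ofBijective (evl U F) (evl_bij U F)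

/-- functoriality of the free sheaf -/
noncomputable abbrev frMap (J : GrothendieckTopology C) {U V : C} (f : U ⟶ V) : fr J U ⟶ fr J V :=
  (presheafToSheaf J _).map (Functor.whiskerRight (yoneda.map f) (ModuleCat.free ℂ))

lemma frMap_univSec {U V : C} (f : U ⟶ V) :
    ((frMap J f).hom.app (op U)).hom (univSec J U) =
      ((fr J V).obj.map f.op).hom (univSec J V) := by
  have h1 := toSheafify_naturality J (Functor.whiskerRight (yoneda.map f) (ModuleCat.free.{0} ℂ))
  have h2 := NatTrans.congr_app h1 (op U)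
  have h3 := congrArg (fun z => z.hom (ModuleCat.freeMk (𝟙 U))) h2
  have h4 := (toSheafify J (yoneda.obj V ⋙ ModuleCat.free ℂ)).naturality f.op
  have h5 := congrArg (fun z => z.hom (ModuleCat.freeMk (𝟙 V))) h4
  refine Eq.trans h3.symm (Eq.trans ?_ h5)
  simp only [NatTrans.comp_app, ModuleCat.hom_comp, LinearMap.comp_apply, Functor.whiskerRight_app,
    Functor.comp_map]
  congr 1
  erw [ModuleCat.free_map_apply, ModuleCat.free_map_apply]
  simp

lemma evl_frMap {U V : C} (f : U ⟶ V) (F : Sheaf J (ModuleCat.{0} ℂ)) (φ : fr J V ⟶ F) :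
    evl U F (frMap J f ≫ φ) = (F.obj.map f.op).hom (evl V F φ) := by
  change (φ.hom.app (op U)).hom (((frMap J f).hom.app (op U)).hom (univSec J U)) = _
  rw [frMap_univSec]
  exact congrArg (fun z => z.hom (univSec J V)) (φ.hom.naturality f.op)

/-- constant presheaf as free presheaf on the terminal object -/
noncomputable def constIso {T : C} (hT : IsTerminal T) :
    (Functor.const Cᵒᵖ).obj (ModuleCat.of ℂ ℂ) ≅ yoneda.obj T ⋙ ModuleCat.free ℂ :=
  have hs : ∀ U : C, Subsingleton (U ⟶ T) := fun U => ⟨fun _ _ => hT.hom_ext _ _⟩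
  NatIso.ofComponents (fun U =>
    (Finsupp.uniqueLinearEquiv ℂ ℂ (hT.from U.unop)).symm.toModuleIso) (by
  intro U V f
  ext
  change (Finsupp.uniqueLinearEquiv ℂ ℂ (hT.from (unop V))).symm (1 : ℂ) =
    Finsupp.mapDomain (fun g : unop U ⟶ T => f.unop ≫ g)
      ((Finsupp.uniqueLinearEquiv ℂ ℂ (hT.from (unop U))).symm (1 : ℂ))
  rw [Finsupp.uniqueLinearEquiv_symm_apply, Finsupp.uniqueLinearEquiv_symm_apply,
    Finsupp.mapDomain_single]
  congr 1
  exact Subsingleton.elim _ _)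

/-- The constant sheaf `ℂ` -/
abbrev cst (J : GrothendieckTopology C) : Sheaf J (ModuleCat.{0} ℂ) :=
  (constantSheaf J (ModuleCat.{0} ℂ)).obj (ModuleCat.of ℂ ℂ)

/-- The constant sheaf is the free sheaf on the terminal object -/
noncomputable def cstIso {T : C} (hT : IsTerminal T) : cst J ≅ fr J T :=
  (presheafToSheaf J _).mapIso (constIso hT)

/-- `H⁰` is global sections -/
noncomputable def h0Equiv {T : C} (hT : IsTerminal T) (F : Sheaf J (ModuleCat.{0} ℂ)) :
    Abelian.Ext (cst J) F 0 ≃ₗ[ℂ] F.obj.obj (op T) :=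
  (Abelian.Ext.linearEquiv₀ (R := ℂ)).trans
    ((Linear.homCongr ℂ (cstIso hT) (Iso.refl F)).trans (evlE T F))

open Abelian in
lemma delta_aux {A : Type*} [Category* A] [Abelian A] [Linear ℂ A] [HasExt.{0} A]
    {A₁ A₂ A₃ T F : A} (f : A₁ ⟶ A₂) (g : A₂ ⟶ A₃) (w : f ≫ g = 0)
    (hS : (ShortComplex.mk f g w).ShortExact) (e : T ≅ A₃) {M : Type} [AddCommGroup M]
    [Module ℂ M] (ev : M ≃ₗ[ℂ] (A₁ ⟶ F)) :
    ∃ γ : M →ₗ[ℂ] Ext T F 1, ∀ m, γ m = 0 → ∃ φ : A₂ ⟶ F, f ≫ φ = ev m := by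
  let E : Ext A₃ A₁ 1 := hS.extClass
  refine ⟨{ toFun := fun m => (Ext.mk₀ e.hom).comp
              (E.comp (Ext.mk₀ (ev m)) (add_zero 1)) (zero_add 1)
            map_add' := fun x y => by
              rw [map_add, Ext.mk₀_add, Ext.comp_add, Ext.comp_add]
            map_smul' := fun c x => by
              rw [map_smul, Ext.mk₀_smul, Ext.comp_smul, Ext.comp_smul, RingHom.id_apply] }, ?_⟩
  intro m hm
  change (Ext.mk₀ e.hom).comp (E.comp (Ext.mk₀ (ev m)) (add_zero 1)) (zero_add 1) = 0 at hm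
  have h1 : E.comp (Ext.mk₀ (ev m)) (add_zero 1) = 0 := by
    have h2 := congrArg (fun z => (Ext.mk₀ e.inv).comp z (zero_add 1)) hm
    simp only [Ext.comp_zero] at h2
    rw [Ext.mk₀_comp_mk₀_assoc, e.inv_hom_id, Ext.mk₀_id_comp] at h2
    exact h2
  obtain ⟨x₂, hx₂⟩ := Ext.contravariant_sequence_exact₁ hS F (Ext.mk₀ (ev m)) (add_zero 1) h1
  obtain ⟨φ, rfl⟩ := (Ext.mk₀_bijective A₂ F).2 x₂
  rw [Ext.mk₀_comp_mk₀] at hx₂
  exact ⟨φ, (Ext.mk₀_bijective _ _).1 hx₂⟩

/-- the connecting map of the Mayer-Vietoris sequence -/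
theorem exists_delta (hT : IsTerminal S.X₄) (F : Sheaf J (ModuleCat.{0} ℂ)) :
    ∃ γ : F.obj.obj (op S.X₁) →ₗ[ℂ] Abelian.Ext (cst J) F 1, ∀ g, γ g = 0 →
      ∃ (a : F.obj.obj (op S.X₂)) (b : F.obj.obj (op S.X₃)),
        g = (F.obj.map S.f₁₂.op).hom a - (F.obj.map S.f₁₃.op).hom b := by
  obtain ⟨γ, hγ⟩ := delta_aux
    (biprod.lift (frMap J S.f₁₂) (- frMap J S.f₁₃))
    (biprod.desc (frMap J S.f₂₄) (frMap J S.f₃₄)) (shortComplex S).zero
    (shortComplex_shortExact S) (cstIso (J := J) hT) (evlE S.X₁ F).symm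
  refine ⟨γ, fun g hg => ?_⟩
  obtain ⟨φ, hφ⟩ := hγ g hg
  have h4 : evl S.X₁ F (biprod.lift (frMap J S.f₁₂) (- frMap J S.f₁₃) ≫ φ) = g := by
    rw [hφ]
    exact (evlE S.X₁ F).apply_symm_apply g
  refine ⟨evl S.X₂ F (biprod.inl ≫ φ), evl S.X₃ F (biprod.inr ≫ φ), ?_⟩
  rw [← evl_frMap, ← evl_frMap, ← map_sub, ← h4]
  congr 1
  have h5 : φ = biprod.desc (biprod.inl ≫ φ) (biprod.inr ≫ φ) := by
    apply biprod.hom_ext' <;> simp
  conv_lhs => rw [h5]
  rw [biprod.lift_desc, Preadditive.neg_comp, sub_eq_add_neg]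

end Pool.Agent.Lib.MP_d885f5.Sch
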