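import Mathlib
import Pool.Agent.Lib.MP_d885f5.Sch.Aux1
import Pool.Agent.Lib.MP_d885f5.Sch.MV

/-!
The cohomology of `O(D)` on `X`.
-/

open MvPolynomial DirectSum AlgebraicGeometry TopologicalSpace CategoryTheory Opposite

namespace Pool.Agent.Lib.MP_d885f5.Sch

noncomputable section

attribute [local instance] MvPolynomial.gradedAlgebra

/-- the structure morphism of the surface -/
abbrev sX : XX ⟶ SpecC := toC gr

section

variable {d : ℕ} {f : A2} (hf : Irreducible f) (hd : f.totalDegree = d)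

include hf hd in
lemma irr_hm : Irreducible (hm d f) := hd ▸ irreducible_hm hf

include hd in
lemma hom_hm : (hm d f).IsHomogeneous d := hm_homog hd.le

/-- the point -/
def eta : XX := PP (hm d f) (hom_hm hd) (irr_hm hf hd)

lemma exists_kk (hf : Irreducible f) (hd : f.totalDegree = d) (g : A2) :
    ∃ k : FunField sX, thetaK QQ sX k = jj g / jj f := by
  have h1 := hm_homog (le_refl g.totalDegree)
  obtain ⟨k, hk⟩ := exists_K (s := sX) (hom_hm hd) (irr_hm hf hd).ne_zero h1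
  refine ⟨k, ?_⟩
  have hz : ι (X 2) ≠ 0 := ι_ne (X_ne_zero _)
  have hj : jj f ≠ 0 := by
    rw [← map_zero jj]
    exact fun h => hf.ne_zero (jj_inj h)
  rw [ι_homog h1, ι_homog (hom_hm hd), dh_hm, dh_hm] at hk
  rw [eq_div_iff hj]
  have h2 : ι (X 2) ^ d * ι (X 2) ^ g.totalDegree ≠ 0 :=
    mul_ne_zero (pow_ne_zero _ hz) (pow_ne_zero _ hz)
  apply mul_left_cancel₀ h2
  linear_combination hk

/-- the rational function `g / f` -/
def kk (g : A2) : FunField sX := (exists_kk hf hd g).choose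

lemma thetaK_kk (g : A2) : thetaK QQ sX (kk hf hd g) = jj g / jj f :=
  (exists_kk hf hd g).choose_spec

lemma thetaK_smul (c : ℂ) (k : FunField sX) :
    thetaK QQ sX (c • k) = algebraMap ℂ QQ c * thetaK QQ sX k := by
  rw [Algebra.smul_def, map_mul, thetaK_cst]

/-- `g ↦ g / f` -/
def kkL : A2 →ₗ[ℂ] FunField sX where
  toFun := kk hf hd
  map_add' a b := by
    apply thetaK_injective QQ sX
    rw [map_add, thetaK_kk, thetaK_kk, thetaK_kk, map_add, add_div]
  map_smul' c a := by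
    apply thetaK_injective QQ sX
    rw [RingHom.id_apply, thetaK_smul, thetaK_kk, thetaK_kk, map_smul, Algebra.smul_def,
      mul_div_assoc]

lemma kk_mem {x : XX} (hU : x ∈ UU) (hV : x ∈ VV) (g : A2) :
    kk hf hd g ∈ stalkOD sX (eta hf hd) x := by
  have h1 := hm_homog (le_refl g.totalDegree)
  have hj : jj f ≠ 0 := by
    rw [← map_zero jj]
    exact fun h => hf.ne_zero (jj_inj h)
  have h2 : thetaK QQ sX (kk hf hd g) * (ι (hm d f) * ι (X 2) ^ g.totalDegree) =
      ι (hm g.totalDegree g) * ι (X 2) ^ d := by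
    rw [ι_homog h1, ι_homog (hom_hm hd), dh_hm, dh_hm, thetaK_kk]
    field_simp
  rcases inter_UV hU hV with h | h
  · exact mem_inter (hom_hm hd) (irr_hm hf hd) aa_mem h h1 h2
  · exact mem_inter (hom_hm hd) (irr_hm hf hd) bb_mem h h1 h2

/-- `g ↦ g / f` as a section over `U ∩ V` -/
def psi : A2 →ₗ[ℂ] sectionsOD sX (eta hf hd) (UU ⊓ VV) where
  toFun g := ⟨fun _ => kkL hf hd g, fun _ _ => rfl, fun x => kk_mem hf hd x.2.1 x.2.2 g⟩
  map_add' a b := by
    apply Subtype.ext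
    funext x
    exact map_add (kkL hf hd) a b
  map_smul' c a := by
    apply Subtype.ext
    funext x
    exact map_smul (kkL hf hd) c a

variable {m : (Fin 3 × Fin 3) × Bool × Bool → ℕ} (hm' : ∀ i, f ∈ ptIdeal (q36 i) ^ m i)

include hm' in
lemma secU_desc {k : FunField sX} (hk : ∀ x ∈ UU, k ∈ stalkOD sX (eta hf hd) x) :
    ∃ g : A2, thetaK QQ sX k = jj g / jj f ∧ ∀ i, g ∈ ptIdeal (q36 i) ^ m i := by
  obtain ⟨m', G, hG, h1⟩ := sec_U (hom_hm hd) (irr_hm hf hd) hk
  refine ⟨dh G, ?_, fun i => ?_⟩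
  · have hz : ι (X 2) ≠ 0 := ι_ne (X_ne_zero _)
    have hj : jj f ≠ 0 := by
      rw [← map_zero jj]
      exact fun h => hf.ne_zero (jj_inj h)
    rw [ι_homog hG, ι_homog (hom_hm hd), dh_hm] at h1
    rw [eq_div_iff hj]
    have h2 : ι (X 2) ^ d * ι (X 2) ^ m' ≠ 0 :=
      mul_ne_zero (pow_ne_zero _ hz) (pow_ne_zero _ hz)
    apply mul_left_cancel₀ h2
    rw [pow_add] at h1
    linear_combination h1
  · refine mult_U (hom_hm hd) (irr_hm hf hd) (is36_q36 i) ?_ (hk _ (ptE_mem_UU (is36_q36 i))) h1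
    rw [dh_hm]
    exact hm' i

lemma secV_desc {k : FunField sX} (hk : ∀ x ∈ VV, k ∈ stalkOD sX (eta hf hd) x) :
    ∃ g : A2, thetaK QQ sX k = jj g / jj f ∧ g.totalDegree ≤ d := by
  obtain ⟨G, hG, h1⟩ := sec_V (hom_hm hd) (irr_hm hf hd) hk
  refine ⟨dh G, ?_, dh_deg_le hG⟩
  have hz : ι (X 2) ≠ 0 := ι_ne (X_ne_zero _)
  have hj : jj f ≠ 0 := by
    rw [← map_zero jj]
    exact fun h => hf.ne_zero (jj_inj h)
  rw [ι_homog hG, ι_homog (hom_hm hd), dh_hm] at h1
  rw [eq_div_iff hj]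
  apply mul_left_cancel₀ (pow_ne_zero d hz)
  linear_combination h1

/-- sections over a nonempty open set are constants -/
lemma sec_const {η : XX} {W : Opens XX} (a : sectionsOD sX η W) (x0 : W) :
    ∀ x ∈ W, a.1 x0 ∈ stalkOD sX η x := by
  intro x hx
  rw [a.2.1 x0 ⟨x, hx⟩]
  exact a.2.2 ⟨x, hx⟩

end

end

end Pool.Agent.Lib.MP_d885f5.Sch
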