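import Mathlib
import Pool.Agent.Lib.MP_d885f5.Sch.Coho

/-!
`h⁰ = 1` and `h¹` unbounded on `X`.
-/

open MvPolynomial DirectSum AlgebraicGeometry TopologicalSpace CategoryTheory Opposite

namespace Pool.Agent.Lib.MP_d885f5.Sch

noncomputable section

attribute [local instance] MvPolynomial.gradedAlgebra

/-- the whole space is terminal among the open sets -/
def topTerm {T : Opens XX} (h : T = ⊤) : Limits.IsTerminal T :=
  Limits.IsTerminal.ofUniqueHom (fun _ => homOfLE (h ▸ le_top)) (fun _ _ => Subsingleton.elim _ _)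

lemma rank_sections {d : ℕ} {m : (Fin 3 × Fin 3) × Bool × Bool → ℕ} {f : A2}
    (g : GoodA q36 f d m) :
    Module.rank ℂ (sectionsOD sX (eta g.irr g.deg) ⊤) = 1 := by
  have x0 : (⊤ : Opens XX) := ⟨genericPoint XX, trivial⟩
  have hj : jj f ≠ 0 := by
    rw [← map_zero jj]
    exact fun h => g.irr.ne_zero (jj_inj h)
  -- the constant section `1`
  let one : sectionsOD sX (eta g.irr g.deg) ⊤ := ⟨fun _ => 1, fun _ _ => rfl, fun x => by
    intro t _
    exact ⟨t, one_mul _⟩⟩
  apply rank_eq_one one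
  · intro h
    have h1 : (1 : FunField sX) = 0 := congrArg (fun z => z.1 x0) h
    have h2 := congrArg (thetaK QQ sX) h1
    rw [map_one, map_zero] at h2
    exact one_ne_zero h2
  · intro w
    obtain ⟨a, ha, ha'⟩ := secU_desc g.irr g.deg g.mem
      (fun x _ => sec_const w x0 x trivial)
    obtain ⟨b, hb, hb'⟩ := secV_desc g.irr g.deg (fun x _ => sec_const w x0 x trivial)
    have hab : a = b := by
      apply jj_inj
      have h1 := ha.symm.trans hb
      field_simp at h1
      exact h1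
    subst hab
    obtain ⟨c, hc⟩ := g.uniq a hb' ha'
    refine ⟨c, ?_⟩
    apply Subtype.ext
    funext x
    apply thetaK_injective QQ sX
    rw [w.2.1 x x0, ha, hc]
    change thetaK QQ sX (c • (1 : FunField sX)) = _
    rw [thetaK_smul, map_one, mul_one, map_mul, algHom_C, mul_div_assoc, div_self hj, mul_one]

lemma h0_eq_one {d : ℕ} {m : (Fin 3 × Fin 3) × Bool × Bool → ℕ} {f : A2}
    (g : GoodA q36 f d m) : h sX 0 (eta g.irr g.deg) = 1 := by
  rw [← rank_sections g]
  exact (h0Equiv (topTerm rfl) (sheafOD sX (eta g.irr g.deg))).rank_eq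

section

variable {d : ℕ} {m : (Fin 3 × Fin 3) × Bool × Bool → ℕ} {f : A2} (g : GoodA q36 f d m)

/-- functions on the fat points -/
abbrev FatB (m : (Fin 3 × Fin 3) × Bool × Bool → ℕ) : Type :=
  (i : (Fin 3 × Fin 3) × Bool × Bool) → A2 ⧸ ptIdeal (q36 i) ^ m i

/-- restriction to the fat points -/
def piB (m : (Fin 3 × Fin 3) × Bool × Bool → ℕ) : A2 →ₗ[ℂ] FatB m :=
  LinearMap.pi fun i => (Ideal.Quotient.mkₐ ℂ (ptIdeal (q36 i) ^ m i)).toLinearMap

lemma piB_eq_zero (a : A2) : piB m a = 0 ↔ ∀ i, a ∈ ptIdeal (q36 i) ^ m i := by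
  constructor
  · intro h i
    exact Ideal.Quotient.eq_zero_iff_mem.1 (congrFun h i)
  · intro h
    funext i
    exact Ideal.Quotient.eq_zero_iff_mem.2 (h i)

lemma piB_surj : Function.Surjective (piB m) := by
  intro x
  obtain ⟨r, hr⟩ := Ideal.pi_quotient_surjective (I := fun i => ptIdeal (q36 i) ^ m i)
    (fun i j hij => ptIdeal_coprime (fun h => hij (q36_inj h)) _ _) x
  exact ⟨r, funext hr⟩

/-- the image of the polynomials of degree at most `d` -/
def imB (m : (Fin 3 × Fin 3) × Bool × Bool → ℕ) (d : ℕ) : Submodule ℂ (FatB m) :=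
  (restrictTotalDegree (Fin 2) ℂ d).map (piB m)

instance (i : (Fin 3 × Fin 3) × Bool × Bool) : Module.Finite ℂ (A2 ⧸ ptIdeal (q36 i) ^ m i) :=
  finite_quot (q36 i) (m i)

include g in
lemma finrank_coker (hs : ∑ x, m x * (m x + 1) = d * d + 6 * d) :
    d ≤ Module.finrank ℂ (FatB m ⧸ imB m d) := by
  have h2 := Submodule.finrank_quotient_add_finrank (imB m d)
  have h3 : 2 * Module.finrank ℂ (FatB m) = d * d + 6 * d := by
    rw [Module.finrank_pi_fintype, Finset.mul_sum, ← hs]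
    exact Finset.sum_congr rfl fun i _ => finrank_quot (q36 i) (m i)
  have h5 := finrank_restr d
  obtain ⟨fs, hfs⟩ : ∃ fs : restrictTotalDegree (Fin 2) ℂ d, (fs : A2) = f :=
    ⟨⟨f, (mem_restrictTotalDegree _ _ _).2 g.deg.le⟩, rfl⟩
  have h6 : Module.finrank ℂ (imB m d) + 1 ≤
      Module.finrank ℂ (restrictTotalDegree (Fin 2) ℂ d) := by
    let L : restrictTotalDegree (Fin 2) ℂ d →ₗ[ℂ] FatB m :=
      (piB m).comp (restrictTotalDegree (Fin 2) ℂ d).subtype
    have hL : LinearMap.range L = imB m d := by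
      rw [LinearMap.range_comp, Submodule.range_subtype]
      rfl
    have h7 := LinearMap.finrank_range_add_finrank_ker L
    rw [hL] at h7
    have h8 : 0 < Module.finrank ℂ (LinearMap.ker L) := by
      refine Nat.pos_of_ne_zero fun h0 => ?_
      have h9 : fs ∈ LinearMap.ker L := by
        rw [LinearMap.mem_ker]
        change piB m (fs : A2) = 0
        rw [hfs, piB_eq_zero]
        exact g.mem
      rw [Submodule.finrank_eq_zero.1 h0, Submodule.mem_bot] at h9
      rw [h9] at hfs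
      exact g.irr.ne_zero hfs.symm
    omega
  have e1 : (d + 1) * (d + 2) = d * d + 3 * d + 2 := by ring
  rw [e1] at h5
  omega

/-- kernel of the connecting map -/
lemma exists_gamma : ∃ Γ : A2 →ₗ[ℂ] Coh (sheafOD sX (eta g.irr g.deg)) 1,
    ∀ a, Γ a = 0 → piB m a ∈ imB m d := by
  obtain ⟨γ, hγ⟩ := exists_delta (_root_.Opens.mayerVietorisSquare UU VV)
    (topTerm UU_sup_VV) (sheafOD sX (eta g.irr g.deg))
  refine ⟨γ.comp (psi g.irr g.deg), fun a ha => ?_⟩
  obtain ⟨b, c, hbc⟩ := hγ _ ha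
  have x0 : (UU ⊓ VV : Opens XX) := ⟨genericPoint XX, by
    constructor
    · exact ((genericPoint_spec XX).mem_open_set_iff UU.isOpen).2
        ⟨_, ⟨trivial, ptE_mem_UU (is36_q36 ((0, 0), true, true))⟩⟩
    · exact ((genericPoint_spec XX).mem_open_set_iff VV.isOpen).2
        ⟨eta g.irr g.deg, ⟨trivial, PP_mem_VV _ _⟩⟩⟩
  have hj : jj f ≠ 0 := by
    rw [← map_zero jj]
    exact fun h => g.irr.ne_zero (jj_inj h)
  let xU : UU := ⟨x0.1, x0.2.1⟩
  let xV : VV := ⟨x0.1, x0.2.2⟩
  have e : kk g.irr g.deg a = b.1 xU - c.1 xV := congrArg (fun z => z.1 x0) hbc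
  obtain ⟨b', hb, hb'⟩ := secU_desc g.irr g.deg g.mem (sec_const b xU)
  obtain ⟨c', hc, hc'⟩ := secV_desc g.irr g.deg (sec_const c xV)
  have e2 := congrArg (thetaK QQ sX) e
  rw [map_sub, thetaK_kk, hb, hc] at e2
  have e3 : a = b' - c' := by
    apply jj_inj
    rw [map_sub]
    field_simp at e2
    exact e2
  rw [e3, map_sub, (piB_eq_zero b').2 hb', zero_sub]
  exact Submodule.neg_mem _ (Submodule.mem_map_of_mem ((mem_restrictTotalDegree _ _ _).2 hc'))

lemma h1_ge (hs : ∑ x, m x * (m x + 1) = d * d + 6 * d) :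
    (d : Cardinal) ≤ h sX 1 (eta g.irr g.deg) := by
  obtain ⟨Γ, hΓ⟩ := exists_gamma g
  let ρ : A2 →ₗ[ℂ] (FatB m ⧸ imB m d) := (imB m d).mkQ.comp (piB m)
  have hρ : Function.Surjective ρ := (Submodule.mkQ_surjective _).comp piB_surj
  have hker : LinearMap.ker Γ ≤ LinearMap.ker ρ := by
    intro a ha
    rw [LinearMap.mem_ker] at ha ⊢
    exact (Submodule.Quotient.mk_eq_zero _).2 (hΓ a ha)
  let L : (A2 ⧸ LinearMap.ker Γ) →ₗ[ℂ] (FatB m ⧸ imB m d) := (LinearMap.ker Γ).liftQ ρ hker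
  have hL : Function.Surjective L := by
    intro y
    obtain ⟨a, rfl⟩ := hρ y
    exact ⟨(LinearMap.ker Γ).mkQ a, rfl⟩
  have r1 := LinearMap.rank_le_of_surjective L hL
  have r2 := (Γ.quotKerEquivRange).rank_eq
  have r3 := Submodule.rank_le (LinearMap.range Γ)
  have r4 : (d : Cardinal) ≤ Module.rank ℂ (FatB m ⧸ imB m d) := by
    rw [← Module.finrank_eq_rank]
    exact_mod_cast finrank_coker g hs
  exact r4.trans (r1.trans (r2.le.trans r3))

end

/-- the cohomological part of the main theorem -/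
theorem coho (N : ℕ) : ∃ η : XX, Order.coheight η = 1 ∧ h sX 0 η = 1 ∧
    (N : Cardinal) ≤ h sX 1 η := by
  obtain ⟨d, m, f, g, hd, hs⟩ := core N
  refine ⟨eta g.irr g.deg, coheight_PP _ _, h0_eq_one g, le_trans ?_ (h1_ge g hs)⟩
  exact_mod_cast hd

end

end Pool.Agent.Lib.MP_d885f5.Sch
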