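import Mathlib
import Pool.Agent.Lib.MP_d885f5.Sch.ClosedImm
import Pool.Agent.Lib.MP_d885f5.Sch.Pts

/-!
`X` is a closed subscheme of `ℙ⁵`.
-/

open MvPolynomial DirectSum AlgebraicGeometry TopologicalSpace CategoryTheory Opposite

namespace Pool.Agent.Lib.MP_d885f5.Sch

noncomputable section

attribute [local instance] MvPolynomial.gradedAlgebra

/-- an enumeration of the six generators -/
def en : Fin (5 + 1) ≃ Fin 3 × Bool := (Fintype.equivFinOfCardEq (by simp)).symm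

/-- the six generators -/
def gen6 (i : Fin (5 + 1)) : Rx :=
  ⟨X (en i).1 * (if (en i).2 then aa else bb), by
    split_ifs
    · exact gen_Rx _ aa_mem
    · exact gen_Rx _ bb_mem⟩

/-- the surjection from the coordinate ring of `ℙ⁵` -/
def phi0 : MvPolynomial (Fin (5 + 1)) ℂ →ₐ[ℂ] Rx := aeval gen6

lemma phi0_image (n : ℕ) : (homogeneousSubmodule (Fin (5 + 1)) ℂ n).map
    (Rx.val.comp phi0).toLinearMap = M1 ^ n := by
  rw [← homogeneousSubmodule_one_pow, Submodule.map_pow]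
  congr 1
  rw [homogeneousSubmodule_one_eq_span_X, Submodule.map_span, M1_eq_span]
  congr 1
  ext y
  constructor
  · rintro ⟨_, ⟨i, rfl⟩, rfl⟩
    refine ⟨en i, ?_⟩
    change _ = ((phi0 (X i) : Rx) : S3)
    rw [phi0, aeval_X]
    rfl
  · rintro ⟨j, rfl⟩
    refine ⟨X (en.symm j), ⟨_, rfl⟩, ?_⟩
    change ((phi0 (X (en.symm j)) : Rx) : S3) = _
    rw [phi0, aeval_X, gen6]
    simp only [Equiv.apply_symm_apply]

/-- the graded homomorphism -/
def phiG : homogeneousSubmodule (Fin (5 + 1)) ℂ →+*ᵍ gr where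
  toRingHom := phi0.toRingHom
  map_mem := by
    intro i x hx
    change ((phi0 x : Rx) : S3) ∈ M1 ^ i
    rw [← phi0_image i]
    exact ⟨x, hx, rfl⟩

lemma phiG_surj : ∀ n, ∀ y ∈ gr n, ∃ x ∈ homogeneousSubmodule (Fin (5 + 1)) ℂ n, phiG x = y := by
  intro n y hy
  have hy' : (y : S3) ∈ M1 ^ n := hy
  rw [← phi0_image n] at hy'
  obtain ⟨x, hx, hxy⟩ := hy'
  exact ⟨x, hx, Subtype.ext hxy⟩

theorem projective_sX : ∃ (n : ℕ) (i : XX ⟶ PSpace n), IsClosedImmersion i ∧
    i ≫ PSpace.toSpecC n = toC gr := by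
  refine ⟨5, Proj.map phiG (irr_le phiG phiG_surj), isClosedImmersion_map _ _ phiG_surj, ?_⟩
  exact map_toC phiG (irr_le phiG phiG_surj) (fun c => phi0.commutes c)

end

end Pool.Agent.Lib.MP_d885f5.Sch
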