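import Mathlib
import Pool.Agent.Lib.MP_d885f5.Sch.Charts

/-!
`X` is smooth over `ℂ`.
-/

open MvPolynomial DirectSum AlgebraicGeometry TopologicalSpace CategoryTheory Opposite
open HomogeneousLocalization (Away)

namespace Pool.Agent.Lib.MP_d885f5.Sch

noncomputable section

attribute [local instance] MvPolynomial.gradedAlgebra

lemma LL_comm : LL = Submodule.span ℂ {bb, aa} := by
  rw [LL, Set.pair_comm]

lemma aa_ne : aa ≠ 0 := by
  intro h
  have hq : Is36 1 := ⟨by simp, by simp⟩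
  apply ndvd_aa hq
  rw [h, map_zero]
  exact dvd_zero _

lemma bb_ne : bb ≠ 0 := by
  intro h
  have h2 := congrArg (eval ![0, 1, 0]) h
  simp [bb] at h2

lemma jv_X0 (v p q : Fin 3) : jv v p q (X 0) = ι (X p) / ι (X v) := by
  rw [jv, aeval_X]
  rfl

lemma jv_X1 (v p q : Fin 3) : jv v p q (X 1) = ι (X q) / ι (X v) := by
  rw [jv, aeval_X]
  rfl

lemma eq_A (v p q : Fin 3) :
    ι (X p ^ 6 - X v ^ 6) = ι (X v) ^ 6 * jv v p q (X 0 ^ 6 - 1) := by
  have hz : ι (X v) ≠ 0 := ι_ne (X_ne_zero _)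
  rw [map_sub, map_pow, map_one, jv_X0, ι, map_sub, map_pow, map_pow]
  field_simp

lemma eq_B (v p q : Fin 3) :
    ι (X q ^ 6 - X v ^ 6) = ι (X v) ^ 6 * jv v p q (X 1 ^ 6 - 1) := by
  have hz : ι (X v) ≠ 0 := ι_ne (X_ne_zero _)
  rw [map_sub, map_pow, map_one, jv_X1, ι, map_sub, map_pow, map_pow]
  field_simp

lemma eq_C (v p q : Fin 3) :
    ι (X v ^ 6 - X q ^ 6) = ι (X v) ^ 6 * jv v p q (1 - X 1 ^ 6) := by
  have hz : ι (X v) ≠ 0 := ι_ne (X_ne_zero _)
  rw [map_sub, map_pow, map_one, jv_X1, ι, map_sub, map_pow, map_pow]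
  field_simp

lemma eq_D (v p q : Fin 3) :
    ι (X p ^ 6 - X q ^ 6) = ι (X v) ^ 6 * jv v p q (X 0 ^ 6 - X 1 ^ 6) := by
  have hz : ι (X v) ≠ 0 := ι_ne (X_ne_zero _)
  rw [map_sub, map_pow, map_pow, jv_X0, jv_X1, ι, map_sub, map_pow, map_pow]
  field_simp

lemma smooth_vc (v : Fin 3) : (cstAway gr (gvc v aa_mem)).Smooth ∧
    (cstAway gr (gvc v bb_mem)).Smooth := by
  fin_cases v
  · constructor
    · exact chart_smooth (v := 0) (p := 1) (q := 2) (by decide)
        (jv_inj ![1, 2, 0] (by decide) rfl rfl rfl) aa_mem bb_mem rfl aa_ne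
        (eq_C 0 1 2) (eq_D 0 1 2) cop2 lifts2
    · exact chart_smooth (v := 0) (p := 1) (q := 2) (by decide)
        (jv_inj ![1, 2, 0] (by decide) rfl rfl rfl) bb_mem aa_mem LL_comm bb_ne
        (eq_D 0 1 2) (eq_C 0 1 2) cop3 lifts3
  · constructor
    · exact chart_smooth (v := 1) (p := 0) (q := 2) (by decide)
        (jv_inj ![0, 2, 1] (by decide) rfl rfl rfl) aa_mem bb_mem rfl aa_ne
        (eq_D 1 0 2) (eq_C 1 0 2) cop3 lifts3
    · exact chart_smooth (v := 1) (p := 0) (q := 2) (by decide)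
        (jv_inj ![0, 2, 1] (by decide) rfl rfl rfl) bb_mem aa_mem LL_comm bb_ne
        (eq_C 1 0 2) (eq_D 1 0 2) cop2 lifts2
  · constructor
    · exact chart_smooth (v := 2) (p := 0) (q := 1) (by decide)
        (jv_inj ![0, 1, 2] (by decide) rfl rfl rfl) aa_mem bb_mem rfl aa_ne
        (eq_A 2 0 1) (eq_B 2 0 1) cop1 lifts1
    · exact chart_smooth (v := 2) (p := 1) (q := 0) (by decide)
        (jv_inj ![1, 0, 2] (by decide) rfl rfl rfl) bb_mem aa_mem LL_comm bb_ne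
        (eq_A 2 1 0) (eq_B 2 1 0) cop1 lifts1

/-- the six charts -/
def chartO (i : Fin 3 × Bool) : XX.Opens :=
  if i.2 then Proj.basicOpen gr (gvc i.1 aa_mem) else Proj.basicOpen gr (gvc i.1 bb_mem)

lemma chartO_cover : ⨆ i, chartO i = ⊤ := by
  rw [eq_top_iff]
  rintro x -
  rw [Opens.mem_iSup]
  obtain ⟨v, hv | hv⟩ := exists_gen x
  · exact ⟨(v, true), (mem_bo (gen_Rx v aa_mem) x).2 hv⟩
  · exact ⟨(v, false), (mem_bo (gen_Rx v bb_mem) x).2 hv⟩

lemma smooth_basicOpen {g : Rx} (hg : g ∈ gr 1) (h : (cstAway gr g).Smooth) :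
    Smooth ((Proj.basicOpen gr g).ι ≫ toC gr) := by
  have h1 : ((Proj.basicOpen gr g).ι ≫ toC gr : (Proj.basicOpen gr g).toScheme ⟶ SpecC) =
      (Proj.basicOpenIsoSpec gr g hg one_pos).hom ≫
        Spec.map (CommRingCat.ofHom (cstAway gr g)) := by
    rw [← awayι_toC hg one_pos, Proj.awayι, Category.assoc, Iso.hom_inv_id_assoc]
  have h2 : Smooth (Spec.map (CommRingCat.ofHom (cstAway gr g))) :=
    (HasRingHomProperty.Spec_iff (P := @Smooth.{0})).2 h
  rw [h1]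
  infer_instance

theorem smooth_sX : Smooth (toC gr) := by
  have hloc : IsZariskiLocalAtSource @Smooth.{0} := HasRingHomProperty.instIsZariskiLocalAtSource
  refine IsZariskiLocalAtSource.of_iSup_eq_top (P := @Smooth.{0}) chartO chartO_cover ?_
  rintro ⟨v, b⟩
  cases b
  · exact smooth_basicOpen (gvc_mem v bb_mem) (smooth_vc v).2
  · exact smooth_basicOpen (gvc_mem v aa_mem) (smooth_vc v).1

end

end Pool.Agent.Lib.MP_d885f5.Sch
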