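import Mathlib
import Pool.Agent.Lib.MP_d885f5.Sch.Smooth6

/-!
`X` is rational.
-/

open MvPolynomial DirectSum AlgebraicGeometry TopologicalSpace CategoryTheory Opposite
open HomogeneousLocalization (Away)

namespace Pool.Agent.Lib.MP_d885f5.Sch

noncomputable section

attribute [local instance] MvPolynomial.gradedAlgebra

/-- the equation `x⁶ = 1` of the complement of the open set -/
def gam : A2 := X 0 ^ 6 - 1

/-- functions on the open subset `x⁶ ≠ 1` of the affine plane -/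
abbrev LG : Type := Localization.Away gam

lemma aa_gam : ι aa = ι (X 2) ^ 6 * jj gam := eq_A 2 0 1

lemma jj_gam : jj gam ≠ 0 := by
  intro h
  have h1 := aa_gam
  rw [h, mul_zero] at h1
  exact ι_ne aa_ne h1

/-- the inclusion in `QQ` -/
def betL : LG →+* QQ :=
  IsLocalization.Away.lift gam (g := jj.toRingHom) (isUnit_iff_ne_zero.2 jj_gam)

lemma betL_alg (a : A2) : betL (algebraMap A2 LG a) = jj a :=
  IsLocalization.Away.lift_eq gam (g := jj.toRingHom) (isUnit_iff_ne_zero.2 jj_gam) a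

lemma exists_LG (x : LG) : ∃ (a : A2) (n : ℕ), x * algebraMap A2 LG gam ^ n =
    algebraMap A2 LG a := by
  obtain ⟨⟨a, ⟨_, n, rfl⟩⟩, h⟩ := IsLocalization.surj (Submonoid.powers gam) x
  refine ⟨a, n, ?_⟩
  rw [← map_pow]
  exact h

lemma betL_of {x : LG} {a : A2} {n : ℕ} (h : x * algebraMap A2 LG gam ^ n = algebraMap A2 LG a) :
    betL x = jj a / jj gam ^ n := by
  rw [eq_div_iff (pow_ne_zero n jj_gam), ← betL_alg, ← betL_alg, ← map_pow, ← map_mul, h]

lemma betL_inj : Function.Injective betL := by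
  rw [injective_iff_map_eq_zero]
  intro x hx
  obtain ⟨a, n, h⟩ := exists_LG x
  rw [betL_of h, div_eq_zero_iff] at hx
  rcases hx with hx | hx
  · have ha : a = 0 := jj_inj (by rw [hx, map_zero])
    rw [ha, map_zero] at h
    have hu : IsUnit (algebraMap A2 LG gam ^ n) :=
      (IsLocalization.Away.algebraMap_isUnit gam).pow n
    exact (hu.mul_left_eq_zero).1 h
  · exact absurd hx (pow_ne_zero n jj_gam)

/-- the element `z a⁸` -/
def g8 : Rx := ⟨X 2 * aa ^ 8, c8_Rx 2 aa_mem⟩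

lemma g8_mem : g8 ∈ gr 7 := c8_mem 2 aa_mem

lemma g8_ne : g8 ≠ 0 :=
  fun h => mul_ne_zero (X_ne_zero 2) (pow_ne_zero 8 aa_ne) (congrArg Subtype.val h)

lemma g8_eq : algebraMap Rx QQ g8 = ι (X 2) ^ 49 * jj gam ^ 8 := by
  change ι (X 2 * aa ^ 8) = _
  rw [ι_map_mul, ι_map_pow, aa_gam]
  ring

lemma range_eq : betL.range = rngA gr QQ g8_ne := by
  have hz : ι (X 2) ≠ 0 := ι_ne (X_ne_zero _)
  have hg := jj_gam
  apply le_antisymm
  · rintro _ ⟨x, rfl⟩
    have hX : ∀ i, ι (X i) / ι (X 2) ∈ rngA gr QQ g8_ne := by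
      intro i
      rw [mem_range_muA QQ g8_ne g8_mem]
      refine ⟨1, ⟨X i * aa ^ 8, c8_Rx i aa_mem⟩, c8_mem i aa_mem, ?_⟩
      rw [pow_one]
      change _ = ι (X i * aa ^ 8) / ι (X 2 * aa ^ 8)
      have := ι_ne aa_ne
      rw [ι_map_mul, ι_map_mul, ι_map_pow]
      field_simp
    have hjj : ∀ a, jj a ∈ rngA gr QQ g8_ne := by
      intro a
      induction a using MvPolynomial.induction_on with
      | C c => rw [algHom_C]; exact cst_mem_rngA QQ g8_ne c
      | add a b ha hb => rw [map_add]; exact add_mem ha hb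
      | mul_X a i ha =>
        rw [map_mul]
        refine mul_mem ha ?_
        rw [jj, aeval_X]
        fin_cases i
        · exact hX 0
        · exact hX 1
    have hinv : (jj gam)⁻¹ ∈ rngA gr QQ g8_ne := by
      rw [mem_range_muA QQ g8_ne g8_mem]
      have h7 : (X 2 * aa) ^ 7 ∈ M1 ^ 7 := Submodule.pow_mem_pow _ (gen_mem 2 aa_mem) 7
      refine ⟨1, ⟨(X 2 * aa) ^ 7, M_le_Rx h7⟩, h7, ?_⟩
      rw [pow_one, g8_eq]
      change _ = ι ((X 2 * aa) ^ 7) / _
      rw [ι_map_pow, ι_map_mul, aa_gam]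
      field_simp
    obtain ⟨a, n, h⟩ := exists_LG x
    rw [betL_of h, div_eq_mul_inv, ← inv_pow]
    exact mul_mem (hjj a) (pow_mem hinv n)
  · intro y hy
    rw [mem_range_muA QQ g8_ne g8_mem] at hy
    obtain ⟨n, r, hr, rfl⟩ := hy
    have hr' : (r : S3) ∈ M1 ^ (n * 7) := hr
    have hh := M1_pow_hom _ hr'
    rw [g8_eq]
    change ι (r : S3) / _ ∈ _
    rw [ι_homog hh]
    obtain ⟨x, hx⟩ : ∃ x : LG, x * algebraMap A2 LG gam ^ (8 * n) =
        algebraMap A2 LG (dh (r : S3)) := by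
      have hu : IsUnit (algebraMap A2 LG gam ^ (8 * n)) :=
        (IsLocalization.Away.algebraMap_isUnit gam).pow (8 * n)
      obtain ⟨u, hu⟩ := hu
      refine ⟨algebraMap A2 LG (dh (r : S3)) * (u⁻¹ : LGˣ), ?_⟩
      rw [← hu, mul_assoc, Units.inv_mul, mul_one]
    refine ⟨x, ?_⟩
    rw [betL_of hx, mul_pow, ← pow_mul, ← pow_mul, show 7 * (n * 7) = 49 * n by ring,
      mul_div_mul_left _ _ (pow_ne_zero _ hz)]

/-- an open immersion from a nonempty scheme into an irreducible scheme is dominant -/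
lemma isDominant_of_open {A B : Scheme.{0}} [Nonempty A] [IrreducibleSpace B] (f : A ⟶ B)
    [IsOpenImmersion f] : IsDominant f :=
  ⟨f.isOpenEmbedding.isOpen_range.dense (Set.range_nonempty f)⟩

theorem rational_sX : Scheme.BirationalOver (toC gr) (𝔸(Fin 2; SpecC) ↘ SpecC) := by
  obtain ⟨e, he⟩ := exists_equiv betL (muA (𝒜 := gr) QQ g8_ne) betL_inj
    (muA_injective QQ g8_ne) range_eq
  let f1 : Spec (CommRingCat.of (Away gr g8)) ⟶ XX := Proj.awayι gr g8 g8_mem (by norm_num)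
  let fe : Spec (CommRingCat.of (Away gr g8)) ⟶ Spec (CommRingCat.of LG) :=
    Spec.map (CommRingCat.ofHom e.toRingHom)
  let fl : Spec (CommRingCat.of LG) ⟶ Spec (CommRingCat.of A2) :=
    Spec.map (CommRingCat.ofHom (algebraMap A2 LG))
  let fs : Spec (CommRingCat.of A2) ⟶ 𝔸(Fin 2; SpecC) :=
    (AffineSpace.SpecIso (Fin 2) (CommRingCat.of ℂ)).inv
  have hfe : IsIso fe := by
    have : IsIso (CommRingCat.ofHom e.toRingHom) := (RingEquiv.toCommRingCatIso e).isIso_hom
    infer_instance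
  have hfl : IsOpenImmersion fl := by infer_instance
  have hfs : IsIso fs := by infer_instance
  have hne : Nontrivial (Away gr g8) := (muA (𝒜 := gr) QQ g8_ne).domain_nontrivial
  have hNe : Nonempty (Spec (CommRingCat.of (Away gr g8))) :=
    inferInstanceAs (Nonempty (PrimeSpectrum (Away gr g8)))
  have hirr : IrreducibleSpace (𝔸(Fin 2; SpecC)) := inferInstance
  have hirrX : IrreducibleSpace XX := inferInstance
  have : IsOpenImmersion (fe ≫ fl ≫ fs) := inferInstance
  have hf1 : IsOpenImmersion f1 := by infer_instance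
  have d1 : IsDominant f1 := isDominant_of_open f1
  have d2 : IsDominant (fe ≫ fl ≫ fs) := isDominant_of_open _
  have h1 : f1 ≫ toC gr = Spec.map (CommRingCat.ofHom (cstAway gr g8)) := awayι_toC g8_mem _
  have h2 : (fe ≫ fl ≫ fs) ≫ (𝔸(Fin 2; SpecC) ↘ SpecC) =
      Spec.map (CommRingCat.ofHom (cstAway gr g8)) := by
    rw [Category.assoc, Category.assoc]
    change fe ≫ fl ≫ (AffineSpace.SpecIso (Fin 2) (CommRingCat.of ℂ)).inv ≫
      (𝔸(Fin 2; Spec (CommRingCat.of ℂ)) ↘ Spec (CommRingCat.of ℂ)) = _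
    rw [AffineSpace.SpecIso_inv_over]
    change Spec.map _ ≫ Spec.map _ ≫ Spec.map _ = _
    rw [← Spec.map_comp, ← Spec.map_comp]
    congr 1
    refine CommRingCat.hom_ext (RingHom.ext fun c => ?_)
    change e (algebraMap A2 LG (C c)) = cstAway gr g8 c
    apply muA_injective QQ g8_ne
    rw [he, betL_alg, muA_cst, algHom_C]
  exact (Scheme.Hom.birationalOver f1 (toC gr) _ h1).symm.trans
    (Scheme.Hom.birationalOver (fe ≫ fl ≫ fs) _ _ h2)

end

end Pool.Agent.Lib.MP_d885f5.Sch
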