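import Mathlib
import Pool.Agent.Lib.MP_d885f5.Sch.Final
import Pool.Agent.Lib.MP_d885f5.Sch.Projv
import Pool.Agent.Lib.MP_d885f5.Sch.Rat

/-!
The main theorem: a smooth projective rational surface over `ℂ` with irreducible curves `D`
such that `h⁰(D) = 1` and `h¹(D)` is arbitrarily large.
-/

open AlgebraicGeometry CategoryTheory

namespace Pool.Agent.Lib.MP_d885f5.Sch

noncomputable section

/-- `XX` with its structure morphism is a smooth projective rational surface -/
theorem surface_sX : IsSmoothProjectiveRationalSurface sX where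
  isIntegral := inferInstance
  smooth := smooth_sX
  projective := projective_sX
  rational := rational_sX

theorem main : ∃ (X : Scheme.{0}) (_ : IsIntegral X) (s : X ⟶ SpecC),
    IsSmoothProjectiveRationalSurface s ∧
      ∀ N : ℕ, ∃ η : X, Order.coheight η = 1 ∧ h s 0 η = 1 ∧ (N : Cardinal.{0}) ≤ h s 1 η :=
  ⟨XX, inferInstance, sX, surface_sX, coho⟩

end

end Pool.Agent.Lib.MP_d885f5.Sch
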